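import Pool.Agent.Work.MP_b51559_nt.BG.C.Stmts2

set_option autoImplicit false

/-!
# Block BG/Q: second moment. Definitions and the interfaces

See the note of helper86 on MP_b51559_nt. Everything is on top of block BG/C (file BG/C/All.lean).
-/

namespace MPb51559.BG.Q

open Finset Filter Topology MeasureTheory
open scoped Classical

/-- the norm of the marginal in direction `m` -/
noncomputable def JJ {k : ℕ} (F : (Fin k → ℝ) → ℝ) (m : Fin k) : ℝ :=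
  ∫ t, cutm m (fun t => marg F m t ^ 2) t

/-- the norm of the double marginal in directions `m`, `j` -/
noncomputable def GG {k : ℕ} (F : (Fin k → ℝ) → ℝ) (m j : Fin k) : ℝ :=
  ∫ t, cutm j (cutm m (fun t => marg (marg F m) j t ^ 2)) t

section
variable {S : Finset ℕ} {k : ℕ}

/-- normaliser of the extension in colour `j` (density p - 2, j part at most `Z`) -/
noncomputable def cps (j : Fin k) (Z : ℝ) (r : Co S k) : ℝ :=
  ∑ u ∈ univ.filter (fun u : Co S k => dl j u = r ∧ (prt j u : ℝ) ≤ Z),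
    mw (fun p => aF p - 1) r / mw (fun p => aF p - 1) u

/-- diagonal variables (density aF) of the extension in colour `j` of the weight `l` -/
noncomputable def yex (j : Fin k) (Z : ℝ) (l : Co S k → ℝ) (u : Co S k) : ℝ :=
  if (prt j u : ℝ) ≤ Z then ytr aF l (dl j u) / cps j Z (dl j u) else 0

/-- the diagonal variables (density aF) of the sieve weight of `F` without the colours `m`, `j` -/
noncomputable def BB (R : ℝ) (F : (Fin k → ℝ) → ℝ) (m j : Fin k) : Co S k → ℝ :=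
  ytr aF (rst j (lam aF (ym R F m)))

/-- the diagonal variables of the extension used for the pair (m, j) -/
noncomputable def yE (R s : ℝ) (F : (Fin k → ℝ) → ℝ) (m j : Fin k) : Co S k → ℝ :=
  yex j (R ^ (1 - s)) (rst j (lam aF (ym R F m)))

/-- weighted sum over the progression with both n + h m and n + h j prime -/
noncomputable def S2P (w : ℝ → ℝ) (h : Fin k → ℕ) (D0 v0 : ℕ) (x : ℝ) (m j : Fin k)
    (l : Co S k → ℝ) : ℝ :=
  ∑ n ∈ (range (⌊2 * x⌋₊ + 1)).filter (fun n => n ≡ v0 [MOD primorial D0]),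
    tm w h x m n * ((if (n + h j).Prime then 1 else 0) * Vn h l n ^ 2)

end

/-- the pair bound -/
def PairConcl (w : ℝ → ℝ) {k : ℕ} (h : Fin k → ℕ) (s : ℝ) (F : (Fin k → ℝ) → ℝ) : Prop :=
  ∀ δ : ℝ, 0 < δ → δ < 1 / 8 → ∀ ε : ℝ, 0 < ε → Ev fun D0 x => ∀ v0 : ℕ,
  (∀ i, (v0 + h i).Coprime (primorial D0)) → ∀ m j : Fin k, m ≠ j → ∀ l : Co (Sx D0 x) k → ℝ,
  l = lam aP (yF (Rx δ x) F) →
  S2P w h D0 v0 x m j l ≤ Nn w k D0 δ x * (GG F m j / (1 - s) + ε)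

/-- the first moment -/
def LowConcl (w : ℝ → ℝ) {k : ℕ} (h : Fin k → ℕ) (F : (Fin k → ℝ) → ℝ) : Prop :=
  ∀ ε : ℝ, 0 < ε → ∃ δ1 : ℝ, 0 < δ1 ∧ δ1 < 1 / 8 ∧ ∀ δ : ℝ, 0 < δ → δ ≤ δ1 → Ev fun D0 x =>
  ∀ v0 : ℕ, (∀ i, (v0 + h i).Coprime (primorial D0)) → ∀ m : Fin k, ∀ l : Co (Sx D0 x) k → ℝ,
  l = lam aP (yF (Rx δ x) F) →
  Nn w k D0 δ x * (JJ F m - ε) ≤ S2 w h D0 v0 x m l l

/-- INTERFACE 1 (final output of the sieve part, used by everybody). `E` is a set of allowed pairs.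
If the second moment inequality fails for `E`, then in every class `v0` modulo the primorial
(coprime with the translates) there is `n` with two primes whose indices are not an allowed pair. -/
def SEC : Prop := BVE → PNTW → ∀ (k : ℕ) (h : Fin k → ℕ), Function.Injective h →
  ∀ (s μ : ℝ) (F : (Fin k → ℝ) → ℝ), 0 < s → s < 1 → Tst k s F →
  ∀ E : Fin k → Fin k → Prop,
  (∑ m, ∑ j, if m ≠ j ∧ E m j then GG F m j / (1 - s) else 0) + 4 * μ ^ 2 * ∫ t, F t ^ 2 <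
    (2 * μ - 1) * ∑ m, JJ F m →
  Ev fun D0 x => ∀ v0 : ℕ, (∀ i, (v0 + h i).Coprime (primorial D0)) →
    ∃ n : ℕ, n ≡ v0 [MOD primorial D0] ∧ x < n ∧ (∀ i, (n + h i : ℝ) < 2 * x) ∧
      ∃ m j : Fin k, m ≠ j ∧ ¬ E m j ∧ (n + h m).Prime ∧ (n + h j).Prime

/-- INTERFACE 2 (the function, helper97): for k large there is a function with second moment ratio
near to one quarter -/
def FUN : Prop := ∀ η : ℝ, 0 < η → ∃ K0 : ℕ, ∀ k ≥ K0, ∃ (s μ I J A : ℝ) (F : (Fin k → ℝ) → ℝ),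
  0 < s ∧ s < 1 ∧ 1 / 2 ≤ μ ∧ 0 < A ∧ Tst k s F ∧ (∫ t, F t ^ 2) ≤ I ∧ (∀ m, J ≤ JJ F m) ∧
  (∀ m j, m ≠ j → GG F m j ≤ A) ∧
  (1 / 4 - η) * (k : ℝ) ^ 2 * (A / (1 - s)) + 4 * μ ^ 2 * I < (2 * μ - 1) * (k * J)

/-- THEOREM Q, first form: a quarter of all ordered pairs are both prime -/
def QuarterPairs : Prop := ∀ ε : ℝ, 0 < ε → ∃ K : ℕ, ∀ k ≥ K, ∀ h : Fin k → ℕ, Adm h →
  ∃ x0 : ℕ, ∀ x ≥ x0, (1 / 4 - ε) * (k : ℝ) ^ 2 ≤
    ((univ.filter (fun ij : Fin k × Fin k => ij.1 ≠ ij.2 ∧ ∃ n : ℕ, x < n ∧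
      (∀ i, n + h i < 2 * x) ∧ (n + h ij.1).Prime ∧ (n + h ij.2).Prime)).card : ℝ)

end MPb51559.BG.Q
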