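import Pool.Agent.Work.MP_b51559_nt.BG.Q.Defs
import Pool.Agent.Work.MP_b51559_nt.BG.C.MG

/-!
# Block BG/Q, interface 2: the function

`F t = ∏ g (t i)` on the simplex of size `s`, `g u = 1 / (a + u)` on `[0, s / 2]`.
-/

set_option autoImplicit false

namespace MPb51559.BG.Q.XFUN

open Finset Filter Topology MeasureTheory
open scoped Classical

/-! ### One dimensional functions -/

/-- cut to the interval `[0, b]` -/
noncomputable def ct (b : ℝ) (f : ℝ → ℝ) (u : ℝ) : ℝ := if 0 ≤ u ∧ u ≤ b then f u else 0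

theorem ct_eq (b : ℝ) (f : ℝ → ℝ) : ct b f = (Set.Icc 0 b).indicator f := by
  funext u
  simp only [ct, Set.indicator, Set.mem_Icc]

theorem ct_int {b : ℝ} {f : ℝ → ℝ} (hf : ContinuousOn f (Set.Icc 0 b)) : Integrable (ct b f) := by
  rw [ct_eq, integrable_indicator_iff measurableSet_Icc]
  exact hf.integrableOn_Icc

theorem ct_val {b : ℝ} (hb : 0 ≤ b) {f G : ℝ → ℝ} (hf : ContinuousOn f (Set.Icc 0 b))
    (hG : ∀ u ∈ Set.Icc 0 b, HasDerivAt G (f u) u) : ∫ u, ct b f u = G b - G 0 := by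
  rw [ct_eq, integral_indicator measurableSet_Icc, integral_Icc_eq_integral_Ioc,
    ← intervalIntegral.integral_of_le hb]
  refine intervalIntegral.integral_eq_sub_of_hasDerivAt ?_ ?_
  · intro u hu
    rw [Set.uIcc_of_le hb] at hu
    exact hG u hu
  · refine ContinuousOn.intervalIntegrable ?_
    rwa [Set.uIcc_of_le hb]

/-- the function of one variable -/
noncomputable def g (a b : ℝ) : ℝ → ℝ := ct b (fun u => 1 / (a + u))

section
variable {a b : ℝ} (ha : 0 < a) (hb : 0 < b)
include ha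

theorem g_nonneg (u : ℝ) : 0 ≤ g a b u := by
  unfold g ct
  split_ifs with h
  · have : 0 < a + u := by linarith [h.1]
    positivity
  · exact le_rfl

theorem g_le (u : ℝ) : g a b u ≤ 1 / a := by
  unfold g ct
  split_ifs with h
  · exact one_div_le_one_div_of_le ha (by linarith [h.1])
  · positivity

theorem g_cont : ContinuousOn (fun u : ℝ => 1 / (a + u)) (Set.Icc 0 b) := by
  refine ContinuousOn.div continuousOn_const (by fun_prop) ?_
  intro u hu
  have : 0 < a + u := by linarith [hu.1]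
  exact this.ne'

omit ha in
theorem g_meas : Measurable (g a b) := by
  unfold g
  rw [ct_eq]
  exact Measurable.indicator (by fun_prop) measurableSet_Icc

theorem g_int : Integrable (g a b) := ct_int (g_cont ha)

omit ha in
theorem g_sq (u : ℝ) : g a b u ^ 2 = ct b (fun u => 1 / (a + u) ^ 2) u := by
  unfold g ct
  split_ifs with h
  · rw [div_pow, one_pow]
  · simp

omit ha in
theorem g_sqt (u : ℝ) : u * g a b u ^ 2 = ct b (fun u => u / (a + u) ^ 2) u := by
  unfold g ct
  split_ifs with h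
  · rw [div_pow, one_pow]; ring
  · simp

theorem gsq_cont : ContinuousOn (fun u : ℝ => 1 / (a + u) ^ 2) (Set.Icc 0 b) := by
  refine ContinuousOn.div continuousOn_const (by fun_prop) ?_
  intro u hu
  have : 0 < a + u := by linarith [hu.1]
  positivity

theorem gsqt_cont : ContinuousOn (fun u : ℝ => u / (a + u) ^ 2) (Set.Icc 0 b) := by
  refine ContinuousOn.div continuousOn_id (by fun_prop) ?_
  intro u hu
  have : 0 < a + u := by linarith [hu.1]
  positivity

theorem gsq_int : Integrable (fun u => g a b u ^ 2) := by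
  have h : (fun u => g a b u ^ 2) = ct b (fun u => 1 / (a + u) ^ 2) := funext g_sq
  rw [h]
  exact ct_int (gsq_cont ha)

theorem gsqt_int : Integrable (fun u => u * g a b u ^ 2) := by
  have h : (fun u => u * g a b u ^ 2) = ct b (fun u => u / (a + u) ^ 2) := funext g_sqt
  rw [h]
  exact ct_int (gsqt_cont ha)

/-- the integral of `g` -/
theorem g_val (hb : 0 ≤ b) : ∫ u, g a b u = Real.log (1 + b / a) := by
  have h : ∫ u, g a b u = Real.log (a + b) - Real.log (a + 0) := by
    refine ct_val hb (g_cont ha) (G := fun u => Real.log (a + u)) fun u hu => ?_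
    have h1 : 0 < a + u := by linarith [hu.1]
    have h2 : HasDerivAt (fun u : ℝ => a + u) 1 u := by
      simpa using (hasDerivAt_id u).const_add a
    exact h2.log h1.ne'
  rw [h, add_zero, ← Real.log_div (by linarith) (by linarith)]
  congr 1
  field_simp

theorem gsq_val (hb : 0 ≤ b) : ∫ u, g a b u ^ 2 = b / (a * (a + b)) := by
  have h0 : (fun u => g a b u ^ 2) = ct b (fun u => 1 / (a + u) ^ 2) := funext g_sq
  have h : ∫ u, g a b u ^ 2 = -(a + b)⁻¹ - -(a + 0)⁻¹ := by
    rw [h0]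
    refine ct_val hb (gsq_cont ha) (G := fun u => -(a + u)⁻¹) fun u hu => ?_
    have h1 : 0 < a + u := by linarith [hu.1]
    have h2 : HasDerivAt (fun u : ℝ => a + u) 1 u := by
      simpa using (hasDerivAt_id u).const_add a
    have h3 := (h2.inv h1.ne').neg
    have h4 : -(-1 / (a + u) ^ 2) = 1 / (a + u) ^ 2 := by ring
    rw [h4] at h3
    exact h3
  rw [h, add_zero]
  have h1 : 0 < a + b := by linarith
  field_simp
  ring

theorem gsqt_le : ∫ u, u * g a b u ^ 2 ≤ ∫ u, g a b u := by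
  refine integral_mono (gsqt_int ha) (g_int ha) fun u => ?_
  show u * g a b u ^ 2 ≤ g a b u
  unfold g ct
  split_ifs with h
  · have h1 : 0 < a + u := by linarith [h.1]
    rw [div_pow, one_pow, ← mul_div_assoc, mul_one, div_le_div_iff₀ (by positivity) h1]
    nlinarith [h.1]
  · simp

end

/-- indicator of `[0, 1)` -/
noncomputable def chi (u : ℝ) : ℝ := if 0 ≤ u ∧ u < 1 then 1 else 0

theorem chi_eq : chi = (Set.Ico (0 : ℝ) 1).indicator (fun _ => (1 : ℝ)) := by
  funext u
  simp only [chi, Set.indicator, Set.mem_Ico]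

theorem chi_int : Integrable chi := by
  rw [chi_eq, integrable_indicator_iff measurableSet_Ico]
  exact integrableOn_const (by simp) (by simp)

theorem chi_val : ∫ u, chi u = 1 := by
  rw [chi_eq, integral_indicator measurableSet_Ico]
  simp

theorem chi_nonneg (u : ℝ) : 0 ≤ chi u := by
  unfold chi
  split_ifs <;> norm_num

/-! ### Variation -/

theorem var_mono {f : ℝ → ℝ} {s : Set ℝ} {M : ℝ} (hf : MonotoneOn f s)
    (h0 : ∀ u ∈ s, 0 ≤ f u) (h1 : ∀ u ∈ s, f u ≤ M) : eVariationOn f s ≤ ENNReal.ofReal M := by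
  refine iSup_le ?_
  rintro ⟨n, u, hu, hus⟩
  have h2 : ∀ i, edist (f (u (i + 1))) (f (u i)) = ENNReal.ofReal (f (u (i + 1)) - f (u i)) := by
    intro i
    rw [edist_dist, Real.dist_eq, abs_of_nonneg]
    exact sub_nonneg.mpr (hf (hus i) (hus (i + 1)) (hu (Nat.le_succ i)))
  simp only [h2]
  rw [← ENNReal.ofReal_sum_of_nonneg
    (fun i _ => sub_nonneg.mpr (hf (hus i) (hus (i + 1)) (hu (Nat.le_succ i))))]
  refine ENNReal.ofReal_le_ofReal ?_
  rw [Finset.sum_range_sub (fun i => f (u i))]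
  linarith [h0 _ (hus 0), h1 _ (hus n)]

theorem var_anti {f : ℝ → ℝ} {s : Set ℝ} {M : ℝ} (hf : AntitoneOn f s)
    (h0 : ∀ u ∈ s, 0 ≤ f u) (h1 : ∀ u ∈ s, f u ≤ M) : eVariationOn f s ≤ ENNReal.ofReal M := by
  refine iSup_le ?_
  rintro ⟨n, u, hu, hus⟩
  have h2 : ∀ i, edist (f (u (i + 1))) (f (u i)) = ENNReal.ofReal (f (u i) - f (u (i + 1))) := by
    intro i
    rw [edist_comm, edist_dist, Real.dist_eq, abs_of_nonneg]
    exact sub_nonneg.mpr (hf (hus i) (hus (i + 1)) (hu (Nat.le_succ i)))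
  simp only [h2]
  rw [← ENNReal.ofReal_sum_of_nonneg
    (fun i _ => sub_nonneg.mpr (hf (hus i) (hus (i + 1)) (hu (Nat.le_succ i))))]
  refine ENNReal.ofReal_le_ofReal ?_
  rw [Finset.sum_range_sub' (fun i => f (u i))]
  linarith [h1 _ (hus 0), h0 _ (hus n)]

/-- a function which is zero to the left of `0` and decreasing, nonnegative, to the right -/
theorem var_cut {f : ℝ → ℝ} {M : ℝ} (hneg : ∀ u, u < 0 → f u = 0)
    (hf : AntitoneOn f (Set.Ici 0)) (h0 : ∀ u, 0 ≤ f u) (h1 : ∀ u, f u ≤ M) :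
    eVariationOn f Set.univ ≤ ENNReal.ofReal M + ENNReal.ofReal M := by
  have h : (Set.univ : Set ℝ) = Set.Iic 0 ∪ Set.Ici 0 := by
    ext u
    simp
  rw [h, eVariationOn.union f (x := 0) isGreatest_Iic isLeast_Ici]
  refine add_le_add (var_mono ?_ (fun u _ => h0 u) (fun u _ => h1 u))
    (var_anti hf (fun u _ => h0 u) (fun u _ => h1 u))
  intro u _ v hv huv
  rcases lt_or_eq_of_le (show v ≤ 0 from hv) with hv' | hv'
  · rw [hneg u (lt_of_le_of_lt huv hv'), hneg v hv']
  · rcases lt_or_eq_of_le (huv.trans hv) with hu' | hu'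
    · rw [hneg u hu']
      exact h0 v
    · rw [hu', hv']

/-! ### The function -/

/-- the test function -/
noncomputable def FF (a b s : ℝ) (k : ℕ) (t : Fin k → ℝ) : ℝ :=
  if ∑ i, t i ≤ s then ∏ i, g a b (t i) else 0

section
variable {a b s : ℝ} {k : ℕ}

theorem upd_prod (m : Fin k) (f : ℝ → ℝ) (t : Fin k → ℝ) (u : ℝ) :
    ∏ i, f (Function.update t m u i) = f u * ∏ i ∈ univ.erase m, f (t i) := by
  rw [← Finset.mul_prod_erase univ _ (Finset.mem_univ m)]
  congr 1
  · simp
  · refine Finset.prod_congr rfl fun j hj => ?_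
    rw [Function.update_of_ne (Finset.ne_of_mem_erase hj)]

theorem upd_sum (m : Fin k) (t : Fin k → ℝ) (u : ℝ) :
    ∑ i, Function.update t m u i = u + ∑ i ∈ univ.erase m, t i := by
  rw [← Finset.add_sum_erase univ _ (Finset.mem_univ m)]
  congr 1
  · simp
  · refine Finset.sum_congr rfl fun j hj => ?_
    rw [Function.update_of_ne (Finset.ne_of_mem_erase hj)]

theorem FF_nonneg (ha : 0 < a) (t : Fin k → ℝ) : 0 ≤ FF a b s k t := by
  unfold FF
  split_ifs
  · exact Finset.prod_nonneg fun i _ => g_nonneg ha _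
  · exact le_rfl

theorem FF_le (ha : 0 < a) (t : Fin k → ℝ) : FF a b s k t ≤ ∏ i, g a b (t i) := by
  unfold FF
  split_ifs
  · exact le_rfl
  · exact Finset.prod_nonneg fun i _ => g_nonneg ha _

theorem prod_g_le (ha : 0 < a) (S : Finset (Fin k)) (t : Fin k → ℝ) :
    ∏ i ∈ S, g a b (t i) ≤ (1 / a) ^ S.card := by
  rw [← Finset.prod_const]
  exact Finset.prod_le_prod (fun i _ => g_nonneg ha _) (fun i _ => g_le ha _)

theorem FF_meas : Measurable (FF a b s k) := by
  unfold FF
  refine Measurable.ite ?_ ?_ measurable_const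
  · exact measurableSet_le (by fun_prop) measurable_const
  · exact Finset.measurable_prod _ fun i _ => g_meas.comp (measurable_pi_apply i)

theorem FF_upd (m : Fin k) (t : Fin k → ℝ) (u : ℝ) : FF a b s k (Function.update t m u) =
    if u + ∑ i ∈ univ.erase m, t i ≤ s then g a b u * ∏ i ∈ univ.erase m, g a b (t i) else 0 := by
  unfold FF
  rw [upd_sum, upd_prod]

theorem FF_tst (ha : 0 < a) : Tst k s (FF a b s k) where
  meas := FF_meas
  supp := by
    intro t ht
    unfold FF at ht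
    split_ifs at ht with h
    · refine ⟨fun i => ?_, h⟩
      by_contra hi
      refine ht (Finset.prod_eq_zero (Finset.mem_univ i) ?_)
      unfold g ct
      rw [if_neg fun h' => hi h'.1]
    · exact absurd rfl ht
  bdd := by
    refine ⟨(1 / a) ^ k, fun t => ?_⟩
    rw [abs_of_nonneg (FF_nonneg ha t)]
    refine (FF_le ha t).trans ((prod_g_le ha univ t).trans ?_)
    simp
  bv := by
    refine ⟨(ENNReal.ofReal ((1 / a) ^ k) + ENNReal.ofReal ((1 / a) ^ k)).toNNReal,
      fun t i => ?_⟩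
    rw [ENNReal.coe_toNNReal (by simp)]
    refine var_cut ?_ ?_ (fun u => FF_nonneg ha _) ?_
    · intro u hu
      rw [FF_upd]
      have : g a b u = 0 := by
        unfold g ct
        rw [if_neg fun h' => absurd h'.1 (not_le.mpr hu)]
      rw [this, zero_mul, ite_self]
    · intro u hu v hv huv
      show FF a b s k (Function.update t i v) ≤ FF a b s k (Function.update t i u)
      rw [FF_upd, FF_upd]
      have hp : 0 ≤ ∏ i ∈ univ.erase i, g a b (t i) := Finset.prod_nonneg fun i _ => g_nonneg ha _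
      by_cases h : v + ∑ j ∈ univ.erase i, t j ≤ s
      · rw [if_pos h, if_pos (by linarith)]
        refine mul_le_mul_of_nonneg_right ?_ hp
        unfold g ct
        by_cases hvb : v ≤ b
        · rw [if_pos ⟨hv, hvb⟩, if_pos ⟨hu, huv.trans hvb⟩]
          have : 0 < a + u := by
            have : (0 : ℝ) ≤ u := hu
            linarith
          exact one_div_le_one_div_of_le this (by linarith)
        · rw [if_neg fun h' => hvb h'.2]
          split_ifs with h2
          · have : 0 < a + u := by linarith [h2.1]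
            positivity
          · exact le_rfl
      · rw [if_neg h]
        split_ifs
        · exact mul_nonneg (g_nonneg ha _) hp
        · exact le_rfl
    · intro u
      show FF a b s k (Function.update t i u) ≤ (1 / a) ^ k
      refine (FF_le ha _).trans ((prod_g_le ha univ _).trans ?_)
      simp

/-! ### Upper bounds for the marginals -/

theorem marg_nonneg (ha : 0 < a) (m : Fin k) (t : Fin k → ℝ) : 0 ≤ marg (FF a b s k) m t :=
  integral_nonneg fun _ => FF_nonneg ha _

theorem marg_le (ha : 0 < a) (m : Fin k) (t : Fin k → ℝ) :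
    marg (FF a b s k) m t ≤ (∫ u, g a b u) * ∏ i ∈ univ.erase m, g a b (t i) := by
  unfold marg
  rw [← integral_mul_const]
  refine integral_mono_of_nonneg (Eventually.of_forall fun u => FF_nonneg ha _)
    ((g_int ha).mul_const _) (Eventually.of_forall fun u => ?_)
  show FF a b s k (Function.update t m u) ≤ g a b u * ∏ i ∈ univ.erase m, g a b (t i)
  refine (FF_le ha _).trans ?_
  rw [upd_prod]

theorem marg2_nonneg (ha : 0 < a) (m j : Fin k) (t : Fin k → ℝ) :
    0 ≤ marg (marg (FF a b s k) m) j t :=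
  integral_nonneg fun _ => marg_nonneg ha m _

theorem marg2_le (ha : 0 < a) (m j : Fin k) (hmj : m ≠ j) (t : Fin k → ℝ) :
    marg (marg (FF a b s k) m) j t ≤
      (∫ u, g a b u) ^ 2 * ∏ i ∈ (univ.erase m).erase j, g a b (t i) := by
  have hjm : j ∈ univ.erase m := Finset.mem_erase.mpr ⟨hmj.symm, Finset.mem_univ j⟩
  have h1 : ∀ v, ∏ i ∈ univ.erase m, g a b (Function.update t j v i) =
      g a b v * ∏ i ∈ (univ.erase m).erase j, g a b (t i) := by
    intro v
    rw [← Finset.mul_prod_erase _ _ hjm]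
    congr 1
    · simp
    · refine Finset.prod_congr rfl fun i hi => ?_
      rw [Function.update_of_ne (Finset.ne_of_mem_erase hi)]
  have h2 : (∫ u, g a b u) ^ 2 * ∏ i ∈ (univ.erase m).erase j, g a b (t i) =
      ∫ v, (∫ u, g a b u) * (g a b v * ∏ i ∈ (univ.erase m).erase j, g a b (t i)) := by
    rw [integral_const_mul, integral_mul_const]
    ring
  rw [h2]
  show ∫ v, marg (FF a b s k) m (Function.update t j v) ≤ _
  refine integral_mono_of_nonneg (Eventually.of_forall fun v => marg_nonneg ha m _)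
    (((g_int ha).mul_const _).const_mul _) (Eventually.of_forall fun v => ?_)
  show marg (FF a b s k) m (Function.update t j v) ≤ _
  refine (marg_le ha m _).trans ?_
  rw [h1]

/-- integral of a product -/
theorem int_prod (φ : Fin k → ℝ → ℝ) : ∫ t : Fin k → ℝ, ∏ i, φ i (t i) = ∏ i, ∫ u, φ i u :=
  integral_fintype_prod_volume_eq_prod φ

theorem int_prod_int (φ : Fin k → ℝ → ℝ) (h : ∀ i, Integrable (φ i)) :
    Integrable (fun t : Fin k → ℝ => ∏ i, φ i (t i)) :=
  Integrable.fintype_prod h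

theorem F_sq (ha : 0 < a) :
    ∫ t, FF a b s k t ^ 2 ≤ (∫ u, g a b u ^ 2) ^ k := by
  have h1 : (∫ u, g a b u ^ 2) ^ k = ∫ t : Fin k → ℝ, ∏ i, (fun u => g a b u ^ 2) (t i) := by
    rw [int_prod (fun _ => fun u => g a b u ^ 2)]
    simp
  rw [h1]
  refine integral_mono_of_nonneg (Eventually.of_forall fun t => sq_nonneg _)
    (int_prod_int (fun _ => fun u => g a b u ^ 2) fun _ => gsq_int ha)
    (Eventually.of_forall fun t => ?_)
  show FF a b s k t ^ 2 ≤ ∏ i, g a b (t i) ^ 2
  rw [Finset.prod_pow]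
  exact pow_le_pow_left₀ (FF_nonneg ha t) (FF_le ha t) 2

/-- the factors for the double marginal -/
noncomputable def ph2 (a b : ℝ) (m j : Fin k) (i : Fin k) : ℝ → ℝ :=
  if i = m ∨ i = j then chi else fun u => g a b u ^ 2

theorem ph2_int (ha : 0 < a) (m j i : Fin k) : Integrable (ph2 a b m j i) := by
  unfold ph2
  split_ifs
  · exact chi_int
  · exact gsq_int ha

theorem ph2_prod (m j : Fin k) (hmj : m ≠ j) (t : Fin k → ℝ) :
    ∏ i, ph2 a b m j i (t i) =
      chi (t m) * (chi (t j) * ∏ i ∈ (univ.erase m).erase j, g a b (t i) ^ 2) := by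
  have hjm : j ∈ univ.erase m := Finset.mem_erase.mpr ⟨hmj.symm, Finset.mem_univ j⟩
  rw [← Finset.mul_prod_erase univ _ (Finset.mem_univ m), ← Finset.mul_prod_erase _ _ hjm]
  congr 1
  · simp [ph2]
  · congr 1
    · simp [ph2]
    · refine Finset.prod_congr rfl fun i hi => ?_
      have h1 : i ≠ j := Finset.ne_of_mem_erase hi
      have h2 : i ≠ m := Finset.ne_of_mem_erase (Finset.mem_of_mem_erase hi)
      simp [ph2, h1, h2]

theorem ph2_val (m j : Fin k) (hmj : m ≠ j) :
    ∏ i, ∫ u, ph2 a b m j i u = (∫ u, g a b u ^ 2) ^ (k - 2) := by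
  have hjm : j ∈ univ.erase m := Finset.mem_erase.mpr ⟨hmj.symm, Finset.mem_univ j⟩
  rw [← Finset.mul_prod_erase univ _ (Finset.mem_univ m), ← Finset.mul_prod_erase _ _ hjm]
  have e1 : ∫ u, ph2 a b m j m u = 1 := by simp [ph2, chi_val]
  have e2 : ∫ u, ph2 a b m j j u = 1 := by simp [ph2, chi_val]
  rw [e1, e2, one_mul, one_mul]
  have e3 : ∀ i ∈ (univ.erase m).erase j, ∫ u, ph2 a b m j i u = ∫ u, g a b u ^ 2 := by
    intro i hi
    have h1 : i ≠ j := Finset.ne_of_mem_erase hi
    have h2 : i ≠ m := Finset.ne_of_mem_erase (Finset.mem_of_mem_erase hi)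
    simp [ph2, h1, h2]
  rw [Finset.prod_congr rfl e3, Finset.prod_const, Finset.card_erase_of_mem hjm,
    Finset.card_erase_of_mem (Finset.mem_univ m), Finset.card_univ, Fintype.card_fin]
  rfl

theorem GG_le (ha : 0 < a) (m j : Fin k) (hmj : m ≠ j) :
    GG (FF a b s k) m j ≤ (∫ u, g a b u) ^ 4 * (∫ u, g a b u ^ 2) ^ (k - 2) := by
  unfold GG
  rw [← ph2_val m j hmj, ← int_prod, ← integral_const_mul]
  have hnn : ∀ t : Fin k → ℝ, 0 ≤ cutm j (cutm m fun t => marg (marg (FF a b s k) m) j t ^ 2) t := by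
    intro t
    unfold cutm
    split_ifs <;> first | exact sq_nonneg _ | exact le_rfl
  refine integral_mono_of_nonneg (Eventually.of_forall hnn)
    ((int_prod_int _ fun i => ph2_int ha m j i).const_mul _) (Eventually.of_forall fun t => ?_)
  show cutm j (cutm m fun t => marg (marg (FF a b s k) m) j t ^ 2) t ≤
    (∫ u, g a b u) ^ 4 * ∏ i, ph2 a b m j i (t i)
  rw [ph2_prod m j hmj]
  have hp : 0 ≤ ∏ i ∈ (univ.erase m).erase j, g a b (t i) ^ 2 :=
    Finset.prod_nonneg fun i _ => sq_nonneg _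
  by_cases hm : 0 ≤ t m ∧ t m < 1
  · by_cases hj : 0 ≤ t j ∧ t j < 1
    · have e1 : cutm j (cutm m fun t => marg (marg (FF a b s k) m) j t ^ 2) t =
          marg (marg (FF a b s k) m) j t ^ 2 := by
        unfold cutm
        rw [if_pos hj, if_pos hm]
      have e2 : chi (t m) = 1 := if_pos hm
      have e3 : chi (t j) = 1 := if_pos hj
      rw [e1, e2, e3, one_mul, one_mul, Finset.prod_pow]
      have h := pow_le_pow_left₀ (marg2_nonneg ha m j t) (marg2_le (b := b) (s := s) ha m j hmj t) 2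
      refine h.trans (le_of_eq ?_)
      ring
    · have e1 : cutm j (cutm m fun t => marg (marg (FF a b s k) m) j t ^ 2) t = 0 := if_neg hj
      rw [e1]
      exact mul_nonneg (by positivity)
        (mul_nonneg (chi_nonneg _) (mul_nonneg (chi_nonneg _) hp))
  · have e1 : cutm j (cutm m fun t => marg (marg (FF a b s k) m) j t ^ 2) t = 0 := by
      unfold cutm
      split_ifs
      · rfl
      · rfl
    rw [e1]
    exact mul_nonneg (by positivity)
      (mul_nonneg (chi_nonneg _) (mul_nonneg (chi_nonneg _) hp))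

/-! ### Lower bound for the norm of the marginal -/

theorem marg_eq (hs : s = 2 * b) (m : Fin k) (t : Fin k → ℝ)
    (ht : ∑ i ∈ univ.erase m, t i ≤ b) :
    marg (FF a b s k) m t = (∫ u, g a b u) * ∏ i ∈ univ.erase m, g a b (t i) := by
  unfold marg
  rw [← integral_mul_const]
  refine integral_congr_ae (Eventually.of_forall fun u => ?_)
  show FF a b s k (Function.update t m u) = g a b u * ∏ i ∈ univ.erase m, g a b (t i)
  rw [FF_upd]
  split_ifs with h
  · rfl
  · have : g a b u = 0 := by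
      unfold g ct
      rw [if_neg fun h' => h ?_]
      linarith [h'.2]
    rw [this, zero_mul]

/-- the factors for the first moment: `l = m` means no linear factor -/
noncomputable def ph1 (a b : ℝ) (m l : Fin k) (i : Fin k) : ℝ → ℝ :=
  if i = m then chi else if i = l then fun u => u * g a b u ^ 2 else fun u => g a b u ^ 2

theorem ph1_int (ha : 0 < a) (m l i : Fin k) : Integrable (ph1 a b m l i) := by
  unfold ph1
  split_ifs
  · exact chi_int
  · exact gsqt_int ha
  · exact gsq_int ha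

theorem ph1_prod0 (m : Fin k) (t : Fin k → ℝ) :
    ∏ i, ph1 a b m m i (t i) = chi (t m) * ∏ i ∈ univ.erase m, g a b (t i) ^ 2 := by
  rw [← Finset.mul_prod_erase univ _ (Finset.mem_univ m)]
  congr 1
  · simp [ph1]
  · refine Finset.prod_congr rfl fun i hi => ?_
    have h1 : i ≠ m := Finset.ne_of_mem_erase hi
    simp [ph1, h1]

theorem ph1_prod (m l : Fin k) (hl : l ≠ m) (t : Fin k → ℝ) :
    ∏ i, ph1 a b m l i (t i) = chi (t m) * (t l * ∏ i ∈ univ.erase m, g a b (t i) ^ 2) := by
  have hlm : l ∈ univ.erase m := Finset.mem_erase.mpr ⟨hl, Finset.mem_univ l⟩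
  rw [← Finset.mul_prod_erase univ _ (Finset.mem_univ m)]
  congr 1
  · simp [ph1]
  · rw [← Finset.mul_prod_erase _ _ hlm, ← Finset.mul_prod_erase _ _ hlm, ← mul_assoc]
    congr 1
    · simp [ph1, hl]
    · refine Finset.prod_congr rfl fun i hi => ?_
      have h1 : i ≠ l := Finset.ne_of_mem_erase hi
      have h2 : i ≠ m := Finset.ne_of_mem_erase (Finset.mem_of_mem_erase hi)
      simp [ph1, h1, h2]

theorem ph1_val0 (m : Fin k) :
    ∏ i, ∫ u, ph1 a b m m i u = (∫ u, g a b u ^ 2) ^ (k - 1) := by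
  rw [← Finset.mul_prod_erase univ _ (Finset.mem_univ m)]
  have e1 : ∫ u, ph1 a b m m m u = 1 := by simp [ph1, chi_val]
  rw [e1, one_mul]
  have e3 : ∀ i ∈ univ.erase m, ∫ u, ph1 a b m m i u = ∫ u, g a b u ^ 2 := by
    intro i hi
    have h1 : i ≠ m := Finset.ne_of_mem_erase hi
    simp [ph1, h1]
  rw [Finset.prod_congr rfl e3, Finset.prod_const,
    Finset.card_erase_of_mem (Finset.mem_univ m), Finset.card_univ, Fintype.card_fin]

theorem ph1_val (m l : Fin k) (hl : l ≠ m) :
    ∏ i, ∫ u, ph1 a b m l i u = (∫ u, u * g a b u ^ 2) * (∫ u, g a b u ^ 2) ^ (k - 2) := by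
  have hlm : l ∈ univ.erase m := Finset.mem_erase.mpr ⟨hl, Finset.mem_univ l⟩
  rw [← Finset.mul_prod_erase univ _ (Finset.mem_univ m), ← Finset.mul_prod_erase _ _ hlm]
  have e1 : ∫ u, ph1 a b m l m u = 1 := by simp [ph1, chi_val]
  have e2 : ∫ u, ph1 a b m l l u = ∫ u, u * g a b u ^ 2 := by simp [ph1, hl]
  rw [e1, e2, one_mul]
  have e3 : ∀ i ∈ (univ.erase m).erase l, ∫ u, ph1 a b m l i u = ∫ u, g a b u ^ 2 := by
    intro i hi
    have h1 : i ≠ l := Finset.ne_of_mem_erase hi
    have h2 : i ≠ m := Finset.ne_of_mem_erase (Finset.mem_of_mem_erase hi)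
    simp [ph1, h1, h2]
  rw [Finset.prod_congr rfl e3, Finset.prod_const, Finset.card_erase_of_mem hlm,
    Finset.card_erase_of_mem (Finset.mem_univ m), Finset.card_univ, Fintype.card_fin]
  rfl

theorem JJ_int (ha : 0 < a) (hs : 0 < s) (m : Fin k) :
    Integrable (cutm m (fun t => marg (FF a b s k) m t ^ 2)) := by
  obtain ⟨M, V, hM0, h⟩ := prf_MG k s (FF a b s k) hs (FF_tst ha)
  obtain ⟨hmeas, hM, -, hsup, -⟩ := h m
  set R : ℝ := max s 1
  have hbox : MeasurableSet (Set.univ.pi fun _ : Fin k => Set.Icc (0 : ℝ) R) :=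
    MeasurableSet.univ_pi fun _ => measurableSet_Icc
  have hfin : volume (Set.univ.pi fun _ : Fin k => Set.Icc (0 : ℝ) R) ≠ ⊤ := by
    rw [MeasureTheory.volume_pi_pi]
    exact (ENNReal.prod_lt_top fun i _ => by simp).ne
  have hz : ∀ t, t ∉ (Set.univ.pi fun _ : Fin k => Set.Icc (0 : ℝ) R) →
      cutm m (fun t => marg (FF a b s k) m t ^ 2) t = 0 := by
    intro t ht
    by_contra hne
    unfold cutm at hne
    split_ifs at hne with hc
    · have h1 : marg (FF a b s k) m t ≠ 0 := fun h0 => hne (by simp [h0])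
      obtain ⟨h2, h3⟩ := hsup t h1
      refine ht ?_
      rw [Set.mem_univ_pi]
      intro i
      by_cases hi : i = m
      · subst hi
        exact ⟨hc.1, hc.2.le.trans (le_max_right _ _)⟩
      · refine ⟨h2 i hi, ?_⟩
        have h4 : t i ≤ ∑ j ∈ univ.erase m, t j :=
          Finset.single_le_sum (f := fun j => t j)
            (fun j hj => h2 j (Finset.ne_of_mem_erase hj))
            (Finset.mem_erase.mpr ⟨hi, Finset.mem_univ i⟩)
        exact (h4.trans h3).trans (le_max_left _ _)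
    · exact hne rfl
  have hme : Measurable (cutm m (fun t => marg (FF a b s k) m t ^ 2)) := by
    unfold cutm
    refine Measurable.ite ?_ (hmeas.pow_const 2) measurable_const
    exact (measurableSet_le measurable_const (measurable_pi_apply m)).inter
      (measurableSet_lt (measurable_pi_apply m) measurable_const)
  have hon : IntegrableOn (cutm m (fun t => marg (FF a b s k) m t ^ 2))
      (Set.univ.pi fun _ : Fin k => Set.Icc (0 : ℝ) R) := by
    refine Measure.integrableOn_of_bounded (M := M ^ 2) hfin hme.aestronglyMeasurable ?_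
    refine Eventually.of_forall fun t => ?_
    unfold cutm
    split_ifs
    · show ‖marg (FF a b s k) m t ^ 2‖ ≤ M ^ 2
      rw [Real.norm_eq_abs, abs_pow]
      exact pow_le_pow_left₀ (abs_nonneg _) (hM t) 2
    · simp only [norm_zero]
      positivity
  exact hon.integrable_of_forall_notMem_eq_zero hz

theorem JJ_ge (ha : 0 < a) (hb : 0 < b) (hs : s = 2 * b) (m : Fin k) :
    (∫ u, g a b u) ^ 2 * ((∫ u, g a b u ^ 2) ^ (k - 1) -
      ∑ _l ∈ univ.erase m, 1 / b * ((∫ u, u * g a b u ^ 2) * (∫ u, g a b u ^ 2) ^ (k - 2))) ≤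
    JJ (FF a b s k) m := by
  have hs0 : 0 < s := by rw [hs]; linarith
  have e1 : ∫ t : Fin k → ℝ, (∫ u, g a b u) ^ 2 * ((∏ i, ph1 a b m m i (t i)) -
      ∑ l ∈ univ.erase m, 1 / b * ∏ i, ph1 a b m l i (t i)) =
    (∫ u, g a b u) ^ 2 * ((∫ u, g a b u ^ 2) ^ (k - 1) -
      ∑ _l ∈ univ.erase m, 1 / b * ((∫ u, u * g a b u ^ 2) * (∫ u, g a b u ^ 2) ^ (k - 2))) := by
    rw [integral_const_mul, integral_sub (int_prod_int _ fun i => ph1_int ha m m i)
      (integrable_finsetSum _ fun l _ => (int_prod_int _ fun i => ph1_int ha m l i).const_mul _),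
      int_prod, ph1_val0, integral_finsetSum _
        (fun l _ => (int_prod_int _ fun i => ph1_int ha m l i).const_mul _)]
    congr 2
    refine Finset.sum_congr rfl fun l hl => ?_
    rw [integral_const_mul, int_prod, ph1_val m l (Finset.ne_of_mem_erase hl)]
  rw [← e1]
  unfold JJ
  refine integral_mono ?_ (JJ_int ha hs0 m) fun t => ?_
  · exact ((int_prod_int _ fun i => ph1_int ha m m i).sub
      (integrable_finsetSum _ fun l _ =>
        (int_prod_int _ fun i => ph1_int ha m l i).const_mul _)).const_mul _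
  show (∫ u, g a b u) ^ 2 * ((∏ i, ph1 a b m m i (t i)) -
      ∑ l ∈ univ.erase m, 1 / b * ∏ i, ph1 a b m l i (t i)) ≤
    cutm m (fun t => marg (FF a b s k) m t ^ 2) t
  set P : ℝ := ∏ i ∈ univ.erase m, g a b (t i) ^ 2 with hP
  have hP0 : 0 ≤ P := Finset.prod_nonneg fun i _ => sq_nonneg _
  have e2 : (∏ i, ph1 a b m m i (t i)) - ∑ l ∈ univ.erase m, 1 / b * ∏ i, ph1 a b m l i (t i) =
      chi (t m) * (P * (1 - (∑ l ∈ univ.erase m, t l) / b)) := by
    rw [ph1_prod0]
    have : ∑ l ∈ univ.erase m, 1 / b * ∏ i, ph1 a b m l i (t i) =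
        ∑ l ∈ univ.erase m, t l * (chi (t m) * P / b) := by
      refine Finset.sum_congr rfl fun l hl => ?_
      rw [ph1_prod m l (Finset.ne_of_mem_erase hl)]
      ring
    rw [this, ← Finset.sum_mul]
    ring
  rw [e2]
  by_cases hm : 0 ≤ t m ∧ t m < 1
  · have e3 : cutm m (fun t => marg (FF a b s k) m t ^ 2) t = marg (FF a b s k) m t ^ 2 :=
      if_pos hm
    have e4 : chi (t m) = 1 := if_pos hm
    rw [e3, e4, one_mul]
    by_cases hz : P = 0
    · rw [hz, zero_mul, mul_zero]
      exact sq_nonneg _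
    have hnn : ∀ i ∈ univ.erase m, 0 ≤ t i := by
      intro i hi
      by_contra hlt
      refine hz (Finset.prod_eq_zero hi ?_)
      have : g a b (t i) = 0 := by
        unfold g ct
        rw [if_neg fun h' => hlt h'.1]
      rw [this]
      ring
    have hsn : 0 ≤ ∑ i ∈ univ.erase m, t i := Finset.sum_nonneg hnn
    by_cases hsum : ∑ i ∈ univ.erase m, t i ≤ b
    · rw [marg_eq hs m t hsum, mul_pow, ← Finset.prod_pow, ← hP]
      refine mul_le_mul_of_nonneg_left ?_ (sq_nonneg _)
      have : 0 ≤ (∑ l ∈ univ.erase m, t l) / b := div_nonneg hsn hb.le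
      calc P * (1 - (∑ l ∈ univ.erase m, t l) / b) ≤ P * 1 :=
            mul_le_mul_of_nonneg_left (by linarith) hP0
        _ = P := mul_one _
    · have h1 : 1 - (∑ l ∈ univ.erase m, t l) / b ≤ 0 := by
        have : 1 ≤ (∑ l ∈ univ.erase m, t l) / b := by
          rw [le_div_iff₀ hb]
          linarith
        linarith
      have h2 : P * (1 - (∑ l ∈ univ.erase m, t l) / b) ≤ 0 :=
        mul_nonpos_of_nonneg_of_nonpos hP0 h1
      exact (mul_nonpos_of_nonneg_of_nonpos (sq_nonneg _) h2).trans (sq_nonneg _)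
  · have e4 : chi (t m) = 0 := if_neg hm
    have e3 : cutm m (fun t => marg (FF a b s k) m t ^ 2) t = 0 := if_neg hm
    rw [e3, e4, zero_mul, mul_zero]

end

/-! ### Parameters -/

theorem scal {e η q : ℝ} (he : 0 < e) (he8 : e ≤ 1 / 8) (hη : e ≤ η) (hq : 4 / e < q) :
    (1 / 4 - η) * (q ^ 2 / (1 - e)) + 4 * (q * (1 - e) / 4) ^ 2 <
      (2 * (q * (1 - e) / 4) - 1) * (q * (1 - e)) := by
  have hq0 : 0 < q := lt_trans (by positivity) hq
  have h1e : 0 < 1 - e := by linarith
  have h1 : 4 < q * e := by rwa [div_lt_iff₀ he] at hq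
  have h2 : (1 / 4 - η) * (q ^ 2 / (1 - e)) ≤ (1 / 4 - 3 * e / 4) * q ^ 2 := by
    rw [← mul_div_assoc, div_le_iff₀ h1e]
    have h3 : 0 < q ^ 2 := by positivity
    have h4 : 1 / 4 - η ≤ (1 / 4 - 3 * e / 4) * (1 - e) := by nlinarith
    nlinarith
  have h5 : q * (1 - e) < q ^ 2 * e / 4 := by nlinarith
  nlinarith [sq_nonneg (q * e)]

theorem param (e : ℝ) (he : 0 < e) (he8 : e ≤ 1 / 8) : ∃ K0 : ℕ, ∀ k : ℕ, K0 ≤ k →
    ∃ r : ℝ, 0 < r ∧ (k : ℝ) * Real.log (1 + 1 / r) * (r * (1 + r)) ≤ e ∧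
      4 / e < k * Real.log (1 + 1 / r) ^ 2 * (e / 2 * (r * (1 + r))) := by
  have h1 : ∀ᶠ k : ℕ in atTop, 32 / e ^ 3 < Real.log k :=
    (Real.tendsto_log_atTop.comp tendsto_natCast_atTop_atTop).eventually_gt_atTop _
  have h2 : ∀ᶠ k : ℕ in atTop, Real.log k ≤ e / 8 * k := by
    have h := Real.isLittleO_log_id_atTop.def (show 0 < e / 8 by positivity)
    have h' := tendsto_natCast_atTop_atTop.eventually h
    filter_upwards [h', h1] with k hk hk1
    have : 0 < Real.log k := lt_trans (by positivity) hk1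
    rw [Real.norm_eq_abs, abs_of_pos this] at hk
    simpa using hk
  obtain ⟨K0, hK0⟩ := eventually_atTop.mp (h1.and (h2.and (eventually_ge_atTop 2)))
  refine ⟨K0, fun k hk => ?_⟩
  obtain ⟨hL, hL2, hk2⟩ := hK0 k hk
  set L := Real.log k with hLdef
  have hk2' : (2 : ℝ) ≤ k := by exact_mod_cast hk2
  have hk0 : (0 : ℝ) < k := by linarith
  have hL0 : 0 < L := lt_trans (by positivity) hL
  have hLe : 32 < L * e ^ 3 := by rwa [div_lt_iff₀ (by positivity)] at hL
  have he1 : e ≤ 1 := by linarith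
  have hL1 : 1 ≤ L := by
    have : e ^ 3 ≤ 1 := pow_le_one₀ he.le he1
    nlinarith
  refine ⟨e / (4 * k * L), by positivity, ?_, ?_⟩
  · set r := e / (4 * k * L) with hr
    have hr0 : 0 < r := by positivity
    have hr1 : r ≤ 1 := by
      rw [hr, div_le_one (by positivity)]
      nlinarith
    have hkr : k * r = e / (4 * L) := by
      rw [hr]; field_simp
    have hA : Real.log (1 + 1 / r) ≤ 2 * L := by
      have e1 : 1 + 1 / r ≤ (k : ℝ) ^ 2 := by
        have : 1 / r = 4 * k * L / e := by rw [hr]; field_simp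
        rw [this]
        have e2 : 4 * k * L / e ≤ (k : ℝ) ^ 2 / 2 := by
          rw [div_le_iff₀ he]
          nlinarith
        nlinarith
      calc Real.log (1 + 1 / r) ≤ Real.log ((k : ℝ) ^ 2) :=
            Real.log_le_log (by positivity) e1
        _ = 2 * L := by rw [Real.log_pow]; push_cast; ring
    have hA0 : 0 ≤ Real.log (1 + 1 / r) := Real.log_nonneg (by
      have : 0 < 1 / r := by positivity
      linarith)
    calc (k : ℝ) * Real.log (1 + 1 / r) * (r * (1 + r))
        = (k * r) * Real.log (1 + 1 / r) * (1 + r) := by ring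
      _ ≤ (k * r) * (2 * L) * (1 + 1) := by
          refine mul_le_mul (mul_le_mul_of_nonneg_left hA (by positivity)) (by linarith)
            (by linarith) (by positivity)
      _ = e := by rw [hkr]; field_simp; ring
  · set r := e / (4 * k * L) with hr
    have hr0 : 0 < r := by positivity
    have hkr : k * r = e / (4 * L) := by
      rw [hr]; field_simp
    have hA : L ≤ Real.log (1 + 1 / r) := by
      refine Real.log_le_log hk0 ?_
      have : 1 / r = 4 * k * L / e := by rw [hr]; field_simp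
      rw [this]
      have e2 : (k : ℝ) ≤ 4 * k * L / e := by
        rw [le_div_iff₀ he]
        nlinarith
      linarith
    have hA2 : L ^ 2 ≤ Real.log (1 + 1 / r) ^ 2 := pow_le_pow_left₀ hL0.le hA 2
    calc 4 / e < L * e ^ 2 / 8 := by
          rw [div_lt_iff₀ he]
          nlinarith
      _ = (k * r) * L ^ 2 * (e / 2) := by rw [hkr]; field_simp; ring
      _ ≤ (k * r) * Real.log (1 + 1 / r) ^ 2 * (e / 2) := by
          refine mul_le_mul_of_nonneg_right (mul_le_mul_of_nonneg_left hA2 (by positivity))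
            (by positivity)
      _ = (k * r) * Real.log (1 + 1 / r) ^ 2 * (e / 2) * 1 := (mul_one _).symm
      _ ≤ (k * r) * Real.log (1 + 1 / r) ^ 2 * (e / 2) * (1 + r) :=
          mul_le_mul_of_nonneg_left (by linarith) (by positivity)
      _ = k * Real.log (1 + 1 / r) ^ 2 * (e / 2 * (r * (1 + r))) := by ring

end MPb51559.BG.Q.XFUN

namespace MPb51559.BG.Q

open Finset Filter Topology MeasureTheory
open XFUN

theorem prf_FUN : FUN := by
  intro η hη
  set e : ℝ := min η (1 / 8) with he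
  have he0 : 0 < e := lt_min hη (by norm_num)
  have he8 : e ≤ 1 / 8 := min_le_right _ _
  have heη : e ≤ η := min_le_left _ _
  obtain ⟨K0, hK0⟩ := param e he0 he8
  refine ⟨max K0 2, fun k hk => ?_⟩
  obtain ⟨r, hr, hr1, hr2⟩ := hK0 k ((le_max_left _ _).trans hk)
  have hk2 : 2 ≤ k := (le_max_right _ _).trans hk
  have hk0 : (0 : ℝ) < k := by
    have : (2 : ℝ) ≤ k := by exact_mod_cast hk2
    linarith
  set b : ℝ := e / 2 with hb
  have hb0 : 0 < b := by positivity
  set a : ℝ := b * r with ha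
  have ha0 : 0 < a := by positivity
  have hs : e = 2 * b := by rw [hb]; ring
  have hba : b / a = 1 / r := by rw [ha]; field_simp
  set A1 : ℝ := ∫ u, g a b u with hA1
  set A2 : ℝ := ∫ u, g a b u ^ 2 with hA2
  have hA1v : A1 = Real.log (1 + 1 / r) := by rw [hA1, g_val ha0 hb0.le, hba]
  have hA2v : A2 = b / (a * (a + b)) := gsq_val ha0 hb0.le
  have hA1p : 0 < A1 := by
    rw [hA1v]
    refine Real.log_pos ?_
    have : 0 < 1 / r := by positivity
    linarith
  have hA2p : 0 < A2 := by rw [hA2v]; positivity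
  set q : ℝ := k * A1 ^ 2 / A2 with hq
  have hA2i : 1 / A2 = b * (r * (1 + r)) := by
    rw [hA2v, ha]
    field_simp
    ring
  have hqv : 4 / e < q := by
    have : q = k * Real.log (1 + 1 / r) ^ 2 * (e / 2 * (r * (1 + r))) := by
      rw [hq, ← hA1v, div_eq_mul_one_div, hA2i, hb]
    rw [this]
    exact hr2
  have hq0 : 0 < q := lt_trans (by positivity) hqv
  have hmark : k * (A1 / (b * A2)) ≤ e := by
    have : A1 / (b * A2) = Real.log (1 + 1 / r) * (r * (1 + r)) := by
      have h1 : A1 / (b * A2) = A1 * (1 / A2) / b := by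
        field_simp
      rw [h1, hA2i, hA1v]
      field_simp
    rw [this, ← mul_assoc]
    exact hr1
  have hT : ∫ u, u * g a b u ^ 2 ≤ A1 := gsqt_le ha0
  obtain ⟨n, rfl⟩ : ∃ n, k = n + 2 := ⟨k - 2, by omega⟩
  have hJ : ∀ m : Fin (n + 2), (1 - e) * (A1 ^ 2 * A2 ^ (n + 1)) ≤ JJ (FF a b e (n + 2)) m := by
    intro m
    refine le_trans ?_ (JJ_ge ha0 hb0 hs m)
    rw [Finset.sum_const, Finset.card_erase_of_mem (Finset.mem_univ m), Finset.card_univ,
      Fintype.card_fin, nsmul_eq_mul]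
    have e1 : n + 2 - 1 = n + 1 := rfl
    have e2 : n + 2 - 2 = n := rfl
    rw [e1, e2, ← hA1, ← hA2]
    have h1 : ((n + 1 : ℕ) : ℝ) * (1 / b * ((∫ u, u * g a b u ^ 2) * A2 ^ n)) ≤
        e * A2 ^ (n + 1) := by
      have h2 : (((n + 2 : ℕ) : ℝ)) * (A1 / (b * A2)) * A2 ^ (n + 1) ≤ e * A2 ^ (n + 1) :=
        mul_le_mul_of_nonneg_right hmark (by positivity)
      refine le_trans ?_ h2
      have h3 : (((n + 2 : ℕ) : ℝ)) * (A1 / (b * A2)) * A2 ^ (n + 1) =
          ((n + 2 : ℕ) : ℝ) * (1 / b * (A1 * A2 ^ n)) := by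
        rw [pow_succ]
        field_simp
      rw [h3]
      have h4 : ((n + 1 : ℕ) : ℝ) ≤ ((n + 2 : ℕ) : ℝ) := by exact_mod_cast Nat.le_succ _
      have h5 : 1 / b * ((∫ u, u * g a b u ^ 2) * A2 ^ n) ≤ 1 / b * (A1 * A2 ^ n) :=
        mul_le_mul_of_nonneg_left (mul_le_mul_of_nonneg_right hT (by positivity)) (by positivity)
      have h6 : 0 ≤ 1 / b * (A1 * A2 ^ n) := by positivity
      calc ((n + 1 : ℕ) : ℝ) * (1 / b * ((∫ u, u * g a b u ^ 2) * A2 ^ n))
          ≤ ((n + 1 : ℕ) : ℝ) * (1 / b * (A1 * A2 ^ n)) :=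
            mul_le_mul_of_nonneg_left h5 (by positivity)
        _ ≤ ((n + 2 : ℕ) : ℝ) * (1 / b * (A1 * A2 ^ n)) := mul_le_mul_of_nonneg_right h4 h6
    have h7 : 0 ≤ A1 ^ 2 := sq_nonneg _
    nlinarith [mul_le_mul_of_nonneg_left h1 h7]
  refine ⟨e, q * (1 - e) / 4, A2 ^ (n + 2), (1 - e) * (A1 ^ 2 * A2 ^ (n + 1)), A1 ^ 4 * A2 ^ n,
    FF a b e (n + 2), he0, by linarith, ?_, by positivity, FF_tst ha0, F_sq ha0, hJ, ?_, ?_⟩
  · have h1 : 32 ≤ 4 / e := by
      rw [le_div_iff₀ he0]
      linarith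
    nlinarith
  · intro m j hmj
    exact GG_le ha0 m j hmj
  · have hs' := scal he0 he8 heη hqv
    have hqA : ((n + 2 : ℕ) : ℝ) * A1 ^ 2 = q * A2 := by
      rw [hq]
      field_simp
    have e1 : (1 / 4 - η) * ((n + 2 : ℕ) : ℝ) ^ 2 * (A1 ^ 4 * A2 ^ n / (1 - e)) +
        4 * (q * (1 - e) / 4) ^ 2 * A2 ^ (n + 2) =
        ((1 / 4 - η) * (q ^ 2 / (1 - e)) + 4 * (q * (1 - e) / 4) ^ 2) * A2 ^ (n + 2) := by
      have : ((n + 2 : ℕ) : ℝ) ^ 2 * A1 ^ 4 = q ^ 2 * A2 ^ 2 := by
        calc ((n + 2 : ℕ) : ℝ) ^ 2 * A1 ^ 4 = (((n + 2 : ℕ) : ℝ) * A1 ^ 2) ^ 2 := by ring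
          _ = q ^ 2 * A2 ^ 2 := by rw [hqA]; ring
      calc _ = (1 / 4 - η) * ((((n + 2 : ℕ) : ℝ) ^ 2 * A1 ^ 4) * A2 ^ n / (1 - e)) +
            4 * (q * (1 - e) / 4) ^ 2 * A2 ^ (n + 2) := by ring
        _ = _ := by rw [this]; ring
    have e2 : (2 * (q * (1 - e) / 4) - 1) *
        (((n + 2 : ℕ) : ℝ) * ((1 - e) * (A1 ^ 2 * A2 ^ (n + 1)))) =
        ((2 * (q * (1 - e) / 4) - 1) * (q * (1 - e))) * A2 ^ (n + 2) := by
      calc _ = (2 * (q * (1 - e) / 4) - 1) * (1 - e) *
            ((((n + 2 : ℕ) : ℝ) * A1 ^ 2) * A2 ^ (n + 1)) := by ring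
        _ = _ := by rw [hqA]; ring
    rw [e1, e2]
    exact mul_lt_mul_of_pos_right hs' (by positivity)

end MPb51559.BG.Q
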