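import Pool.Agent.Work.MP_b51559_nt.BG.Q.Stmts
import Pool.Agent.Work.MP_b51559_nt.BG.C.EXT

/-!
# Block BG/Q, item Q1: extension in the colour `j`, density `aF`
-/

set_option autoImplicit false

namespace MPb51559.BG.Q

open Finset Filter Topology MeasureTheory
open scoped Classical

namespace I_Q1

variable {S : Finset ℕ} {k : ℕ}

theorem mw_pos (hS : ∀ p ∈ S, 2 < p) (u : Co S k) : 0 < mw (fun p => aF p - 1) u := by
  unfold mw
  refine Finset.prod_pos fun p _ => ?_
  split_ifs
  · exact one_pos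
  · have h1 : (2 : ℝ) < (p : ℕ) := by exact_mod_cast hS p p.2
    unfold aF
    linarith

theorem prt_dl (j : Fin k) (u : Co S k) : prt j (dl j u) = 1 := by
  unfold prt
  refine Finset.prod_eq_one fun p _ => ?_
  rw [if_neg (IEXT.noC_dl j u p)]

theorem one_le_cps (hS : ∀ p ∈ S, 2 < p) (j : Fin k) (Z : ℝ) (hZ : 1 ≤ Z) (r : Co S k)
    (hr : dl j r = r) : 1 ≤ cps j Z r := by
  unfold cps
  have h1 : mw (fun p => aF p - 1) r / mw (fun p => aF p - 1) r = 1 := div_self (mw_pos hS r).ne'
  refine h1.ge.trans ?_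
  refine Finset.single_le_sum
    (f := fun u => mw (fun p => aF p - 1) r / mw (fun p => aF p - 1) u)
    (fun u _ => (div_pos (mw_pos hS r) (mw_pos hS u)).le) ?_
  rw [mem_filter]
  refine ⟨mem_univ _, hr, ?_⟩
  rw [← hr, prt_dl]
  exact_mod_cast hZ

theorem inner (hS : ∀ p ∈ S, 2 < p) (j : Fin k) (l : Co S k → ℝ) (Z : ℝ) (hZ : 1 ≤ Z)
    (r : Co S k) (hB : ytr aF l r ≠ 0 → dl j r = r) :
    ∑ u ∈ univ.filter (fun u : Co S k => dl j u = r), yex j Z l u / mw (fun p => aF p - 1) u =
      ytr aF l r / mw (fun p => aF p - 1) r := by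
  have h1 : ∑ u ∈ univ.filter (fun u : Co S k => dl j u = r),
      yex j Z l u / mw (fun p => aF p - 1) u =
      ∑ u ∈ univ.filter (fun u : Co S k => dl j u = r ∧ (prt j u : ℝ) ≤ Z),
        ytr aF l r / cps j Z r / mw (fun p => aF p - 1) r *
          (mw (fun p => aF p - 1) r / mw (fun p => aF p - 1) u) := by
    rw [← Finset.filter_filter, Finset.sum_filter (fun u : Co S k => (prt j u : ℝ) ≤ Z)]
    refine Finset.sum_congr rfl fun u hu => ?_
    rw [mem_filter] at hu
    unfold yex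
    rw [hu.2]
    have h2 := (mw_pos hS r).ne'
    have h3 := (mw_pos hS u).ne'
    split_ifs
    · field_simp
    · simp
  rw [h1, ← Finset.mul_sum]
  change ytr aF l r / cps j Z r / mw (fun p => aF p - 1) r * cps j Z r = _
  by_cases h0 : ytr aF l r = 0
  · rw [h0]; simp
  · have h2 := hB h0
    have h4 : cps j Z r ≠ 0 := (lt_of_lt_of_le one_pos (one_le_cps hS j Z hZ r h2)).ne'
    have h5 := (mw_pos hS r).ne'
    field_simp

theorem key (hS : ∀ p ∈ S, 2 < p) (j : Fin k) (l : Co S k → ℝ) (Z : ℝ) (hZ : 1 ≤ Z)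
    (hB : ∀ r, ytr aF l r ≠ 0 → dl j r = r) (d : Co S k) (hd : NoC j d) :
    lam aF (yex j Z l) d = lam aF (ytr aF l) d := by
  unfold lam
  congr 1
  rw [← Finset.sum_fiberwise_of_maps_to (g := dl j)
    (s := univ.filter (fun r : Co S k => Le d r)) (t := univ.filter (fun r : Co S k => Le d r))]
  · refine Finset.sum_congr rfl fun r hr => ?_
    rw [mem_filter] at hr
    rw [← inner hS j l Z hZ r (hB r)]
    refine Finset.sum_congr ?_ fun _ _ => rfl
    ext u
    simp only [mem_filter, mem_univ, true_and]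
    constructor
    · exact fun h => h.2
    · intro h
      refine ⟨?_, h⟩
      rw [IEXT.le_dl hd, h]
      exact hr.2
  · intro u hu
    rw [mem_filter] at hu ⊢
    exact ⟨mem_univ _, (IEXT.le_dl hd).1 hu.2⟩

end I_Q1

theorem prq_Q1 (hI : C_INV) (hSup : C_SUP) : Q1 := by
  intro S k j hS l Z hZ hl
  have hS1 : ∀ p ∈ S, 1 ≤ p := fun p hp => by have := hS p hp; omega
  obtain ⟨-, hC⟩ := hSup S k aF hS1 l
  have hB2 := (hC j fun r hr => hl r hr).2
  have ha : ∀ p ∈ S, aF p ≠ 0 ∧ aF p - 1 ≠ 0 := by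
    intro p hp
    have h1 : (2 : ℝ) < (p : ℕ) := by exact_mod_cast hS p hp
    unfold aF
    constructor
    · intro h
      linarith
    · intro h
      linarith
  refine ⟨?_, fun u => ?_, fun m hm hlm u hu => ?_⟩
  · funext d
    unfold rst
    split_ifs with hd
    · rw [I_Q1.key hS j l Z hZ (fun r hr => IEXT.dl_eq (hB2 r hr)) d hd, (hI S k aF ha l).2]
    · by_contra h
      exact hd (hl d (Ne.symm h))
  · unfold yex
    split_ifs with h
    · rw [abs_div]
      have h1 : 1 ≤ cps j Z (dl j u) := I_Q1.one_le_cps hS j Z hZ _ (IEXT.dl_dl j u)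
      have h2 : 1 ≤ |cps j Z (dl j u)| := h1.trans (le_abs_self _)
      exact div_le_self (abs_nonneg _) h2
    · rw [abs_zero]
      exact abs_nonneg _
  · have hB : ytr aF l (dl j u) ≠ 0 := by
      intro h0
      apply hu
      unfold yex
      rw [h0, zero_div, ite_self]
    have h1 := (hC m fun r hr => hlm r hr).2 _ hB
    intro p hp
    apply h1 p
    unfold dl
    rw [hp, if_neg]
    intro h
    exact hm (Option.some.inj h)

end MPb51559.BG.Q
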