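import Pool.Agent.Work.MP_b51559_nt.BG.Q.Stmts
import Pool.Agent.Work.MP_b51559_nt.BG.C.Util

set_option autoImplicit false

/-!
# Block BG/Q, item Q10: pointwise bound of the diagonal variables of the extension
-/

namespace MPb51559.BG.Q

open Finset Filter Topology MeasureTheory
open scoped Classical

namespace I_Q10

theorem alg {b c W H : ℝ} (hc : 1 ≤ c) (hW : 1 ≤ W) (hH : 0 < H) (h : H ≤ c * W) :
    (b / c) ^ 2 ≤ b ^ 2 * W ^ 2 / H ^ 2 := by
  have hc0 : 0 < c := by linarith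
  rw [div_pow, div_le_div_iff₀ (by positivity) (by positivity)]
  have h1 : H ^ 2 ≤ (c * W) ^ 2 := pow_le_pow_left₀ hH.le h 2
  calc b ^ 2 * H ^ 2 ≤ b ^ 2 * (c * W) ^ 2 := mul_le_mul_of_nonneg_left h1 (sq_nonneg b)
    _ = b ^ 2 * W ^ 2 * c ^ 2 := by ring

theorem dl_noc {S : Finset ℕ} {k : ℕ} (j : Fin k) (u : Co S k) : NoC j (dl j u) := by
  intro p hp
  unfold dl at hp
  split_ifs at hp with h
  exact h hp

end I_Q10

open I_Q10 in
/-- Item Q10. -/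
theorem prq_Q10 (hONE : C_ONE) (hQ2 : Q2) : Q10 := by
  intro k s F hs0 hs1 _ δ hδ0 hδ8 ε hε0 hε1
  refine ⟨2, fun D0 hD0 => ?_⟩
  have hk := U.kap_pos D0
  have hη : 0 < kap D0 * (1 / 4 - δ) * (1 - s) * ε := by
    have h1 : 0 < 1 / 4 - δ := by linarith
    have h2 : 0 < 1 - s := by linarith
    positivity
  obtain ⟨x1, hx1⟩ := hONE D0 hD0 _ hη
  refine ⟨max x1 2, fun x hx m j _ u => ?_⟩
  have hx1' : x1 ≤ x := (le_max_left _ _).trans hx
  have hx2 : (2 : ℝ) ≤ x := (le_max_right _ _).trans hx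
  have hx3 : 1 < x := by linarith
  have hR := U.Rx_gt_one δ x hδ8 hx3
  have hR0 : 0 < Rx δ x := by linarith
  have hZ1 : 1 ≤ Rx δ x ^ (1 - s) := Real.one_le_rpow hR.le (by linarith)
  have hZ2 : Rx δ x ^ (1 - s) ≤ Real.sqrt x :=
    U.Rx_rpow_le δ x (1 - s) hδ0.le hx3.le (by linarith) (by linarith)
  have hlk := U.lk_pos D0 δ x hδ8 hx3
  have hH : (1 - ε) * (1 - s) * lk D0 δ x ≤ Hs (Sx D0 x) (Rx δ x ^ (1 - s)) := by
    have h1 := (abs_le.1 (hx1 x hx1' _ hZ1 hZ2)).1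
    have h2 : kap D0 * Real.log (Rx δ x ^ (1 - s)) = (1 - s) * lk D0 δ x := by
      rw [Real.log_rpow hR0]
      unfold lk
      ring
    have h3 : kap D0 * (1 / 4 - δ) * (1 - s) * ε * Real.log x = ε * (1 - s) * lk D0 δ x := by
      rw [U.lk_eq D0 δ x (by linarith)]
      ring
    rw [h2, h3] at h1
    linarith
  have hHpos : 0 < (1 - ε) * (1 - s) * lk D0 δ x := by
    have h1 : 0 < 1 - ε := by linarith
    have h2 : 0 < 1 - s := by linarith
    positivity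
  unfold yE yex
  by_cases hu : (prt j u : ℝ) ≤ Rx δ x ^ (1 - s)
  · rw [if_pos hu, if_pos hu]
    have hS : ∀ p ∈ Sx D0 x, p.Prime ∧ 2 < p := fun p hp =>
      ⟨(U.Sx_prime hp).1, lt_of_le_of_lt hD0 (U.Sx_prime hp).2.1⟩
    have h2 := hQ2 (Sx D0 x) k j hS (Rx δ x ^ (1 - s)) hZ1 (dl j u) (dl_noc j u)
    refine alg (b := BB (Rx δ x) F m j (dl j u)) h2.1 ?_ hHpos (hH.trans h2.2)
    refine U.one_le_mw (dl j u) fun p hp => ?_
    have h3 : (2 : ℝ) < (p : ℝ) := by exact_mod_cast (hS p hp).2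
    have h4 : 0 ≤ 1 / ((p : ℝ) - 1) := div_nonneg zero_le_one (by linarith)
    linarith
  · rw [if_neg hu, if_neg hu]
    norm_num

end MPb51559.BG.Q
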