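import Pool.Agent.Work.MP_b51559_nt.BG.Q.Stmts
import Pool.Agent.Work.MP_b51559_nt.BG.C.GRA

set_option autoImplicit false

/-!
# Block BG/Q, item Q11: the form of the extension
-/

namespace MPb51559.BG.Q

open Finset Filter Topology MeasureTheory
open scoped Classical

namespace I_Q11

section
variable {S : Finset ℕ} {k : ℕ}

theorem tv_dl_self (R : ℝ) (j : Fin k) (u : Co S k) : tv R (dl j u) j = 0 := by
  apply GRA_tv_zero
  intro p
  unfold dl
  split_ifs with h
  · simp
  · exact h

theorem tv_dl_ne (R : ℝ) {i j : Fin k} (h : i ≠ j) (u : Co S k) :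
    tv R (dl j u) i = tv R u i := by
  have h1 : prt i (dl j u) = prt i u := by
    unfold prt
    refine Finset.prod_congr rfl fun p _ => ?_
    have h2 : dl j u p = some i ↔ u p = some i := by
      unfold dl
      split_ifs with h3
      · rw [h3]
        constructor
        · intro h4
          exact absurd h4 (by simp)
        · intro h4
          exact absurd (Option.some.inj h4).symm h
      · exact Iff.rfl
    simp only [h2]
  unfold tv
  rw [h1]

theorem tv_upd (R : ℝ) (j : Fin k) (u : Co S k) :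
    Function.update (tv R (dl j u)) j (tv R u j) = tv R u := by
  funext i
  by_cases h : i = j
  · subst h
    rw [Function.update_self]
  · rw [Function.update_of_ne h, tv_dl_ne R h]

theorem sum_tv (R : ℝ) (j : Fin k) (u : Co S k) :
    ∑ i, tv R u i = tv R u j + ∑ i, tv R (dl j u) i := by
  rw [← Finset.add_sum_erase univ (fun i => tv R u i) (mem_univ j),
    ← Finset.add_sum_erase univ (fun i => tv R (dl j u) i) (mem_univ j), tv_dl_self, zero_add]
  congr 1
  refine Finset.sum_congr rfl fun i hi => ?_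
  rw [tv_dl_ne R (ne_of_mem_erase hi)]

theorem mw_dl {f : ℕ → ℝ} (hf : ∀ p ∈ S, 1 ≤ f p) (j : Fin k) (u : Co S k) :
    mw f (dl j u) ≤ mw f u := by
  unfold mw
  refine Finset.prod_le_prod (fun p _ => ?_) fun p _ => ?_
  · split_ifs
    · exact zero_le_one
    · exact zero_le_one.trans (hf p p.2)
  · unfold dl
    by_cases h1 : u p = some j
    · have h2 : u p ≠ none := by
        rw [h1]
        simp
      rw [if_pos h1, if_pos rfl, if_neg h2]
      exact hf p p.2
    · rw [if_neg h1]

theorem noc_dl {m j : Fin k} {u : Co S k} (h : NoC m u) : NoC m (dl j u) := by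
  intro p
  unfold dl
  split_ifs
  · simp
  · exact h p

theorem noc_dl_self (j : Fin k) (u : Co S k) : NoC j (dl j u) := by
  intro p
  unfold dl
  split_ifs with h
  · simp
  · exact h

end

/-- the local inequality between the weights -/
theorem loc (k : ℕ) (p C : ℝ) (hp : 3 ≤ p) (hC : 8 * (k : ℝ) + 8 ≤ C) :
    (1 + 1 / (p - 2)) * (1 + 1 / (p - 2)) * ((1 + (k : ℝ) / (p - 2)) * (1 + 1 / (p - 2))) ≤
      1 + C / (p - 2) := by
  have h1 : 1 ≤ p - 2 := by linarith
  have h0 : 0 < p - 2 := by linarith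
  set y := 1 / (p - 2) with hy
  have hy0 : 0 ≤ y := by positivity
  have hy1 : y ≤ 1 := by
    rw [hy, div_le_one h0]
    exact h1
  have e1 : (k : ℝ) / (p - 2) = k * y := by rw [hy]; ring
  have e2 : C / (p - 2) = C * y := by rw [hy]; ring
  rw [e1, e2]
  have hk : (0 : ℝ) ≤ k := Nat.cast_nonneg k
  have h2 : y ^ 2 ≤ y := by nlinarith
  have h3 : y ^ 3 ≤ y := by nlinarith
  have h4 : y ^ 4 ≤ y := by nlinarith
  have h5 : (8 * (k : ℝ) + 8) * y ≤ C * y := mul_le_mul_of_nonneg_right hC hy0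
  have e3 : (1 + y) * (1 + y) * ((1 + (k : ℝ) * y) * (1 + y)) =
      1 + (3 + k) * y + (3 + 3 * k) * y ^ 2 + (1 + 3 * k) * y ^ 3 + k * y ^ 4 := by ring
  rw [e3]
  have h6 : (3 + 3 * (k : ℝ)) * y ^ 2 ≤ (3 + 3 * k) * y :=
    mul_le_mul_of_nonneg_left h2 (by positivity)
  have h7 : (1 + 3 * (k : ℝ)) * y ^ 3 ≤ (1 + 3 * k) * y :=
    mul_le_mul_of_nonneg_left h3 (by positivity)
  have h8 : (k : ℝ) * y ^ 4 ≤ k * y := mul_le_mul_of_nonneg_left h4 hk
  nlinarith

/-- the choice of the constants -/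
theorem consts (g s e : ℝ) (hg : 0 ≤ g) (hs : s < 1) (he : 0 < e) :
    ∃ e1 e2 : ℝ, 0 < e1 ∧ e1 < 1 ∧ 0 < e2 ∧
      ((1 - s) * g + e2) / ((1 - e1) * (1 - s)) ^ 2 ≤ g / (1 - s) + e := by
  have hs' : 0 < 1 - s := by linarith
  set G := g / (1 - s) with hG
  have hG0 : 0 ≤ G := by positivity
  have hgG : g = G * (1 - s) := by
    rw [hG]
    field_simp
  refine ⟨min (1 / 4) (e / (8 * (G + 1))), e * (1 - s) ^ 2 / 4, by positivity,
    lt_of_le_of_lt (min_le_left _ _) (by norm_num), by positivity, ?_⟩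
  set e1 := min (1 / 4) (e / (8 * (G + 1))) with he1
  have h1 : 0 < e1 := by positivity
  have h2 : e1 ≤ 1 / 4 := min_le_left _ _
  have h3 : e1 * (8 * (G + 1)) ≤ e := by
    have : e1 ≤ e / (8 * (G + 1)) := min_le_right _ _
    rwa [le_div_iff₀ (by positivity)] at this
  have h4 : 0 < 1 - e1 := by linarith
  rw [div_le_iff₀ (by positivity)]
  rw [hgG]
  have e3 : (1 - s) * (G * (1 - s)) + e * (1 - s) ^ 2 / 4 = (G + e / 4) * (1 - s) ^ 2 := by ring
  rw [e3]
  have e4 : (G + e) * ((1 - e1) * (1 - s)) ^ 2 = ((G + e) * (1 - e1) ^ 2) * (1 - s) ^ 2 := by ring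
  rw [e4]
  apply mul_le_mul_of_nonneg_right _ (by positivity)
  have h5 : G * e1 ≤ e / 8 := by nlinarith
  have h6 : (9 / 16 : ℝ) ≤ (1 - e1) ^ 2 := by nlinarith
  have h7 : 1 - 2 * e1 ≤ (1 - e1) ^ 2 := by nlinarith
  have h8 : G * (1 - 2 * e1) ≤ G * (1 - e1) ^ 2 := mul_le_mul_of_nonneg_left h7 hG0
  have h9 : e * (9 / 16) ≤ e * (1 - e1) ^ 2 := mul_le_mul_of_nonneg_left h6 he.le
  nlinarith

theorem one (hBAS : C_BAS) (hQN : C_QN) (hAPX : C_APX) (h4 : Q4) (h6 : Q6) (h7 : Q7) (h8 : Q8)
    (h9 : Q9) (h10 : Q10) (k : ℕ) (s : ℝ) (F : (Fin k → ℝ) → ℝ) (hs0 : 0 < s) (hs1 : s < 1)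
    (hF : Tst k s F) (δ : ℝ) (hδ0 : 0 < δ) (hδ : δ < 1 / 8) (ε : ℝ) (hε : 0 < ε) (m j : Fin k)
    (hmj : m ≠ j) :
    Ev fun D0 x => ∀ y : Co (Sx D0 x) k → ℝ, y = yE (Rx δ x) s F m j →
      Qf aF (lam aF y) (lam aF y) ≤ lk D0 δ x ^ (k + 1) * (GG F m j / (1 - s) + ε) := by
  have hk1 : 0 < k := Fin.pos m
  obtain ⟨C6, hC60, hC6⟩ := h6 k s F hs0 hs1 hF δ hδ0 hδ
  obtain ⟨Mg, Vg, hMg0, hMg⟩ := h7 k s F hs0 hF
  obtain ⟨-, hgb, -, hgj, hgs, -⟩ := hMg m j hmj
  obtain ⟨hgm⟩ : (∀ t u, marg (marg F m) j (Function.update t m u) = marg (marg F m) j t) ∧ True :=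
    ⟨(hMg m j hmj).2.2.1, trivial⟩
  obtain ⟨M, V, hM0, hBV'⟩ := h8 k s F hs0 hs1 hF
  have hBV := hBV' m j hmj
  obtain ⟨hGG0, hint⟩ := h9 k s F hs0 hs1 hF m j hmj
  obtain ⟨e1, e2, he1, he1', he2, hcon⟩ := consts (GG F m j) s ε hGG0 hs1 hε
  set Φ : (Fin k → ℝ) → ℝ :=
    fun t => if 0 ≤ t j ∧ t j ≤ 1 - s then marg (marg F m) j t ^ 2 else 0 with hΦ
  set C' : ℝ := (8 * k + 8) + C6 + (C6 ^ 2 + C6 * (C6 + Mg)) with hC'
  have hq0 : 0 ≤ C6 ^ 2 + C6 * (C6 + Mg) := by positivity
  have hkk : (0 : ℝ) ≤ 8 * k + 8 := by positivity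
  have hC'0 : 0 ≤ C' := by linarith
  obtain ⟨ε1, hε1, hA⟩ := hAPX k m 1 M C' V δ le_rfl (by norm_num) hM0 hC'0 hδ0 hδ e2 he2
  refine GRA_Ev_mono (GRA_Ev_and (GRA_Ev_and hA (hC6 ε1 hε1))
    (GRA_Ev_and (h10 k s F hs0 hs1 hF δ hδ0 hδ e1 he1 he1')
      (GRA_Ev_and (GRA_Ev_D 2) (GRA_Ev_x 2)))) ?_
  rintro D0 x ⟨⟨a1, a2⟩, a3, hD, hx⟩ y hy
  have hx1 : 1 < x := by linarith
  have hS : ∀ p ∈ Sx D0 x, p.Prime ∧ D0 < p := by
    intro p hp
    unfold Sx at hp
    exact (mem_filter.1 hp).2
  have hS' : ∀ p ∈ Sx D0 x, p.Prime ∧ 2 < p := fun p hp => ⟨(hS p hp).1, by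
    have := (hS p hp).2
    omega⟩
  have hS3 : ∀ p ∈ Sx D0 x, (3 : ℝ) ≤ p := by
    intro p hp
    have h4 : 3 ≤ p := by
      have := (hS p hp).2
      omega
    exact_mod_cast h4
  have hlk : 0 < lk D0 δ x := GRA_lk_pos D0 hδ hx1
  have hlogR : 0 < Real.log (Rx δ x) := by
    rw [GRA_logR hx1]
    have h1 := Real.log_pos hx1
    have h3 : 0 < 1 / 4 - δ := by linarith
    positivity
  have hR1 : 1 < Rx δ x := by
    unfold Rx
    exact Real.one_lt_rpow hx1 (by linarith)
  have hR0 : 0 < Rx δ x := by linarith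
  obtain ⟨-, b2, b3⟩ := h4 (Sx D0 x) k s (Rx δ x) F hS' hs0 hs1 hR1 hF m j hmj
  rw [← hy] at b3
  have a3' := a3 m j hmj
  rw [← hy] at a3'
  -- the weights
  set A : Co (Sx D0 x) k → ℝ := fun r => mw (fun p => 1 + 1 / ((p : ℝ) - 2)) r with hAdef
  have hA1 : ∀ r, 1 ≤ A r := fun r => GRA_one_le_mw (fun p hp => by
    have h4 := hS3 p hp
    have h5 : 0 < (p : ℝ) - 2 := by linarith
    have h6 : 0 < 1 / ((p : ℝ) - 2) := by positivity
    linarith) r
  have hFp : ∀ r : Co (Sx D0 x) k, 0 < mw aF r := fun r => GRA_mw_pos (fun p hp => by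
    have h4 := hS3 p hp
    unfold aF
    linarith) r
  have hF1p : ∀ r : Co (Sx D0 x) k, 0 < mw (fun p => aF p - 1) r := fun r =>
    GRA_mw_pos (fun p hp => by
      have h4 := hS3 p hp
      unfold aF
      linarith) r
  have hAF : ∀ r : Co (Sx D0 x) k, mw (fun p => aF p - 1) r * A r = mw aF r := by
    intro r
    rw [hAdef]
    simp only
    rw [GRA_mw_mul]
    refine GRA_mw_congr (fun p hp => ?_) r
    have h4 := hS3 p hp
    have h5 : (p : ℝ) - 2 ≠ 0 := by linarith
    unfold aF
    field_simp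
    ring
  have hinv : ∀ r : Co (Sx D0 x) k, 1 / mw (fun p => aF p - 1) r = A r / mw aF r := by
    intro r
    rw [← hAF r]
    have h4 := (hF1p r).ne'
    have h5 : A r ≠ 0 := by linarith [hA1 r]
    field_simp
  set B : Co (Sx D0 x) k → ℝ := fun r => mw (fun p => 1 + (k : ℝ) / (aF p - 1)) r with hBdef
  have hB1 : ∀ r, 1 ≤ B r := fun r =>
    GRA_one_le_mw (fun p hp => by
      have h4 := hS3 p hp
      have h5 : 0 ≤ (k : ℝ) / (aF p - 1) := by
        apply div_nonneg (Nat.cast_nonneg k)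
        unfold aF
        linarith
      linarith) r
  set E : Co (Sx D0 x) k → ℝ := fun r => mw (fun p => 1 + 1 / ((p : ℝ) - 1)) r with hEdef
  have hE1 : ∀ r, 1 ≤ E r := fun r =>
    GRA_one_le_mw (fun p hp => by
      have h4 := hS3 p hp
      have h5 : 0 < (p : ℝ) - 1 := by linarith
      have h6 : 0 < 1 / ((p : ℝ) - 1) := by positivity
      linarith) r
  set L := lk D0 δ x with hL
  set f : Co (Sx D0 x) k → ℝ := fun u =>
    if (prt j u : ℝ) ≤ Rx δ x ^ (1 - s) then
      (1 * (BB (Rx δ x) F m j (dl j u) / L ^ 2)) ^ 2 * (E (dl j u) * E (dl j u) * (B u * A u))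
    else 0 with hf
  have hden : 0 < ((1 - e1) * (1 - s) * L) ^ 2 := by
    have h1 : 0 < 1 - e1 := by linarith
    have h2 : 0 < 1 - s := by linarith
    positivity
  set K : ℝ := L ^ 4 / ((1 - e1) * (1 - s) * L) ^ 2 with hK
  have hK0 : 0 ≤ K := by positivity
  -- the upper bound by the diagonal sum
  have hQ := hQN (Sx D0 x) k aF (fun p hp => by
    have h4 := hS3 p hp
    unfold aF
    linarith) y
  have c1 : Qf aF (lam aF y) (lam aF y) ≤
      ∑ u : Co (Sx D0 x) k, y u ^ 2 / mw (fun p => aF p - 1) u * B u := by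
    have h1 := (abs_le.1 hQ).2
    have e3 : ∑ u : Co (Sx D0 x) k, y u ^ 2 / mw (fun p => aF p - 1) u * B u =
        ∑ r : Co (Sx D0 x) k, y r ^ 2 / mw (fun p => aF p - 1) r +
        ∑ r : Co (Sx D0 x) k, y r ^ 2 / mw (fun p => aF p - 1) r *
          (mw (fun p => 1 + (k : ℝ) / (aF p - 1)) r - 1) := by
      rw [← Finset.sum_add_distrib]
      refine Finset.sum_congr rfl fun r _ => ?_
      rw [hBdef]
      ring
    rw [e3]
    linarith
  have c2 : ∀ u : Co (Sx D0 x) k,
      y u ^ 2 / mw (fun p => aF p - 1) u * B u ≤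
        if NoC m u then K * (f u / mw aF u) else 0 := by
    intro u
    by_cases hu : NoC m u
    · rw [if_pos hu]
      have h1 := a3' u
      have e3 : y u ^ 2 / mw (fun p => aF p - 1) u * B u =
          y u ^ 2 * (B u * A u / mw aF u) := by
        have : y u ^ 2 / mw (fun p => aF p - 1) u =
            y u ^ 2 * (A u / mw aF u) := by
          rw [← hinv, mul_one_div]
        rw [this]
        ring
      rw [e3]
      have h2 : 0 ≤ B u * A u / mw aF u := by
        have := hB1 u
        have := hA1 u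
        have := hFp u
        positivity
      refine (mul_le_mul_of_nonneg_right h1 h2).trans (le_of_eq ?_)
      rw [hf]
      simp only
      split_ifs with h3
      · rw [hK]
        have h5 := hlk.ne'
        have h6 : (1 - e1) * (1 - s) * L ≠ 0 := by
          intro h7
          rw [h7] at hden
          norm_num at hden
        have h7 := (hFp u).ne'
        have eE : mw (fun p => 1 + 1 / ((p : ℝ) - 1)) (dl j u) = E (dl j u) := rfl
        rw [eE]
        field_simp
      · rw [zero_mul, zero_div, mul_zero]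
    · rw [if_neg hu]
      have h1 : y u = 0 := by
        by_contra h2
        exact hu (b3 u h2).1
      rw [h1]
      simp
  have c3 : Qf aF (lam aF y) (lam aF y) ≤
      K * ∑ u ∈ univ.filter (fun u : Co (Sx D0 x) k => NoC m u), f u / mw aF u := by
    refine c1.trans ((Finset.sum_le_sum fun u _ => c2 u).trans (le_of_eq ?_))
    rw [Finset.mul_sum, Finset.sum_filter]
  -- the main term
  have c4 := a1 Φ f
    (fun t u => by
      rw [hΦ]
      simp only [Function.update_of_ne hmj.symm, hgm])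
    hBV
    (fun t ht => by
      rw [hΦ] at ht
      simp only at ht
      split_ifs at ht with h1
      · have h2 : marg (marg F m) j t ≠ 0 := fun h => ht (by rw [h]; ring)
        have h3 := (hgs t h2).2
        have hjm : j ∈ (univ : Finset (Fin k)).erase m := mem_erase.2 ⟨hmj.symm, mem_univ _⟩
        rw [← Finset.add_sum_erase _ _ hjm]
        linarith [h1.2]
      · exact absurd rfl ht)
    (fun u hu => by
      rw [hf] at hu
      simp only at hu
      split_ifs at hu with h1
      · have h2 : BB (Rx δ x) F m j (dl j u) ≠ 0 := fun h => hu (by rw [h]; simp)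
        have h3 := (b2 _ h2).2.2.2
        have hu0 : (0 : ℝ) < prt j u := by
          exact_mod_cast ((hBAS (Sx D0 x) k (fun p hp => (hS p hp).1) u).2.2.2.2.2.2.2.1 j).1
        have h5 : tv (Rx δ x) u j ≤ 1 - s := by
          unfold tv
          rw [div_le_iff₀ hlogR, ← Real.log_rpow hR0]
          exact Real.log_le_log hu0 h1
        rw [(hBAS (Sx D0 x) k (fun p hp => (hS p hp).1) u).2.2.2.2.2.2.2.2.1, sum_tv _ j u,
          ← (hBAS (Sx D0 x) k (fun p hp => (hS p hp).1) (dl j u)).2.2.2.2.2.2.2.2.1]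
        linarith
      · exact absurd rfl hu)
    (fun u hu => by
      have hu0 : (0 : ℝ) < prt j u := by
        exact_mod_cast ((hBAS (Sx D0 x) k (fun p hp => (hS p hp).1) u).2.2.2.2.2.2.2.1 j).1
      have hu1 : (1 : ℝ) ≤ prt j u := by
        have := ((hBAS (Sx D0 x) k (fun p hp => (hS p hp).1) u).2.2.2.2.2.2.2.1 j).1
        exact_mod_cast this
      have hiff : (prt j u : ℝ) ≤ Rx δ x ^ (1 - s) ↔ tv (Rx δ x) u j ≤ 1 - s := by
        unfold tv
        rw [div_le_iff₀ hlogR, ← Real.log_rpow hR0]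
        exact (Real.log_le_log_iff hu0 (Real.rpow_pos_of_pos hR0 _)).symm
      have ht0 : 0 ≤ tv (Rx δ x) u j := by
        unfold tv
        exact div_nonneg (Real.log_nonneg hu1) hlogR.le
      have hCpos : ∀ c1 : ℝ, 0 ≤ c1 → ∀ p ∈ Sx D0 x, 1 ≤ 1 + c1 / ((p : ℝ) - 2) := by
        intro c1 hc1 p hp
        have h10 := hS3 p hp
        have h11 : 0 < (p : ℝ) - 2 := by linarith
        have h12 : 0 ≤ c1 / ((p : ℝ) - 2) := by positivity
        linarith
      by_cases h1 : (prt j u : ℝ) ≤ Rx δ x ^ (1 - s)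
      · have ef : f u = (1 * (BB (Rx δ x) F m j (dl j u) / L ^ 2)) ^ 2 *
            (E (dl j u) * E (dl j u) * (B u * A u)) := by
          rw [hf]
          simp only
          rw [if_pos h1]
        have eΦ : Φ (tv (Rx δ x) u) =
            1 ^ 2 * marg (marg F m) j (tv (Rx δ x) (dl j u)) ^ 2 := by
          rw [hΦ]
          simp only
          rw [if_pos ⟨ht0, hiff.1 h1⟩, one_pow, one_mul, ← hgj (tv (Rx δ x) (dl j u)) (tv (Rx δ x) u j),
            tv_upd]
        rw [ef, eΦ]
        obtain ⟨d1, d2⟩ := a2 m j hmj (dl j u)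
        have d3 := d2 (noc_dl hu) (noc_dl_self j u)
        have hL2 : 0 < L ^ 2 := by positivity
        refine GRA_real 1 (BB (Rx δ x) F m j (dl j u) / L ^ 2)
          (marg (marg F m) j (tv (Rx δ x) (dl j u))) (E (dl j u) * E (dl j u) * (B u * A u))
          (mw (fun p => 1 + C6 / ((p : ℝ) - 2)) (dl j u)) _ C6 Mg 1 ε1 C'
          (by norm_num) ?_ ?_ (hgb _) ?_ ?_ ?_ ?_ hε1.le (by
            rw [one_pow, one_mul]
            linarith)
        · rw [abs_div, abs_of_pos hL2, div_le_iff₀ hL2]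
          exact d1
        · have e3 : BB (Rx δ x) F m j (dl j u) / L ^ 2 - marg (marg F m) j (tv (Rx δ x) (dl j u)) =
              (BB (Rx δ x) F m j (dl j u) - L ^ 2 * marg (marg F m) j (tv (Rx δ x) (dl j u))) /
                L ^ 2 := by
            field_simp
          rw [e3, abs_div, abs_of_pos hL2, div_le_iff₀ hL2, mul_comm _ (L ^ 2)]
          exact d3
        · have h2 := hE1 (dl j u)
          have h3 := hB1 u
          have h5 := hA1 u
          exact one_le_mul_of_one_le_of_one_le (one_le_mul_of_one_le_of_one_le h2 h2)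
            (one_le_mul_of_one_le_of_one_le h3 h5)
        · have h2 : E (dl j u) ≤ A u := by
            refine (mw_dl (fun p hp => ?_) j u).trans (GRA_mw_mono (fun p hp => ?_) (fun p hp => ?_) u)
            · have h10 := hS3 p hp
              have h11 : 0 < (p : ℝ) - 1 := by linarith
              have h12 : 0 < 1 / ((p : ℝ) - 1) := by positivity
              linarith
            · have h10 := hS3 p hp
              have h11 : 0 < (p : ℝ) - 1 := by linarith
              positivity
            · have h10 := hS3 p hp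
              have h11 : 0 < (p : ℝ) - 2 := by linarith
              have h12 : 1 / ((p : ℝ) - 1) ≤ 1 / ((p : ℝ) - 2) :=
                one_div_le_one_div_of_le h11 (by linarith)
              linarith
          have h3 : 0 ≤ E (dl j u) := by linarith [hE1 (dl j u)]
          have h5 : 0 ≤ B u * A u := by
            have := hB1 u
            have := hA1 u
            positivity
          calc E (dl j u) * E (dl j u) * (B u * A u) ≤ A u * A u * (B u * A u) := by
                apply mul_le_mul_of_nonneg_right _ h5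
                exact mul_le_mul h2 h2 h3 (h3.trans h2)
            _ = mw (fun p => (1 + 1 / ((p : ℝ) - 2)) * (1 + 1 / ((p : ℝ) - 2)) *
                ((1 + (k : ℝ) / (aF p - 1)) * (1 + 1 / ((p : ℝ) - 2)))) u := by
                rw [hAdef, hBdef]
                simp only
                rw [GRA_mw_mul, GRA_mw_mul, GRA_mw_mul]
            _ ≤ mw (fun p => 1 + C' / ((p : ℝ) - 2)) u := by
                refine GRA_mw_mono (fun p hp => ?_) (fun p hp => ?_) u
                · have h10 := hS3 p hp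
                  have h11 : 0 < (p : ℝ) - 2 := by linarith
                  have h12 : aF p - 1 = (p : ℝ) - 2 := by
                    unfold aF
                    ring
                  rw [h12]
                  positivity
                · have h10 := hS3 p hp
                  have h12 : aF p - 1 = (p : ℝ) - 2 := by
                    unfold aF
                    ring
                  rw [h12]
                  exact loc k p C' h10 (by linarith)
        · exact GRA_one_le_mw (hCpos C6 hC60) _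
        · refine (mw_dl (hCpos C6 hC60) j u).trans
            (GRA_mw_mono (fun p hp => ?_) (fun p hp => ?_) u)
          · exact zero_le_one.trans (hCpos C6 hC60 p hp)
          · have h10 := hS3 p hp
            have h11 : 0 < (p : ℝ) - 2 := by linarith
            have h12 : C6 / ((p : ℝ) - 2) ≤ C' / ((p : ℝ) - 2) :=
              div_le_div_of_nonneg_right (by linarith) h11.le
            linarith
      · have ef : f u = 0 := by
          rw [hf]
          simp only
          rw [if_neg h1]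
        have eΦ : Φ (tv (Rx δ x) u) = 0 := by
          rw [hΦ]
          simp only
          rw [if_neg (fun h => h1 (hiff.2 h.2))]
        rw [ef, eΦ, sub_zero, abs_zero]
        apply mul_nonneg hC'0
        have := GRA_one_le_mw (hCpos C' hC'0) u
        linarith)
  rw [hint] at c4
  have c5 := (abs_le.1 c4).2
  have c6 : ∑ u ∈ univ.filter (fun u : Co (Sx D0 x) k => NoC m u), f u / mw aF u ≤
      L ^ (k - 1) * ((1 - s) * GG F m j + e2) := by
    linarith
  refine c3.trans ((mul_le_mul_of_nonneg_left c6 hK0).trans ?_)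
  have e3 : k + 1 = (k - 1) + 2 := by omega
  rw [e3, pow_add L]
  have e4 : K * (L ^ (k - 1) * ((1 - s) * GG F m j + e2)) =
      L ^ (k - 1) * L ^ 2 * (((1 - s) * GG F m j + e2) / ((1 - e1) * (1 - s)) ^ 2) := by
    rw [hK]
    have h5 := hlk.ne'
    have h6 : 1 - e1 ≠ 0 := by linarith
    have h7 : 1 - s ≠ 0 := by linarith
    field_simp
  rw [e4]
  exact mul_le_mul_of_nonneg_left hcon (by positivity)

end I_Q11

open I_Q11 in
theorem prq_Q11 (hBAS : C_BAS) (hQN : C_QN) (hAPX : C_APX) (h4 : Q4) (h6 : Q6) (h7 : Q7) (h8 : Q8)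
    (h9 : Q9) (h10 : Q10) : Q11 := by
  intro k s F hs0 hs1 hF δ hδ0 hδ ε hε
  have key : ∀ m j : Fin k, Ev fun D0 x => m ≠ j → ∀ y : Co (Sx D0 x) k → ℝ,
      y = yE (Rx δ x) s F m j →
      Qf aF (lam aF y) (lam aF y) ≤ lk D0 δ x ^ (k + 1) * (GG F m j / (1 - s) + ε) := by
    intro m j
    by_cases h : m = j
    · exact ⟨0, fun D0 _ => ⟨0, fun x _ h' => absurd h h'⟩⟩
    · exact GRA_Ev_mono (one hBAS hQN hAPX h4 h6 h7 h8 h9 h10 k s F hs0 hs1 hF δ hδ0 hδ ε hε m j h)
        fun D0 x h1 _ => h1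
  exact GRA_Ev_mono (GRA_Ev_all fun m => GRA_Ev_all fun j => key m j)
    fun D0 x h m j hmj y hy => h m j hmj y hy

end MPb51559.BG.Q
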