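import Pool.Agent.Work.MP_b51559_nt.BG.Q.Stmts

set_option autoImplicit false

/-!
# Item Q12 of block BG/Q: scaling in S2B
-/

namespace MPb51559.BG.Q

open Finset Filter Topology MeasureTheory
open scoped Classical

namespace I_Q12

theorem lam_smul {S : Finset ℕ} {k : ℕ} (a : ℕ → ℝ) (c : ℝ) (y : Co S k → ℝ) :
    lam a (fun r => c * y r) = fun d => c * lam a y d := by
  funext d
  unfold lam
  have : ∑ r ∈ univ.filter (fun r => Le d r), c * y r / mw (fun p => a p - 1) r =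
      c * ∑ r ∈ univ.filter (fun r => Le d r), y r / mw (fun p => a p - 1) r := by
    rw [Finset.mul_sum]
    apply Finset.sum_congr rfl
    intro r _
    ring
  rw [this]
  ring

theorem Vn_smul {S : Finset ℕ} {k : ℕ} (h : Fin k → ℕ) (c : ℝ) (l : Co S k → ℝ) (n : ℕ) :
    Vn h (fun d => c * l d) n = c * Vn h l n := by
  unfold Vn
  rw [Finset.mul_sum]

theorem S2_smul (w : ℝ → ℝ) {S : Finset ℕ} {k : ℕ} (h : Fin k → ℕ) (D0 v0 : ℕ) (x : ℝ)
    (m : Fin k) (c : ℝ) (l : Co S k → ℝ) :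
    S2 w h D0 v0 x m (fun d => c * l d) (fun d => c * l d) = c ^ 2 * S2 w h D0 v0 x m l l := by
  unfold S2
  rw [Finset.mul_sum]
  apply Finset.sum_congr rfl
  intro n _
  rw [Vn_smul]
  ring

theorem Qf_smul {S : Finset ℕ} {k : ℕ} (a : ℕ → ℝ) (c : ℝ) (l : Co S k → ℝ) :
    Qf a (fun d => c * l d) (fun d => c * l d) = c ^ 2 * Qf a l l := by
  unfold Qf
  rw [Finset.mul_sum]
  apply Finset.sum_congr rfl
  intro d _
  rw [Finset.mul_sum]
  apply Finset.sum_congr rfl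
  intro e _
  split_ifs
  · ring
  · ring

end I_Q12

theorem prq_Q12 (hS2B : C_S2B) : Q12 := by
  intro _ w hw k h hh δ hδ0 hδ C hC D0 hD0 hD
  obtain ⟨x0, hx0⟩ := hS2B w hw k h hh δ hδ0 hδ D0 hD0 hD
  refine ⟨x0, fun x hx v0 hv m y hy hs => ?_⟩
  have hC0 : (0 : ℝ) < C := by linarith
  have hCne : C ≠ 0 := hC0.ne'
  have key := hx0 x hx v0 hv m (fun r => C⁻¹ * y r) (fun r => C⁻¹ * y r) 1 1 zero_le_one
    zero_le_one (by norm_num) (fun r => by
      rw [abs_mul, abs_of_pos (inv_pos.mpr hC0), inv_mul_le_iff₀ hC0]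
      exact hy r) (fun r => by
      rw [abs_mul, abs_of_pos (inv_pos.mpr hC0), inv_mul_le_iff₀ hC0]
      exact hy r) (fun r hr => hs r (right_ne_zero_of_mul hr))
      (fun r hr => hs r (right_ne_zero_of_mul hr))
  rw [I_Q12.lam_smul, I_Q12.S2_smul, I_Q12.Qf_smul] at key
  have e : S2 w h D0 v0 x m (lam aF y) (lam aF y) -
      thW w x 1 0 / ((primorial D0).totient : ℝ) * Qf aF (lam aF y) (lam aF y) =
      C ^ 2 * (C⁻¹ ^ 2 * S2 w h D0 v0 x m (lam aF y) (lam aF y) -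
      thW w x 1 0 / ((primorial D0).totient : ℝ) * (C⁻¹ ^ 2 * Qf aF (lam aF y) (lam aF y))) := by
    field_simp
  rw [e, abs_mul, abs_of_nonneg (sq_nonneg C)]
  exact mul_le_mul_of_nonneg_left key (sq_nonneg C)

end MPb51559.BG.Q
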