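import Pool.Agent.Work.MP_b51559_nt.BG.Q.Stmts
import Pool.Agent.Work.MP_b51559_nt.BG.C.GRM
import Pool.Agent.Work.MP_b51559_nt.BG.C.Util

set_option autoImplicit false

/-!
# Block BG/Q, item Q13: the prime side of the extension
-/

namespace MPb51559.BG.Q

open Finset Filter Topology MeasureTheory
open scoped Classical

namespace I_Q13

/-- the extension variables are bounded by the double diagonal variables -/
theorem abs_yE_le (h1 : Q1) {S : Finset ℕ} {k : ℕ} (hS : ∀ p ∈ S, 2 < p) (R s : ℝ) (hR : 1 < R)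
    (hs : s < 1) (F : (Fin k → ℝ) → ℝ) (m j : Fin k) (u : Co S k) :
    |yE R s F m j u| ≤ |BB R F m j (dl j u)| := by
  have hZ : 1 ≤ R ^ (1 - s) := Real.one_le_rpow hR.le (by linarith)
  have hl : ∀ d : Co S k, rst j (lam aF (ym R F m)) d ≠ 0 → NoC j d := by
    intro d hd
    unfold rst at hd
    split_ifs at hd with h
    · exact h
    · exact absurd rfl hd
  exact (h1 S k j hS (rst j (lam aF (ym R F m))) (R ^ (1 - s)) hZ hl).2.1 u

/-- a bound for all the double norms -/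
theorem exists_bound {k : ℕ} (F : (Fin k → ℝ) → ℝ) (s : ℝ) (hs : s < 1) :
    ∃ G : ℝ, 0 ≤ G ∧ ∀ m j : Fin k, GG F m j / (1 - s) ≤ G := by
  have hs' : 0 < 1 - s := by linarith
  refine ⟨∑ m : Fin k, ∑ j : Fin k, |GG F m j / (1 - s)|,
    sum_nonneg fun m _ => sum_nonneg fun j _ => abs_nonneg _, fun m j => ?_⟩
  have e1 : |GG F m j / (1 - s)| ≤ ∑ j : Fin k, |GG F m j / (1 - s)| :=
    Finset.single_le_sum (f := fun j : Fin k => |GG F m j / (1 - s)|)
      (fun j _ => abs_nonneg _) (Finset.mem_univ j)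
  have e2 : ∑ j : Fin k, |GG F m j / (1 - s)| ≤
      ∑ m : Fin k, ∑ j : Fin k, |GG F m j / (1 - s)| :=
    Finset.single_le_sum (f := fun m : Fin k => ∑ j : Fin k, |GG F m j / (1 - s)|)
      (fun m _ => sum_nonneg fun j _ => abs_nonneg _) (Finset.mem_univ m)
  exact (le_abs_self _).trans (e1.trans e2)

/-- the final computation -/
theorem final (w : ℝ → ℝ) (hw : Wt w) (k D0 : ℕ) (δ x : ℝ) (hx : 0 < x)
    (hlR : 0 ≤ Real.log (Rx δ x)) {A G ε η Q : ℝ} (hA0 : 0 ≤ A) (hAG : A ≤ G) (hG : 0 ≤ G)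
    (hε : 0 < ε) (hη1 : η ≤ ∫ u, w u) (hη2 : η ≤ (∫ u, w u) * (ε / (3 * (G + 1))))
    (hth : |thW w x 1 0 / x - ∫ u, w u| < η)
    (hQ : Q ≤ lk D0 δ x ^ (k + 1) * (A + ε / 6)) :
    thW w x 1 0 / ((primorial D0).totient : ℝ) * Q ≤ Nn w k D0 δ x * (A + 2 * ε / 3) := by
  have hφ : (0 : ℝ) < ((primorial D0).totient : ℝ) := by
    exact_mod_cast Nat.totient_pos.mpr (primorial_pos D0)
  have hW : (0 : ℝ) < (primorial D0 : ℝ) := by exact_mod_cast primorial_pos D0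
  have hI := hw.pos
  have hth0 := GRM_th_nonneg w hw x
  have hlk0 : 0 ≤ lk D0 δ x := mul_nonneg (U.kap_pos D0).le hlR
  set q : ℝ := lk D0 δ x ^ k * Real.log (Rx δ x) / (primorial D0 : ℝ) with hq
  have hq0 : 0 ≤ q := by positivity
  have hlkq : thW w x 1 0 / ((primorial D0).totient : ℝ) * lk D0 δ x ^ (k + 1) =
      thW w x 1 0 * q := by
    rw [hq, pow_succ]
    have : lk D0 δ x = ((primorial D0).totient : ℝ) / (primorial D0 : ℝ) *
        Real.log (Rx δ x) := rfl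
    rw [mul_comm (lk D0 δ x ^ k) (lk D0 δ x)]
    nth_rewrite 1 [this]
    field_simp
  have hNq : Nn w k D0 δ x = x * (∫ u, w u) * q := by
    unfold Nn
    rw [hq]
    ring
  have hthx : thW w x 1 0 ≤ x * ((∫ u, w u) + η) := by
    have h1 := (abs_lt.mp hth).2
    have h2 : thW w x 1 0 / x ≤ (∫ u, w u) + η := by linarith
    rw [div_le_iff₀ hx] at h2
    linarith
  have hc : 0 ≤ thW w x 1 0 / ((primorial D0).totient : ℝ) := div_nonneg hth0 hφ.le
  calc thW w x 1 0 / ((primorial D0).totient : ℝ) * Q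
      ≤ thW w x 1 0 / ((primorial D0).totient : ℝ) * (lk D0 δ x ^ (k + 1) * (A + ε / 6)) :=
        mul_le_mul_of_nonneg_left hQ hc
    _ = thW w x 1 0 * (q * (A + ε / 6)) := by rw [← mul_assoc, hlkq, mul_assoc]
    _ ≤ x * ((∫ u, w u) + η) * (q * (A + ε / 6)) :=
        mul_le_mul_of_nonneg_right hthx (mul_nonneg hq0 (by linarith))
    _ ≤ Nn w k D0 δ x * (A + 2 * ε / 3) := by
        rw [hNq]
        have hxq : 0 ≤ x * q := mul_nonneg hx.le hq0
        have key : ((∫ u, w u) + η) * (A + ε / 6) ≤ (∫ u, w u) * (A + 2 * ε / 3) := by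
          have e1 : η * A ≤ (∫ u, w u) * (ε / 3) := by
            have h9 : η * A ≤ (∫ u, w u) * (ε / (3 * (G + 1))) * (G + 1) :=
              mul_le_mul hη2 (by linarith) hA0 (by positivity)
            have h10 : (∫ u, w u) * (ε / (3 * (G + 1))) * (G + 1) = (∫ u, w u) * (ε / 3) := by
              have : G + 1 ≠ 0 := by linarith
              field_simp
            linarith
          have e2 : η * (ε / 6) ≤ (∫ u, w u) * (ε / 6) :=
            mul_le_mul_of_nonneg_right hη1 (by linarith)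
          nlinarith
        nlinarith [mul_le_mul_of_nonneg_left key hxq]

end I_Q13

theorem prq_Q13 (h1 : Q1) (h4 : Q4) (h6 : Q6) (h9 : Q9) (h11 : Q11) (h12 : Q12) : Q13 := by
  intro hBV hPNT w hw k h hinj s F hs0 hs1 hF δ hδ hδ8 ε hε
  obtain ⟨C, hC0, hB6⟩ := h6 k s F hs0 hs1 hF δ hδ hδ8
  have hI := hw.pos
  have hs' : 0 < 1 - s := by linarith
  obtain ⟨G, hG0, hGG⟩ := I_Q13.exists_bound F s hs1
  set C' : ℝ := max C 1 with hC'
  have hC1 : 1 ≤ C' := le_max_right _ _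
  have hCC : C ≤ C' := le_max_left _ _
  set η : ℝ := min (∫ u, w u) ((∫ u, w u) * (ε / (3 * (G + 1)))) with hη
  have hηpos : 0 < η := lt_min hI (by positivity)
  have hη1 : η ≤ ∫ u, w u := min_le_left _ _
  have hη2 : η ≤ (∫ u, w u) * (ε / (3 * (G + 1))) := min_le_right _ _
  have E1 := hB6 1 one_pos
  have E2 := h11 k s F hs0 hs1 hF δ hδ hδ8 (ε / 6) (by positivity)
  set D1 : ℕ := max 3 (∑ i, h i) with hD1
  have hhD : ∀ D0 ≥ D1, ∀ i, h i ≤ D0 := fun D0 hD i =>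
    le_trans (Finset.single_le_sum (fun j _ => Nat.zero_le (h j)) (Finset.mem_univ i))
      (le_trans (le_max_right _ _) hD)
  have E3 : Ev fun D0 x => 3 ≤ D0 ∧ 1 < x ∧ x / Real.log x ≤ ε / (3 * C' ^ 2) * Nn w k D0 δ x ∧
      |thW w x 1 0 / x - ∫ u, w u| < η ∧
      (∀ v0 : ℕ, (∀ i, (v0 + h i).Coprime (primorial D0)) →
        ∀ (m : Fin k) (y : Co (Sx D0 x) k → ℝ), (∀ r, |y r| ≤ C' * Real.log x ^ 2) →
        (∀ r, y r ≠ 0 → NoC m r ∧ sz (Rx δ x) r ≤ 1) →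
        |S2 w h D0 v0 x m (lam aF y) (lam aF y) -
          thW w x 1 0 / ((primorial D0).totient : ℝ) * Qf aF (lam aF y) (lam aF y)| ≤
          C' ^ 2 * (x / Real.log x)) := by
    refine GRM_Ev_of D1 fun D0 hD => ?_
    have hD3 : 3 ≤ D0 := le_trans (le_max_left _ _) hD
    obtain ⟨x0, hx0⟩ := h12 hBV w hw k h hinj δ hδ hδ8 C' hC1 D0 hD3 (hhD D0 hD)
    filter_upwards [eventually_ge_atTop x0, eventually_gt_atTop (1 : ℝ),
      GRM_small w hw k D0 δ hδ8 (ε / (3 * C' ^ 2)) (by positivity),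
      (Metric.tendsto_nhds.mp (hPNT w hw)) η hηpos] with x h1 h2 h5 h6
    refine ⟨hD3, h2, h5, ?_, fun v0 hv => hx0 x h1 v0 hv⟩
    rwa [Real.dist_eq] at h6
  refine GRM_Ev_mono (GRM_Ev_and E1 (GRM_Ev_and E2 E3)) ?_
  rintro D0 x ⟨hA, hB, hD3, hx, hsm, hth, hS⟩ v0 hv0 m j hmj y rfl
  have hx0 : 0 < x := by linarith
  have hR : 1 < Rx δ x := U.Rx_gt_one δ x hδ8 hx
  have hSx : ∀ p ∈ Sx D0 x, p.Prime ∧ 2 < p := fun p hp =>
    ⟨(U.Sx_prime hp).1, by have := (U.Sx_prime hp).2.1; omega⟩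
  have hlk0 : 0 ≤ lk D0 δ x := (U.lk_pos D0 δ x hδ8 hx).le
  have hlkl : lk D0 δ x ≤ Real.log x := U.lk_le_log D0 δ x hδ.le hx
  have hbd : ∀ r : Co (Sx D0 x) k, |yE (Rx δ x) s F m j r| ≤ C' * Real.log x ^ 2 := by
    intro r
    refine (I_Q13.abs_yE_le h1 (fun p hp => (hSx p hp).2) (Rx δ x) s hR hs1 F m j r).trans ?_
    refine ((hA m j hmj (dl j r)).1).trans ?_
    exact mul_le_mul hCC (pow_le_pow_left₀ hlk0 hlkl 2) (by positivity) (by linarith)
  have hsp : ∀ r : Co (Sx D0 x) k, yE (Rx δ x) s F m j r ≠ 0 →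
      NoC m r ∧ sz (Rx δ x) r ≤ 1 := by
    intro r hr
    obtain ⟨e1, _, e3⟩ := (h4 (Sx D0 x) k s (Rx δ x) F hSx hs0 hs1 hR hF m j hmj).2.2 r hr
    exact ⟨e1, e3⟩
  have hS2 := hS v0 hv0 m (yE (Rx δ x) s F m j) hbd hsp
  have hQ := hB m j hmj (yE (Rx δ x) s F m j) rfl
  have hA0 : 0 ≤ GG F m j / (1 - s) := div_nonneg (h9 k s F hs0 hs1 hF m j hmj).1 hs'.le
  have hfin := I_Q13.final w hw k D0 δ x hx0 (Real.log_pos hR).le hA0 (hGG m j) hG0 hε
    hη1 hη2 hth hQ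
  have hsm' : C' ^ 2 * (x / Real.log x) ≤ ε / 3 * Nn w k D0 δ x := by
    have hC2 : 0 < C' ^ 2 := by positivity
    calc C' ^ 2 * (x / Real.log x) ≤ C' ^ 2 * (ε / (3 * C' ^ 2) * Nn w k D0 δ x) :=
          mul_le_mul_of_nonneg_left hsm hC2.le
      _ = ε / 3 * Nn w k D0 δ x := by field_simp
  have h10 := (abs_le.mp hS2).2
  have h11 : Nn w k D0 δ x * (GG F m j / (1 - s) + ε) =
      Nn w k D0 δ x * (GG F m j / (1 - s) + 2 * ε / 3) + ε / 3 * Nn w k D0 δ x := by ring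
  rw [h11]
  linarith

end MPb51559.BG.Q
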