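import Pool.Agent.Work.MP_b51559_nt.BG.Q.Stmts
import Pool.Agent.Work.MP_b51559_nt.BG.C.RS

set_option autoImplicit false

/-! # Block BG/Q, item Q14 -/

namespace MPb51559.BG.Q

open Finset Filter Topology MeasureTheory
open scoped Classical

namespace I_Q14

theorem tm_nonneg {w : ℝ → ℝ} (hw : Wt w) {k : ℕ} (h : Fin k → ℕ) (x : ℝ) (m : Fin k) (n : ℕ) :
    0 ≤ tm w h x m n := by
  unfold tm
  split_ifs with hp
  · refine mul_nonneg (Real.log_nonneg ?_) (hw.nonneg _)
    have := hp.one_lt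
    have h1 : (1 : ℝ) < ((n + h m : ℕ) : ℝ) := by exact_mod_cast this
    push_cast at h1
    linarith
  · exact le_refl 0

end I_Q14

theorem prq_Q14 : Q14 := by
  intro w hw k h
  refine ⟨8 * (∑ i, (h i : ℝ)) + 8, fun x hx D0 v0 m j l l' => ?_⟩
  have hH0 : ∀ i, (0 : ℝ) ≤ h i := fun i => Nat.cast_nonneg _
  have hHs : ∀ i, (h i : ℝ) ≤ ∑ j, (h j : ℝ) := fun i =>
    Finset.single_le_sum (f := fun j => (h j : ℝ)) (fun j _ => hH0 j) (mem_univ i)
  have hsum0 : 0 ≤ ∑ j, (h j : ℝ) := sum_nonneg fun j _ => hH0 j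
  have hx1 : 1 ≤ x := by linarith
  have hx0 : 0 < x := by linarith
  have key : ∀ (n : ℕ) (l : Co (Sx D0 x) k → ℝ), tm w h x m n ≠ 0 → (n + h j).Prime →
      Vn h l n = Vn h (rst j (rst m l)) n := by
    intro n l hn hj
    obtain ⟨hp, hlt⟩ := RS_tm hw h x hx1 m n hn
    have h9 : 9 / 8 * x < (n : ℝ) + h m := by
      unfold tm at hn
      rw [if_pos hp] at hn
      have h1 := hw.supp _ (right_ne_zero_of_mul hn)
      exact (lt_div_iff₀ hx0).1 h1.1
    have hn1 : x < n := by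
      have := hHs m
      linarith
    have hS1 : ∀ p ∈ Sx D0 x, 1 < p ∧ p < n + h m := by
      intro p hpS
      obtain ⟨h1, _, h3⟩ := RS_Sx D0 x p hpS
      refine ⟨h1.one_lt, ?_⟩
      have : (p : ℝ) < ((n + h m : ℕ) : ℝ) := by
        push_cast
        linarith
      exact_mod_cast this
    have hS2 : ∀ p ∈ Sx D0 x, 1 < p ∧ p < n + h j := by
      intro p hpS
      obtain ⟨h1, _, h3⟩ := RS_Sx D0 x p hpS
      refine ⟨h1.one_lt, ?_⟩
      have : (p : ℝ) < ((n + h j : ℕ) : ℝ) := by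
        push_cast
        have := hH0 j
        linarith
      exact_mod_cast this
    rw [RS_Vn h m n hp hS1 l, RS_Vn h j n hj hS2 (rst m l)]
  refine ⟨fun hll => ?_, ?_, ?_⟩
  · unfold S2P
    refine Finset.sum_congr rfl fun n _ => ?_
    by_cases hn : tm w h x m n = 0
    · rw [hn, zero_mul, zero_mul]
    · by_cases hj : (n + h j).Prime
      · rw [key n l hn hj, key n l' hn hj, hll]
      · rw [if_neg hj, zero_mul, zero_mul]
  · unfold S2P
    refine Finset.sum_nonneg fun n _ => ?_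
    refine mul_nonneg (I_Q14.tm_nonneg hw h x m n) (mul_nonneg ?_ (sq_nonneg _))
    split_ifs <;> norm_num
  · unfold S2P S2
    refine Finset.sum_le_sum fun n _ => ?_
    refine mul_le_mul_of_nonneg_left ?_ (I_Q14.tm_nonneg hw h x m n)
    rw [← pow_two]
    split_ifs
    · rw [one_mul]
    · rw [zero_mul]; exact sq_nonneg _

end MPb51559.BG.Q
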