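import Pool.Agent.Work.MP_b51559_nt.BG.Q.Stmts

set_option autoImplicit false

/-! # Block BG/Q, item Q15: the pair bound -/

namespace MPb51559.BG.Q

open Finset Filter Topology MeasureTheory
open scoped Classical

namespace I_Q15

theorem rst_comm {S : Finset ℕ} {k : ℕ} (m j : Fin k) (l : Co S k → ℝ) :
    rst j (rst m l) = rst m (rst j l) := by
  funext d
  unfold rst
  by_cases h1 : NoC j d <;> by_cases h2 : NoC m d <;> simp [h1, h2]

theorem rst_idem {S : Finset ℕ} {k : ℕ} (m : Fin k) (l : Co S k → ℝ) :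
    rst m (rst m l) = rst m l := by
  funext d
  unfold rst
  by_cases h2 : NoC m d <;> simp [h2]

end I_Q15

open I_Q15 in
theorem prq_Q15 (hINV : C_INV) (h1 : Q1) (h13 : Q13) (h14 : Q14) : Q15 := by
  intro hBV hPNT w hw k h hinj s F hs0 hs1 hF δ hδ0 hδ ε hε
  obtain ⟨D1, hD1⟩ := h13 hBV hPNT w hw k h hinj s F hs0 hs1 hF δ hδ0 hδ ε hε
  obtain ⟨x1, hx1⟩ := h14 w hw k h
  refine ⟨max D1 2, fun D0 hD0 => ?_⟩
  obtain ⟨x2, hx2⟩ := hD1 D0 (le_trans (le_max_left _ _) hD0)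
  have hD2 : 2 ≤ D0 := le_trans (le_max_right _ _) hD0
  refine ⟨max (max x1 x2) 1, fun x hx v0 hv0 m j hmj l hl => ?_⟩
  have hxa : x1 ≤ x := le_trans (le_trans (le_max_left _ _) (le_max_left _ _)) hx
  have hxb : x2 ≤ x := le_trans (le_trans (le_max_right _ _) (le_max_left _ _)) hx
  have hxc : 1 ≤ x := le_trans (le_max_right _ _) hx
  have hS : ∀ p ∈ Sx D0 x, 2 < p := by
    intro p hp
    have := (Finset.mem_filter.1 hp).2.2
    omega
  have hSF : ∀ p ∈ Sx D0 x, aF p ≠ 0 ∧ aF p - 1 ≠ 0 := by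
    intro p hp
    have h2 : (2 : ℝ) < (p : ℝ) := by exact_mod_cast hS p hp
    unfold aF
    exact ⟨by linarith, by linarith⟩
  have hR : 1 ≤ Rx δ x := Real.one_le_rpow hxc (by linarith)
  have hZ : 1 ≤ Rx δ x ^ (1 - s) := Real.one_le_rpow hR (by linarith)
  have e1 : lam aF (ym (Rx δ x) F m) = rst m l := by
    rw [hl]
    exact (hINV (Sx D0 x) k aF hSF (rst m (lam aP (yF (Rx δ x) F)))).2
  have e2 : rst j (lam aF (ym (Rx δ x) F m) : Co (Sx D0 x) k → ℝ) = rst j (rst m l) := by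
    rw [e1]
  have hy : yE (Rx δ x) s F m j = yex j (Rx δ x ^ (1 - s)) (rst j (rst m l)) := by
    unfold yE
    rw [e2]
  have hno : ∀ d, rst j (rst m l) d ≠ 0 → NoC j d := by
    intro d hd
    by_contra hc
    apply hd
    unfold rst
    rw [if_neg hc]
  have hext := (h1 (Sx D0 x) k j hS (rst j (rst m l)) (Rx δ x ^ (1 - s)) hZ hno).1
  rw [← hy] at hext
  have e3 : rst j (rst m l) =
      rst j (rst m (lam aF (yE (Rx δ x) s F m j : Co (Sx D0 x) k → ℝ))) := by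
    rw [rst_comm m j (lam aF (yE (Rx δ x) s F m j : Co (Sx D0 x) k → ℝ)), hext,
      rst_comm m j l, rst_idem]
  have e4 := (hx1 x hxa D0 v0 m j l (lam aF (yE (Rx δ x) s F m j))).1 e3
  have e5 := (hx1 x hxa D0 v0 m j (lam aF (yE (Rx δ x) s F m j : Co (Sx D0 x) k → ℝ))
    (lam aF (yE (Rx δ x) s F m j))).2.2
  rw [e4]
  exact e5.trans (hx2 x hxb v0 hv0 m j hmj _ rfl)

end MPb51559.BG.Q
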