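import Pool.Agent.Work.MP_b51559_nt.BG.Q.Stmts
import Pool.Agent.Work.MP_b51559_nt.BG.C.All

set_option autoImplicit false

/-! # Block BG/Q, item Q16: the first moment -/

namespace MPb51559.BG.Q

open Finset Filter Topology MeasureTheory
open scoped Classical

namespace I_Q16

/-- the slice data without slices -/
noncomputable def P0 (s : ℝ) : Sl := ⟨(3 - s) / 2, 0, fun _ => 0, fun _ => 0⟩

theorem P0_ok {s : ℝ} (h0 : 0 < s) (h1 : s < 1) : (P0 s).Ok where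
  hT1 := by simp only [P0]; linarith
  hT2 := by simp only [P0]; linarith
  z0 := rfl
  zmono := by intro l hl; simp [P0] at hl
  zT := by simp only [P0]; linarith
  Lpos := by intro l hl; simp [P0] at hl
  Lmono := by intro l hl; simp [P0] at hl

theorem tst_mono {k : ℕ} {s T : ℝ} {F : (Fin k → ℝ) → ℝ} (h : Tst k s F) (hT : s ≤ T) : Tst k T F where
  meas := h.meas
  supp := fun t ht => ⟨(h.supp t ht).1, (h.supp t ht).2.trans hT⟩
  bdd := h.bdd
  bv := h.bv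

theorem Jm_eq {k : ℕ} {s : ℝ} {F : (Fin k → ℝ) → ℝ} (h0 : 0 < s) (h1 : s < 1) (hF : Tst k s F)
    (m : Fin k) : Jm (P0 s) F m = JJ F m := by
  obtain ⟨M, V, hM, hmg⟩ := prf_MG k s F h0 hF
  obtain ⟨hmeas, hb, hc, hsupp, hv⟩ := hmg m
  unfold Jm JJ
  rw [← integral_indicator]
  · refine integral_congr_ae (Eventually.of_forall fun t => ?_)
    simp only [cutm, Set.indicator, Set.mem_setOf_eq]
    split_ifs with ht
    · by_cases hz : marg F m t = 0
      · rw [hz]; simp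
      · have h2 := (hsupp t hz).2
        have : (P0 s).rho (∑ j ∈ univ.erase m, t j) = 1 := by
          unfold Sl.rho
          rw [if_pos]
          simp only [P0]
          linarith
        rw [this, one_mul]
    · rfl
  · exact (measurableSet_le measurable_const (measurable_pi_apply m)).inter
      (measurableSet_lt (measurable_pi_apply m) measurable_const)

end I_Q16

theorem prq_Q16 : Q16 := by
  intro hBV hP w hw k h hk0 hinj s F hs0 hs1 hF
  have hOk := I_Q16.P0_ok hs0 hs1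
  have hF' : Tst k (I_Q16.P0 s).T F := I_Q16.tst_mono hF (by simp only [I_Q16.P0]; linarith)
  have h1 : S1Concl w h F := all_S1A w hw k h hk0 hinj (I_Q16.P0 s).T F hOk.hT1 hOk.hT2 hF'
  have h2 : UppConcl w h F := all_KB w hw k h hk0 hinj (I_Q16.P0 s).T F hOk.hT1 hOk.hT2 hF'
  have h3 : GramConcl w h F := all_GRM hBV hP w hw k h hk0 hinj (I_Q16.P0 s).T F hOk.hT1 hOk.hT2 hF'
  have h4 : YmConcl (I_Q16.P0 s).T F := by
    intro δ hδ0 hδ1
    obtain ⟨C, _, hC⟩ := all_YM k (I_Q16.P0 s).T F hOk.hT1 hOk.hT2 hF' δ hδ0 hδ1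
    obtain ⟨D1, hD1⟩ := hC 1 one_pos
    refine ⟨D1, fun D0 hD0 => ?_⟩
    obtain ⟨x0, hx0⟩ := hD1 D0 hD0
    exact ⟨x0, fun x hx m r => (hx0 x hx m r).2.1⟩
  have h5 : S2Concl w h (I_Q16.P0 s) F := prf_S2A prf_INV prf_RS prf_DEC prf_LIN prf_AL prf_ALD
    (prf_GII prf_MG) (prf_JD prf_MG) w hw k h hk0 (I_Q16.P0 s) F hOk hF' h3 h2 h4
  refine ⟨?_, h1⟩
  intro ε hε
  obtain ⟨δ1, hδ1, hδ2, H⟩ := h5 ε hε
  refine ⟨δ1, hδ1, hδ2, fun δ hδ hδ' => ?_⟩
  obtain ⟨D1, hD1⟩ := H δ hδ hδ'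
  refine ⟨D1, fun D0 hD0 => ?_⟩
  obtain ⟨x0, hx0⟩ := hD1 D0 hD0
  refine ⟨x0, fun x hx v0 hv0 m l hl => ?_⟩
  have := hx0 x hx v0 hv0 m l hl
  rwa [I_Q16.Jm_eq hs0 hs1 hF m] at this

end MPb51559.BG.Q
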