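import Pool.Agent.Work.MP_b51559_nt.BG.Q.Stmts
import Pool.Agent.Work.MP_b51559_nt.BG.C.UPB

set_option autoImplicit false

/-! # Block BG/Q, item Q17: the second moment inequality -/

namespace MPb51559.BG.Q

open Finset Filter Topology MeasureTheory
open scoped Classical

namespace I_Q17

theorem tm_nonneg {w : ℝ → ℝ} (hw : Wt w) {k : ℕ} (h : Fin k → ℕ) (x : ℝ) (m : Fin k) (n : ℕ) :
    0 ≤ tm w h x m n := by
  unfold tm
  split_ifs with hp
  · refine mul_nonneg (Real.log_nonneg ?_) (hw.nonneg _)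
    have := hp.one_lt
    have h1 : (1 : ℝ) < ((n + h m : ℕ) : ℝ) := by exact_mod_cast this
    push_cast at h1
    linarith
  · exact le_refl 0

/-- the exact pointwise inequality -/
theorem point {k : ℕ} (a χ : Fin k → ℝ) (A μ : ℝ) (hA : 0 ≤ A) (ha0 : ∀ m, 0 ≤ a m)
    (haA : ∀ m, a m ≤ A) (hχ : ∀ m, χ m = 0 ∨ χ m = 1) (hχa : ∀ m, a m ≠ 0 → χ m = 1) :
    (2 * μ - 1) * (∑ m, a m) - μ ^ 2 * A ≤ ∑ m, ∑ j, if m ≠ j then a m * χ j else 0 := by
  have hmul : ∀ m, a m * χ m = a m := by
    intro m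
    by_cases h : a m = 0
    · rw [h, zero_mul]
    · rw [hχa m h, mul_one]
  have e1 : ∑ m, ∑ j, (if m ≠ j then a m * χ j else 0) = (∑ m, a m) * (∑ j, χ j) - ∑ m, a m := by
    have : ∀ m, ∑ j, (if m ≠ j then a m * χ j else 0) = a m * (∑ j, χ j) - a m := by
      intro m
      have h1 : ∀ j, (if m ≠ j then a m * χ j else 0) = a m * χ j - if m = j then a m * χ j else 0 := by
        intro j
        by_cases h : m = j <;> simp [h]
      rw [sum_congr rfl fun j _ => h1 j, sum_sub_distrib, ← mul_sum]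
      simp [hmul m]
    rw [sum_congr rfl fun m _ => this m, sum_sub_distrib, ← sum_mul]
  rw [e1]
  have hχ0 : ∀ m, 0 ≤ χ m := fun m => by rcases hχ m with h | h <;> rw [h] <;> norm_num
  have hTX : ∑ m, a m ≤ A * ∑ j, χ j := by
    rw [mul_sum]
    refine sum_le_sum fun m _ => ?_
    rcases hχ m with h | h
    · by_cases h2 : a m = 0
      · rw [h2]; exact mul_nonneg hA (hχ0 m)
      · have := hχa m h2; rw [h] at this; norm_num at this
    · rw [h, mul_one]; exact haA m
  have hT0 : 0 ≤ ∑ m, a m := sum_nonneg fun m _ => ha0 m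
  have hX0 : 0 ≤ ∑ j, χ j := sum_nonneg fun m _ => hχ0 m
  set T := ∑ m, a m with hT
  set X := ∑ j, χ j with hX
  rcases hA.eq_or_lt with hA0 | hApos
  · have : T = 0 := le_antisymm (by rw [← hA0, zero_mul] at hTX; exact hTX) hT0
    rw [this, ← hA0]; simp
  · -- T X ≥ T^2 / A ≥ 2 μ T - μ^2 A
    have h1 : T ^ 2 ≤ A * (T * X) := by nlinarith
    have h2 : (2 * μ * T - μ ^ 2 * A) * A ≤ A * (T * X) := by nlinarith [sq_nonneg (T - μ * A)]
    have h3 : 2 * μ * T - μ ^ 2 * A ≤ T * X := by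
      have : A * (2 * μ * T - μ ^ 2 * A) ≤ A * (T * X) := by linarith
      exact le_of_mul_le_mul_left this hApos
    linarith

end I_Q17

theorem prq_Q17 : Q17 := by
  intro w hw k h hk
  refine ⟨1, fun x hx D0 v0 S l μ => ?_⟩
  have hlog : 0 ≤ Real.log (2 * x) := Real.log_nonneg (by linarith)
  have hS2 : ∑ m, S2 w h D0 v0 x m l l =
      ∑ n ∈ (range (⌊2 * x⌋₊ + 1)).filter (fun n => n ≡ v0 [MOD primorial D0]),
        (∑ m, tm w h x m n) * (Vn h l n * Vn h l n) := by
    simp only [S2, sum_mul]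
    rw [sum_comm]
  have hS2P : (∑ m, ∑ j, if m ≠ j then S2P w h D0 v0 x m j l else 0) =
      ∑ n ∈ (range (⌊2 * x⌋₊ + 1)).filter (fun n => n ≡ v0 [MOD primorial D0]),
        (∑ m, ∑ j, if m ≠ j then tm w h x m n * (if (n + h j).Prime then 1 else 0) else 0) *
          (Vn h l n * Vn h l n) := by
    have : ∀ m j, (if m ≠ j then S2P w h D0 v0 x m j l else 0) =
        ∑ n ∈ (range (⌊2 * x⌋₊ + 1)).filter (fun n => n ≡ v0 [MOD primorial D0]),
          (if m ≠ j then tm w h x m n * (if (n + h j).Prime then 1 else 0) else 0) *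
            (Vn h l n * Vn h l n) := by
      intro m j
      by_cases hmj : m ≠ j
      · rw [if_pos hmj, S2P]
        refine sum_congr rfl fun n _ => ?_
        rw [if_pos hmj]; ring
      · rw [if_neg hmj]
        symm
        refine sum_eq_zero fun n _ => ?_
        rw [if_neg hmj, zero_mul]
    simp only [this, sum_mul]
    rw [sum_congr rfl fun m _ => sum_comm, sum_comm]
  rw [hS2, hS2P, S1, mul_sum, mul_sum, mul_sum, ← sum_sub_distrib]
  refine sum_le_sum fun n _ => ?_
  have hV : 0 ≤ Vn h l n * Vn h l n := mul_self_nonneg _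
  have hwp0 : 0 ≤ wp w h x n := (hw.nonneg _).trans (UPB_wp_ge w h x n ⟨0, hk⟩)
  have key := I_Q17.point (fun m => tm w h x m n) (fun j => if (n + h j).Prime then (1 : ℝ) else 0)
    (Real.log (2 * x) * wp w h x n) μ (mul_nonneg hlog hwp0) (fun m => I_Q17.tm_nonneg hw h x m n)
    (fun m => UPB_tm_le w hw h x hx m n)
    (fun m => by by_cases h1 : (n + h m).Prime <;> simp [h1])
    (fun m hm => by
      have h1 : (n + h m).Prime := by
        by_contra hc
        apply hm
        simp [tm, hc]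
      simp [h1])
  have := mul_le_mul_of_nonneg_right key hV
  calc _ = ((2 * μ - 1) * (∑ m, tm w h x m n) - μ ^ 2 * (Real.log (2 * x) * wp w h x n)) *
        (Vn h l n * Vn h l n) := by ring
    _ ≤ _ := this

end MPb51559.BG.Q
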