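import Pool.Agent.Work.MP_b51559_nt.BG.Q.Stmts

set_option autoImplicit false

/-! # Block BG/Q, item Q18 -/

namespace MPb51559.BG.Q

open Finset Filter Topology MeasureTheory
open scoped Classical

theorem prq_Q18 : Q18 := by
  intro w hw k h
  refine ⟨8 * (∑ i, (h i : ℝ)) + 8, fun x hx D0 v0 S l m j hS => ?_⟩
  have hH0 : ∀ i, (0 : ℝ) ≤ h i := fun i => Nat.cast_nonneg _
  have hHs : ∀ i, (h i : ℝ) ≤ ∑ j, (h j : ℝ) := fun i =>
    Finset.single_le_sum (f := fun j => (h j : ℝ)) (fun j _ => hH0 j) (mem_univ i)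
  have hsum0 : 0 ≤ ∑ j, (h j : ℝ) := sum_nonneg fun j _ => hH0 j
  have hx0 : 0 < x := by linarith
  unfold S2P at hS
  obtain ⟨n, hn, hne⟩ := exists_ne_zero_of_sum_ne_zero hS
  rw [mem_filter] at hn
  have htm : tm w h x m n ≠ 0 := left_ne_zero_of_mul hne
  have hj : (n + h j).Prime := by
    by_contra hc
    apply hne
    rw [if_neg hc, zero_mul, mul_zero]
  unfold tm at htm
  split_ifs at htm with hp
  · have h1 := hw.supp _ (right_ne_zero_of_mul htm)
    have h9 := (lt_div_iff₀ hx0).1 h1.1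
    have h15 := (div_lt_iff₀ hx0).1 h1.2
    refine ⟨n, hn.2, ?_, fun i => ?_, hp, hj⟩
    · have := hHs m
      linarith
    · have h1 := hHs i
      have h2 := hH0 m
      linarith
  · exact absurd rfl htm

end MPb51559.BG.Q
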