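import Pool.Agent.Work.MP_b51559_nt.BG.Q.Stmts
import Pool.Agent.Work.MP_b51559_nt.BG.C.VLR

set_option autoImplicit false

/-!
# Block BG/Q, item Q2: lower bound for the normaliser
-/

namespace MPb51559.BG.Q

open Finset Filter Topology MeasureTheory
open scoped Classical

namespace I_Q2

variable {S : Finset ℕ} {k : ℕ}

theorem nrm_eq (j : Fin k) (u : Co S k) : nrm u = nrm (dl j u) * prt j u := by
  unfold nrm prt dl
  rw [← Finset.prod_mul_distrib]
  refine Finset.prod_congr rfl fun p _ => ?_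
  by_cases h : u p = some j
  · rw [if_pos h, if_pos h, if_pos rfl, if_neg (by rw [h]; simp), one_mul]
  · rw [if_neg h, if_neg h, mul_one]

theorem sum_prt (j : Fin k) (Z : ℝ) (r : Co S k) (hr : NoC j r) (h0 : (0 : ℝ) < nrm r)
    (G : Co S k → ℝ) :
    ∑ u ∈ univ.filter (fun u : Co S k => dl j u = r ∧ (prt j u : ℝ) ≤ Z), G u =
      ∑ T ∈ (VLRz.Un r).powerset.filter (VLRz.DD Z), G (VLRz.up j r T) := by
  have h1 := VLRz.sum_up j (Z * nrm r) r hr h0 G
  rw [mul_div_cancel_right₀ _ h0.ne'] at h1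
  rw [← h1]
  refine Finset.sum_congr ?_ fun _ _ => rfl
  refine Finset.filter_congr fun u _ => ?_
  refine and_congr_right fun hu => ?_
  rw [nrm_eq j u, hu, Nat.cast_mul, mul_comm (nrm r : ℝ)]
  exact (mul_le_mul_iff_left₀ h0).symm

end I_Q2

open I_Q2 in
/-- Item Q2. -/
theorem prq_Q2 : Q2 := by
  intro S k j hS Z hZ r hr
  have hp1 : ∀ p : {p // p ∈ S}, (2 : ℝ) < ((p : ℕ) : ℝ) := fun p => by
    exact_mod_cast (hS p.1 p.2).2
  have h0 : (0 : ℝ) < nrm r := by
    have : 0 < nrm r := by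
      unfold nrm
      refine Finset.prod_pos fun p _ => ?_
      split_ifs
      · exact one_pos
      · exact (hS p.1 p.2).1.pos
    exact_mod_cast this
  have hf : ∀ p : {p // p ∈ S}, 0 ≤ 1 / (((p : ℕ) : ℝ) - 1) := fun p =>
    div_nonneg zero_le_one (by linarith [hp1 p])
  have hf2 : ∀ p : {p // p ∈ S}, 0 ≤ 1 / (((p : ℕ) : ℝ) - 2) := fun p =>
    div_nonneg zero_le_one (by linarith [hp1 p])
  have hD : ∀ A B : Finset {p // p ∈ S}, A ⊆ B → VLRz.DD Z B → VLRz.DD Z A :=
    fun A B hAB hB => VLRz.DD_mono (fun p hp => (hS p hp).1) hAB hB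
  have hmw0 : ∀ u : Co S k, mw (fun p => aF p - 1) u ≠ 0 := by
    intro u
    unfold mw
    refine Finset.prod_ne_zero_iff.2 fun p _ => ?_
    split_ifs
    · exact one_ne_zero
    · unfold aF
      have := hp1 p
      intro h
      linarith
  have hratio : ∀ T : Finset {p // p ∈ S}, T ⊆ VLRz.Un r →
      mw (fun p => aF p - 1) r / mw (fun p => aF p - 1) (VLRz.up j r T) =
      ∏ p ∈ T, 1 / (((p : ℕ) : ℝ) - 2) := by
    intro T hT
    rw [VLRz.mw_up j (fun p => aF p - 1) r T hT, div_mul_cancel_left₀ (hmw0 r),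
      Finset.prod_div_distrib, Finset.prod_const_one, one_div]
    congr 1
    refine Finset.prod_congr rfl fun p _ => ?_
    unfold aF
    ring
  have hcp : cps j Z r = ∑ T ∈ (VLRz.Un r).powerset.filter (VLRz.DD Z),
      ∏ p ∈ T, 1 / (((p : ℕ) : ℝ) - 2) := by
    unfold cps
    rw [sum_prt j Z r hr h0 (fun u => mw (fun p => aF p - 1) r / mw (fun p => aF p - 1) u)]
    refine Finset.sum_congr rfl fun T hT => ?_
    rw [Finset.mem_filter, Finset.mem_powerset] at hT
    exact hratio T hT.1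
  constructor
  · rw [hcp]
    have h1 : (∅ : Finset {p // p ∈ S}) ∈ (VLRz.Un r).powerset.filter (VLRz.DD Z) := by
      rw [Finset.mem_filter]
      refine ⟨Finset.empty_mem_powerset _, ?_⟩
      unfold VLRz.DD
      rw [Finset.prod_empty]
      exact hZ
    refine le_trans (le_of_eq ?_) (Finset.single_le_sum
      (f := fun T : Finset {p // p ∈ S} => ∏ p ∈ T, 1 / (((p : ℕ) : ℝ) - 2))
      (fun T _ => Finset.prod_nonneg fun p _ => hf2 p) h1)
    rw [Finset.prod_empty]
  · refine (VLRz.Hs_le (fun p hp => (hS p hp).1) _).trans ?_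
    refine (VLRz.absA (VLRz.DD Z) hD (VLRz.Un r)
      (fun p => 1 / (((p : ℕ) : ℝ) - 1)) hf).trans ?_
    have h1 : mw (fun p => 1 + 1 / ((p : ℝ) - 1)) r =
        ∏ p ∈ (VLRz.Un r)ᶜ, (1 + 1 / (((p : ℕ) : ℝ) - 1)) := by
      unfold mw
      rw [← Finset.prod_compl_mul_prod (VLRz.Un r)]
      have h1 : ∏ p ∈ VLRz.Un r,
          (if r p = none then (1 : ℝ) else 1 + 1 / (((p : ℕ) : ℝ) - 1)) = 1 :=
        Finset.prod_eq_one fun p hp => if_pos (VLRz.mem_Un.1 hp)
      rw [h1, mul_one]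
      refine Finset.prod_congr rfl fun p hp => ?_
      rw [Finset.mem_compl, VLRz.mem_Un] at hp
      rw [if_neg hp]
    rw [h1, mul_comm (cps j Z r), hcp]
    refine mul_le_mul_of_nonneg_left ?_ (Finset.prod_nonneg fun p _ => ?_)
    · refine Finset.sum_le_sum fun T _ => Finset.prod_le_prod (fun p _ => hf p) fun p _ => ?_
      have := hp1 p
      exact one_div_le_one_div_of_le (by linarith) (by linarith)
    · linarith [hf p]

end MPb51559.BG.Q
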