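import Pool.Agent.Work.MP_b51559_nt.BG.Q.Stmts

set_option autoImplicit false

/-!
# Block BG/Q, item Q3: removing a colour inside the density aF is exact
-/

namespace MPb51559.BG.Q

open Finset Filter Topology MeasureTheory
open scoped Classical

namespace I_Q3

variable {S : Finset ℕ} {k : ℕ}

/-- the local term -/
noncomputable def LF (m : Fin k) (r u x : Option (Fin k)) : ℝ :=
  if (r = none ∨ r = x) ∧ x ≠ some m ∧ (x = none ∨ x = u) then
    (if x = none then 1 else -1) else 0

/-- the local factor of the result -/
noncomputable def KF (m : Fin k) (p : ℝ) (r u : Option (Fin k)) : ℝ :=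
  if (if u = some m then none else u) = r then
    (if r = none then (1 : ℝ) else p - 1 - 1) / (if u = none then (1 : ℝ) else p - 1 - 1) else 0

theorem LF_sum (m : Fin k) (r u : Option (Fin k)) :
    ∑ x, LF m r u x = (if r = none then 1 else 0) +
      (if u ≠ none ∧ u ≠ some m ∧ (r = none ∨ r = u) then -1 else 0) := by
  rw [Fintype.sum_option]
  congr 1
  · unfold LF
    by_cases hr : r = none
    · rw [if_pos hr, if_pos ⟨Or.inl hr, (by simp), Or.inl rfl⟩, if_pos rfl]
    · rw [if_neg hr, if_neg]
      rintro ⟨h1 | h1, -⟩
      · exact hr h1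
      · exact hr h1
  · cases u with
    | none =>
      rw [if_neg (by simp)]
      refine Finset.sum_eq_zero fun i _ => ?_
      unfold LF
      rw [if_neg]
      rintro ⟨-, -, h | h⟩
      · exact absurd h (by simp)
      · exact absurd h (by simp)
    | some j =>
      rw [Finset.sum_eq_single j]
      · unfold LF
        by_cases h : (some j : Option (Fin k)) ≠ some m ∧ (r = none ∨ r = some j)
        · rw [if_pos ⟨h.2, h.1, Or.inr rfl⟩, if_neg (by simp), if_pos ⟨by simp, h.1, h.2⟩]
        · rw [if_neg, if_neg]
          · rintro ⟨-, h1, h2⟩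
            exact h ⟨h1, h2⟩
          · rintro ⟨h1, h2, -⟩
            exact h ⟨h2, h1⟩
      · intro i _ hij
        unfold LF
        rw [if_neg]
        rintro ⟨-, -, h | h⟩
        · exact absurd h (by simp)
        · exact hij (Option.some_injective _ h)
      · intro h
        exact absurd (Finset.mem_univ j) h

theorem LF_loc (m : Fin k) {p : ℝ} (hp : 2 < p) (r u : Option (Fin k)) (hr : r ≠ some m) :
    (if r = none then (1 : ℝ) else -1) * (if r = none then (1 : ℝ) else p - 1 - 1) *
      ((if u = none then (1 : ℝ) else p - 1 - 1)⁻¹ * ∑ x, LF m r u x) = KF m p r u := by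
  have h1 : p - 1 - 1 ≠ 0 := by linarith
  rw [LF_sum]
  unfold KF
  by_cases h0 : r = none
  · subst h0
    by_cases hu : u = none
    · subst hu
      simp
    · by_cases hum : u = some m
      · subst hum
        simp
      · simp only [if_true, hu, hum, if_false, ne_eq, not_false_eq_true, true_or, and_self]
        ring
  · by_cases hru : r = u
    · subst hru
      simp only [h0, hr, if_false, ne_eq, not_false_eq_true, or_true, and_self, if_true]
      field_simp
      ring
    · have h2 : ¬ ((if u = some m then none else u) = r) := by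
        split_ifs with h
        · exact fun h' => h0 h'.symm
        · exact fun h' => hru h'.symm
      rw [if_neg h2]
      simp only [h0, hru, if_false, ne_eq, and_false, or_self, mul_zero, add_zero]

/-- the product of the local terms -/
theorem LF_prod (m : Fin k) (hS : ∀ p ∈ S, 2 < p) (r u d : Co S k) :
    ∏ p : {p // p ∈ S}, LF m (r p) (u p) (d p) =
      if Le r d ∧ NoC m d ∧ Le d u then mw (fun _ => -1) d * mw aF d / mw aF d else 0 := by
  by_cases h : Le r d ∧ NoC m d ∧ Le d u
  · rw [if_pos h]
    unfold mw
    rw [← Finset.prod_mul_distrib, ← Finset.prod_div_distrib]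
    refine Finset.prod_congr rfl fun p _ => ?_
    have hp : (2 : ℝ) < (p : ℕ) := by exact_mod_cast hS p p.2
    unfold LF
    rw [if_pos ⟨h.1 p, h.2.1 p, h.2.2 p⟩]
    by_cases hd : d p = none
    · simp [hd]
    · simp only [hd, if_false, aF]
      have : ((p : ℕ) : ℝ) - 1 ≠ 0 := by linarith
      field_simp
  · rw [if_neg h]
    have hex : ∃ p : {p // p ∈ S}, ¬ ((r p = none ∨ r p = d p) ∧ d p ≠ some m ∧
        (d p = none ∨ d p = u p)) := by
      by_contra hcon
      push Not at hcon
      exact h ⟨fun p => (hcon p).1, fun p => (hcon p).2.1, fun p => (hcon p).2.2⟩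
    obtain ⟨p, hp⟩ := hex
    refine Finset.prod_eq_zero (Finset.mem_univ p) ?_
    unfold LF
    rw [if_neg hp]

theorem KF_prod (m : Fin k) (r u : Co S k) :
    ∏ p : {p // p ∈ S}, KF m ((p : ℕ) : ℝ) (r p) (u p) =
      if dl m u = r then mw (fun p => aF p - 1) r / mw (fun p => aF p - 1) u else 0 := by
  by_cases h : dl m u = r
  · rw [if_pos h]
    unfold mw
    rw [← Finset.prod_div_distrib]
    refine Finset.prod_congr rfl fun p _ => ?_
    unfold KF
    have h1 : (if u p = some m then none else u p) = r p := by
      rw [← h]
      rfl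
    rw [if_pos h1]
    rfl
  · rw [if_neg h]
    have hex : ∃ p : {p // p ∈ S}, ¬ ((if u p = some m then none else u p) = r p) := by
      by_contra hcon
      push Not at hcon
      exact h (funext hcon)
    obtain ⟨p, hp⟩ := hex
    refine Finset.prod_eq_zero (Finset.mem_univ p) ?_
    unfold KF
    rw [if_neg hp]

end I_Q3

open I_Q3 in
/-- Item Q3. -/
theorem prq_Q3 : Q3 := by
  intro S k m hS y r
  constructor
  · intro hr
    have key : ∀ u : Co S k, mw (fun _ => -1) r * mw (fun p => aF p - 1) r *
        ((mw (fun p => aF p - 1) u)⁻¹ * ∑ d : Co S k,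
          (if Le r d ∧ NoC m d ∧ Le d u then mw (fun _ => -1) d * mw aF d / mw aF d else 0)) =
        if dl m u = r then mw (fun p => aF p - 1) r / mw (fun p => aF p - 1) u else 0 := by
      intro u
      have h1 : (∑ d : Co S k,
          (if Le r d ∧ NoC m d ∧ Le d u then mw (fun _ => -1) d * mw aF d / mw aF d else 0)) =
          ∏ p : {p // p ∈ S}, ∑ x, LF m (r p) (u p) x := by
        rw [Finset.prod_univ_sum, Fintype.piFinset_univ]
        exact Finset.sum_congr rfl fun d _ => (LF_prod m hS r u d).symm
      rw [h1, ← KF_prod m r u]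
      unfold mw
      rw [← Finset.prod_inv_distrib, ← Finset.prod_mul_distrib, ← Finset.prod_mul_distrib,
        ← Finset.prod_mul_distrib]
      refine Finset.prod_congr rfl fun p _ => ?_
      have hp : (2 : ℝ) < (p : ℕ) := by exact_mod_cast hS p p.2
      exact LF_loc m hp (r p) (u p) (hr p)
    have hR : ∑ u ∈ univ.filter (fun u : Co S k => dl m u = r),
        y u * (mw (fun p => aF p - 1) r / mw (fun p => aF p - 1) u) =
        ∑ u : Co S k, ∑ d : Co S k, (mw (fun _ => -1) r * mw (fun p => aF p - 1) r) *
          (if Le r d ∧ NoC m d ∧ Le d u then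
            mw (fun _ => -1) d * mw aF d / mw aF d * (y u / mw (fun p => aF p - 1) u) else 0) := by
      rw [Finset.sum_filter]
      refine Finset.sum_congr rfl fun u _ => ?_
      have h0 : (if dl m u = r then y u * (mw (fun p => aF p - 1) r /
          mw (fun p => aF p - 1) u) else 0) =
          y u * (if dl m u = r then mw (fun p => aF p - 1) r / mw (fun p => aF p - 1) u
            else 0) := by
        rw [mul_ite, mul_zero]
      rw [h0, ← key u, ← Finset.mul_sum]
      rw [mul_left_comm]
      congr 1
      rw [Finset.mul_sum, Finset.mul_sum]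
      refine Finset.sum_congr rfl fun d _ => ?_
      split_ifs
      · ring
      · ring
    rw [hR, Finset.sum_comm]
    unfold ytr
    rw [Finset.mul_sum, Finset.sum_filter]
    refine Finset.sum_congr rfl fun d _ => ?_
    by_cases hrd : Le r d
    · rw [if_pos hrd]
      by_cases hd : NoC m d
      · unfold rst lam
        rw [if_pos hd, Finset.mul_sum, Finset.sum_div, Finset.mul_sum, Finset.sum_filter]
        refine Finset.sum_congr rfl fun u _ => ?_
        by_cases hdu : Le d u
        · rw [if_pos hdu, if_pos ⟨hrd, hd, hdu⟩]
          ring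
        · rw [if_neg hdu, if_neg (fun h => hdu h.2.2), mul_zero]
      · unfold rst
        rw [if_neg hd, zero_div, mul_zero]
        symm
        refine Finset.sum_eq_zero fun u _ => ?_
        rw [if_neg (fun h => hd h.2.1), mul_zero]
    · rw [if_neg hrd]
      symm
      refine Finset.sum_eq_zero fun u _ => ?_
      rw [if_neg (fun h => hrd h.1), mul_zero]
  · intro h
    unfold ytr at h
    have h1 := right_ne_zero_of_mul h
    obtain ⟨d, hd, hd2⟩ := Finset.exists_ne_zero_of_sum_ne_zero h1
    rw [Finset.mem_filter] at hd
    have hle := hd.2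
    have hno : NoC m d := by
      by_contra hcon
      apply hd2
      unfold rst
      rw [if_neg hcon, zero_div]
    intro p hp
    rcases hle p with h2 | h2
    · rw [h2] at hp
      exact absurd hp (by simp)
    · rw [h2] at hp
      exact hno p hp

end MPb51559.BG.Q
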