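import Pool.Agent.Work.MP_b51559_nt.BG.Q.Stmts
import Pool.Agent.Work.MP_b51559_nt.BG.C.Util
import Pool.Agent.Work.MP_b51559_nt.BG.C.TUP

set_option autoImplicit false

/-!
# Item Q5 of block BG/Q: one dimensional perturbation
-/

namespace MPb51559.BG.Q

open Finset Filter Topology MeasureTheory
open scoped Classical
open MPb51559.BG.U

namespace I_Q5

/-- the colouring of a number with one colour -/
noncomputable def cn (S : Finset ℕ) (n : ℕ) : Co S 1 := fun p => if (p : ℕ) ∣ n then some 0 else none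

theorem prod_cn {M : Type} [CommMonoid M] {S : Finset ℕ} {z : ℝ} (hS : ∀ p ∈ S, p.Prime)
    (f : ℕ → M) {n : ℕ} (hn : n ∈ SqF S z) :
    (∏ p : {p // p ∈ S}, if cn S n p = none then 1 else f p) = ∏ p ∈ n.primeFactors, f p := by
  rw [TUP_mem] at hn
  obtain ⟨⟨hn1, -⟩, -, h3⟩ := hn
  have h4 : n.primeFactors = S.filter (fun p => p ∣ n) := by
    ext p
    rw [mem_filter, Nat.mem_primeFactors]
    constructor
    · rintro ⟨h5, h6, -⟩
      exact ⟨h3 p h5 h6, h6⟩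
    · rintro ⟨h5, h6⟩
      exact ⟨hS p h5, h6, by omega⟩
  rw [h4, Finset.prod_filter, ← Finset.prod_coe_sort S]
  apply Finset.prod_congr rfl
  intro p _
  unfold cn
  by_cases h : (p : ℕ) ∣ n
  · rw [if_pos h, if_neg (by simp), if_pos h]
  · rw [if_neg h, if_pos rfl, if_neg h]

theorem nrm_cn {S : Finset ℕ} {z : ℝ} (hS : ∀ p ∈ S, p.Prime) {n : ℕ} (hn : n ∈ SqF S z) :
    nrm (cn S n) = n := by
  unfold nrm
  rw [prod_cn hS (fun p => p) hn]
  rw [TUP_mem] at hn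
  exact Nat.prod_primeFactors_of_squarefree hn.2.1

theorem mw_cn {S : Finset ℕ} {z : ℝ} (hS : ∀ p ∈ S, p.Prime) (f : ℕ → ℝ) {n : ℕ}
    (hn : n ∈ SqF S z) : mw f (cn S n) = ∏ p ∈ n.primeFactors, f p := by
  unfold mw
  exact prod_cn hS f hn

end I_Q5

theorem prq_Q5 (hBAS : C_BAS) (hPERT : C_PERT) : Q5 := by
  intro C hC ε hε
  obtain ⟨D1, hD1⟩ := hPERT 1 C hC ε hε
  refine ⟨D1 + 3, fun D0 hD0 => ?_⟩
  obtain ⟨x0, hx0⟩ := hD1 D0 (by omega)
  refine ⟨x0, fun x hx => ?_⟩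
  have h := (hx0 x hx).1
  rw [pow_one] at h
  refine le_trans ?_ h
  have hS : ∀ p ∈ Sx D0 x, p.Prime := fun p hp => (Sx_prime hp).1
  have hge : ∀ p ∈ Sx D0 x, (1 : ℝ) ≤ 1 + C / ((p : ℝ) - 2) := by
    intro p hp
    have h2 : D0 < p := (Sx_prime hp).2.1
    have h3 : (2 : ℝ) < p := by exact_mod_cast (by omega : 2 < p)
    have : 0 ≤ C / ((p : ℝ) - 2) := div_nonneg hC (by linarith)
    linarith
  set G : Co (Sx D0 x) 1 → ℝ :=
    fun r => (mw (fun p => 1 + C / ((p : ℝ) - 2)) r - 1) / mw aF r with hG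
  have e1 : ∑ n ∈ SqF (Sx D0 x) (Real.sqrt x),
      ((∏ p ∈ n.primeFactors, (1 + C / ((p : ℝ) - 2))) - 1) / (n.totient : ℝ) =
      ∑ n ∈ SqF (Sx D0 x) (Real.sqrt x), G (I_Q5.cn (Sx D0 x) n) := by
    apply Finset.sum_congr rfl
    intro n hn
    simp only [hG]
    rw [I_Q5.mw_cn hS _ hn, (hBAS _ 1 hS _).2.2.2.2.1, I_Q5.nrm_cn hS hn]
  have hinj : Set.InjOn (I_Q5.cn (Sx D0 x)) (SqF (Sx D0 x) (Real.sqrt x) : Set ℕ) := by
    intro a ha b hb hab
    rw [← I_Q5.nrm_cn hS (Finset.mem_coe.mp ha), ← I_Q5.nrm_cn hS (Finset.mem_coe.mp hb), hab]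
  rw [e1, ← Finset.sum_image (f := G) hinj]
  apply Finset.sum_le_sum_of_subset_of_nonneg
  · intro r hr
    rw [mem_image] at hr
    obtain ⟨n, hn, rfl⟩ := hr
    rw [mem_filter]
    refine ⟨mem_univ _, ?_⟩
    rw [I_Q5.nrm_cn hS hn]
    rw [TUP_mem] at hn
    have h5 : ((n : ℕ) : ℝ) ≤ (⌊Real.sqrt x⌋₊ : ℝ) := by exact_mod_cast hn.1.2
    exact le_trans h5 (Nat.floor_le (Real.sqrt_nonneg x))
  · intro r _ _
    simp only [hG]
    apply div_nonneg
    · have := one_le_mw r hge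
      linarith
    · rw [(hBAS _ 1 hS _).2.2.2.2.1]
      positivity

end MPb51559.BG.Q
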