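import Pool.Agent.Work.MP_b51559_nt.BG.Q.Stmts
import Pool.Agent.Work.MP_b51559_nt.BG.C.Util

/-!
# Block BG/Q, item Q6: the double diagonal variables
-/

set_option autoImplicit false

namespace MPb51559.BG.Q

open Finset Filter Topology MeasureTheory
open scoped Classical

namespace I_Q6

/-- the product over the prime factors -/
noncomputable def gp (f : ℕ → ℝ) (n : ℕ) : ℝ := ∏ p ∈ n.primeFactors, f p

section
variable {S : Finset ℕ} {k : ℕ}

/-- the primes of colour `j` -/
noncomputable def cs (j : Fin k) (u : Co S k) : Finset ℕ :=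
  (univ.filter (fun p : {p // p ∈ S} => u p = some j)).map ⟨Subtype.val, Subtype.val_injective⟩

theorem mem_cs {j : Fin k} {u : Co S k} (p : {p // p ∈ S}) : (p : ℕ) ∈ cs j u ↔ u p = some j := by
  unfold cs
  rw [Finset.mem_map]
  constructor
  · rintro ⟨q, hq, h⟩
    have : q = p := Subtype.ext h
    subst this
    exact (mem_filter.1 hq).2
  · intro h
    exact ⟨p, mem_filter.2 ⟨mem_univ _, h⟩, rfl⟩

theorem cs_sub {j : Fin k} {u : Co S k} {p : ℕ} (hp : p ∈ cs j u) : p ∈ S := by
  unfold cs at hp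
  rw [Finset.mem_map] at hp
  obtain ⟨q, -, rfl⟩ := hp
  exact q.2

theorem prod_cs {β : Type} [CommMonoid β] (f : ℕ → β) (j : Fin k) (u : Co S k) :
    ∏ p ∈ cs j u, f p = ∏ p : {p // p ∈ S}, (if u p = some j then f p else 1) := by
  unfold cs
  rw [prod_map, prod_filter]
  rfl

theorem pf_prt (hS : ∀ p ∈ S, p.Prime) (j : Fin k) (u : Co S k) :
    (prt j u).primeFactors = cs j u := by
  have h : prt j u = ∏ p ∈ cs j u, p := (prod_cs (fun p => p) j u).symm
  rw [h]
  exact Nat.primeFactors_prod fun p hp => hS p (cs_sub hp)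

theorem mw_split (hS : ∀ p ∈ S, p.Prime) (f : ℕ → ℝ) (j : Fin k) (u : Co S k) :
    mw f u = mw f (dl j u) * gp f (prt j u) := by
  unfold gp
  rw [pf_prt hS j u, prod_cs]
  unfold mw
  rw [← prod_mul_distrib]
  refine prod_congr rfl fun p _ => ?_
  unfold dl
  by_cases h : u p = some j
  · rw [h]
    simp
  · rw [if_neg h, if_neg h, mul_one]

theorem gp_aF (hBAS : C_BAS) (hS : ∀ p ∈ S, p.Prime) (j : Fin k) (u : Co S k) :
    gp aF (prt j u) = ((prt j u).totient : ℝ) := by
  let v : Co S k := fun p => if u p = some j then some j else none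
  have hv := hBAS S k hS v
  have e1 : nrm v = prt j u := by
    unfold nrm prt
    refine prod_congr rfl fun p _ => ?_
    by_cases h : u p = some j <;> simp [v, h]
  have e2 := hv.2.2.2.2.1
  rw [e1] at e2
  rw [← e2]
  unfold gp
  rw [pf_prt hS j u, prod_cs]
  unfold mw
  refine prod_congr rfl fun p _ => ?_
  by_cases h : u p = some j <;> simp [v, h]

theorem aF_pos (hS : ∀ p ∈ S, p.Prime ∧ 2 < p) {p : ℕ} (hp : p ∈ S) : 0 < aF p := by
  have : (2 : ℝ) < p := by exact_mod_cast (hS p hp).2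
  unfold aF
  linarith

theorem mwF_pos (hS : ∀ p ∈ S, p.Prime ∧ 2 < p) (u : Co S k) : 0 < mw aF u :=
  U.mw_pos u fun _ hp => aF_pos hS hp

theorem quot (hBAS : C_BAS) (hS : ∀ p ∈ S, p.Prime ∧ 2 < p) (j : Fin k) (u : Co S k) :
    mw aF (dl j u) / mw aF u = 1 / ((prt j u).totient : ℝ) := by
  have hS1 : ∀ p ∈ S, p.Prime := fun p hp => (hS p hp).1
  have h3 : mw aF (dl j u) ≠ 0 := (mwF_pos hS _).ne'
  rw [mw_split hS1 aF j u, gp_aF hBAS hS1, div_mul_eq_div_div, div_self h3]

theorem ratio (hS : ∀ p ∈ S, p.Prime ∧ 2 < p) (j : Fin k) (u : Co S k) :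
    mw (fun p => aF p - 1) (dl j u) / mw (fun p => aF p - 1) u =
      mw aF (dl j u) / mw aF u * gp (fun p => 1 + 1 / ((p : ℝ) - 2)) (prt j u) := by
  have hS1 : ∀ p ∈ S, p.Prime := fun p hp => (hS p hp).1
  have h0 : ∀ p ∈ S, (0 : ℝ) < aF p - 1 := fun p hp => by
    have : (2 : ℝ) < p := by exact_mod_cast (hS p hp).2
    unfold aF
    linarith
  have h1 : mw (fun p => aF p - 1) (dl j u) ≠ 0 := (U.mw_pos _ h0).ne'
  have h2 : mw aF (dl j u) ≠ 0 := (mwF_pos hS _).ne'
  have h3 : gp aF (prt j u) = gp (fun p => aF p - 1) (prt j u) *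
      gp (fun p => 1 + 1 / ((p : ℝ) - 2)) (prt j u) := by
    unfold gp
    rw [← prod_mul_distrib]
    refine prod_congr rfl fun p hp => ?_
    rw [pf_prt hS1 j u] at hp
    have h4 : (2 : ℝ) < p := by exact_mod_cast (hS p (cs_sub hp)).2
    have h5 : (p : ℝ) - 2 ≠ 0 := by linarith
    unfold aF
    field_simp
    ring
  have h6 : gp (fun p => aF p - 1) (prt j u) ≠ 0 := by
    unfold gp
    rw [prod_ne_zero_iff]
    intro p hp
    rw [pf_prt hS1 j u] at hp
    exact (h0 p (cs_sub hp)).ne'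
  have h7 : gp aF (prt j u) ≠ 0 := by
    unfold gp
    rw [prod_ne_zero_iff]
    intro p hp
    rw [pf_prt hS1 j u] at hp
    exact (aF_pos hS (cs_sub hp)).ne'
  have h8 : gp (fun p => 1 + 1 / ((p : ℝ) - 2)) (prt j u) ≠ 0 := by
    intro h
    rw [h, mul_zero] at h3
    exact h7 h3
  rw [mw_split hS1 (fun p => aF p - 1) j u, mw_split hS1 aF j u, h3, div_mul_eq_div_div,
    div_self h1, div_mul_eq_div_div, div_self h2]
  field_simp

/-- sums over the part of colour `j` -/
theorem mass (hBAS : C_BAS) (hS : ∀ p ∈ S, p.Prime ∧ 2 < p) (j : Fin k) (r : Co S k) (N : ℝ)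
    (h : ℕ → ℝ) (h0 : ∀ n ∈ SqF S N, 0 ≤ h n) :
    ∑ u ∈ univ.filter (fun u : Co S k => dl j u = r ∧ (nrm u : ℝ) ≤ N),
      mw aF r / mw aF u * h (prt j u) ≤ ∑ n ∈ SqF S N, h n / (n.totient : ℝ) := by
  have hS1 : ∀ p ∈ S, p.Prime := fun p hp => (hS p hp).1
  have hinj : Set.InjOn (fun u : Co S k => prt j u)
      (univ.filter (fun u : Co S k => dl j u = r ∧ (nrm u : ℝ) ≤ N)) := by
    intro u hu u' hu' hh
    have hu1 := (mem_filter.1 (mem_coe.1 hu)).2.1
    have hu2 := (mem_filter.1 (mem_coe.1 hu')).2.1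
    have hcs : cs j u = cs j u' := by
      rw [← pf_prt hS1 j u, ← pf_prt hS1 j u']
      have : prt j u = prt j u' := hh
      rw [this]
    funext p
    have h1 : u p = some j ↔ u' p = some j := by rw [← mem_cs p, ← mem_cs p, hcs]
    by_cases h2 : u p = some j
    · rw [h2, h1.1 h2]
    · have h3 : u' p ≠ some j := fun h => h2 (h1.2 h)
      have e1 : dl j u p = u p := by
        unfold dl
        rw [if_neg h2]
      have e2 : dl j u' p = u' p := by
        unfold dl
        rw [if_neg h3]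
      rw [← e1, ← e2, hu1, hu2]
  calc ∑ u ∈ univ.filter (fun u : Co S k => dl j u = r ∧ (nrm u : ℝ) ≤ N),
        mw aF r / mw aF u * h (prt j u)
      = ∑ u ∈ univ.filter (fun u : Co S k => dl j u = r ∧ (nrm u : ℝ) ≤ N),
          h (prt j u) / ((prt j u).totient : ℝ) := by
        refine sum_congr rfl fun u hu => ?_
        have h1 := (mem_filter.1 hu).2.1
        rw [← h1, quot hBAS hS j u]
        ring
    _ = ∑ n ∈ (univ.filter (fun u : Co S k => dl j u = r ∧ (nrm u : ℝ) ≤ N)).image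
          (fun u => prt j u), h n / (n.totient : ℝ) := by
        rw [sum_image hinj]
    _ ≤ ∑ n ∈ SqF S N, h n / (n.totient : ℝ) := by
        refine sum_le_sum_of_subset_of_nonneg ?_ fun n hn _ => div_nonneg (h0 n hn) (by positivity)
        intro n hn
        obtain ⟨u, hu, rfl⟩ := mem_image.1 hn
        have hu' := (mem_filter.1 hu).2
        have hb := hBAS S k hS1 u
        have hp := hb.2.2.2.2.2.2.2.1 j
        unfold SqF
        rw [mem_filter, mem_Icc]
        have hle : prt j u ≤ nrm u := Nat.le_of_dvd hb.2.1 hp.2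
        refine ⟨⟨hp.1, Nat.le_floor ((by exact_mod_cast hle : (prt j u : ℝ) ≤ nrm u).trans
          hu'.2)⟩, hb.1.squarefree_of_dvd hp.2, ?_⟩
        intro p hpp hpd
        exact ((hb.2.2.1 p hpp).1 (hpd.trans hp.2)).1

theorem one_le_gp {f : ℕ → ℝ} (hf : ∀ p ∈ S, 1 ≤ f p) {n : ℕ}
    (hn : ∀ p, p.Prime → p ∣ n → p ∈ S) : 1 ≤ gp f n := by
  unfold gp
  have h := Finset.prod_le_prod (s := n.primeFactors) (f := fun _ => (1 : ℝ)) (g := f)
    (fun p _ => zero_le_one) fun p hp =>
      hf p (hn p (Nat.prime_of_mem_primeFactors hp) (Nat.dvd_of_mem_primeFactors hp))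
  rwa [prod_const_one] at h

theorem noC_of_dl {m j : Fin k} (hmj : m ≠ j) {u r : Co S k} (h : dl j u = r) (hr : NoC m r) :
    NoC m u := by
  intro p hp
  apply hr p
  rw [← h]
  unfold dl
  rw [hp, if_neg]
  intro h
  exact hmj (Option.some.inj h)

end

/-- the elementary estimate of one term -/
theorem term {l C1 M e1 A μ G W P : ℝ} (hl : 0 ≤ l) (hC1 : 0 ≤ C1) (hM : 0 ≤ M)
    (he1 : e1 ≤ 1) (hμ : |μ| ≤ M) (hW : 0 ≤ W) (hG : 1 ≤ G) (hP : (1 + W) * G ≤ P)
    (hA : |A - l * μ| ≤ l * (C1 * (e1 + W))) :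
    |A * G - l * μ| ≤ l * (C1 * e1 + (2 * C1 + M) * (P - 1)) := by
  have h1 : A * G - l * μ = (A - l * μ) * G + l * μ * (G - 1) := by ring
  have h2 : |l * μ * (G - 1)| ≤ l * M * (G - 1) := by
    rw [abs_mul, abs_mul, abs_of_nonneg hl, abs_of_nonneg (by linarith : 0 ≤ G - 1)]
    exact mul_le_mul_of_nonneg_right (mul_le_mul_of_nonneg_left hμ hl) (by linarith)
  have h3 : |(A - l * μ) * G| ≤ l * (C1 * (e1 + W)) * G := by
    rw [abs_mul, abs_of_nonneg (by linarith : 0 ≤ G)]
    exact mul_le_mul_of_nonneg_right hA (by linarith)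
  rw [h1]
  refine (abs_add_le _ _).trans ((add_le_add h3 h2).trans ?_)
  have hWG : W * G ≤ P - 1 := by nlinarith
  have hGP : G ≤ P := by nlinarith [mul_nonneg hW (by linarith : (0 : ℝ) ≤ G)]
  have heG : e1 * G ≤ e1 + (P - 1) := by nlinarith [mul_nonneg (by linarith : 0 ≤ 1 - e1) (by linarith : 0 ≤ G - 1)]
  have h4 : l * (C1 * (e1 + W)) * G + l * M * (G - 1) =
      l * (C1 * (e1 * G + W * G) + M * (G - 1)) := by ring
  rw [h4]
  refine mul_le_mul_of_nonneg_left ?_ hl
  have h5 : C1 * (e1 * G + W * G) ≤ C1 * (e1 + (P - 1) + (P - 1)) :=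
    mul_le_mul_of_nonneg_left (by linarith) hC1
  have h6 : M * (G - 1) ≤ M * (P - 1) := mul_le_mul_of_nonneg_left (by linarith) hM
  linarith

end I_Q6

open I_Q6 in
theorem prq_Q6 (hBAS : C_BAS) (hMSU : C_MSU) (hTOT : C_TOT) (hONE : C_ONE) (hD1 : C_D1)
    (hMG : C_MG) (hYM : C_YM) (h3 : Q3) (h5 : Q5) : Q6 := by
  intro k s F hs0 hs1 hF δ hδ0 hδ1
  have hFT : Tst k (3 / 2) F := ⟨hF.meas, fun t ht => ⟨(hF.supp t ht).1,
    (hF.supp t ht).2.trans (by linarith)⟩, hF.bdd, hF.bv⟩
  obtain ⟨C1, hC10, hY⟩ := hYM k (3 / 2) F (by norm_num) (by norm_num) hFT δ hδ0 hδ1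
  obtain ⟨M, V, hM0, hG⟩ := hMG k s F hs0 hF
  have hC20 : 0 ≤ 2 * C1 + 1 := by linarith
  set C : ℝ := 32 * C1 + 24 * M + 2 * V + 1 with hC
  have hC0 : 0 ≤ C := by positivity
  refine ⟨C, hC0, fun ε hε => ?_⟩
  set e1 : ℝ := min ε 1 with he1
  have he1p : 0 < e1 := lt_min hε one_pos
  have he11 : e1 ≤ 1 := min_le_right _ _
  have hee : e1 ≤ ε := min_le_left _ _
  obtain ⟨Da, hYa⟩ := hY e1 he1p
  obtain ⟨Db, hQb⟩ := h5 (2 * C1 + 1) hC20 e1 he1p
  refine ⟨max (max Da Db) 3, fun D0 hD0 => ?_⟩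
  have hDa : Da ≤ D0 := (le_max_left _ _).trans ((le_max_left _ _).trans hD0)
  have hDb : Db ≤ D0 := (le_max_right _ _).trans ((le_max_left _ _).trans hD0)
  have hD3 : 3 ≤ D0 := (le_max_right _ _).trans hD0
  have hκ := U.kap_pos D0
  set η : ℝ := kap D0 * e1 / 8 with hη
  have hηp : 0 < η := by positivity
  obtain ⟨xa, hxa⟩ := hYa D0 hDa
  obtain ⟨xb, hxb⟩ := hQb D0 hDb
  obtain ⟨x1, hx1⟩ := hTOT k D0 (by omega)
  obtain ⟨x2, hx2⟩ := hONE D0 (by omega) η hηp
  refine ⟨max (max (max xa xb) (max x1 x2)) 4, fun x hx m j hmj => ?_⟩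
  have hxxa : xa ≤ x := (le_max_left _ _).trans ((le_max_left _ _).trans
    ((le_max_left _ _).trans hx))
  have hxxb : xb ≤ x := (le_max_right _ _).trans ((le_max_left _ _).trans
    ((le_max_left _ _).trans hx))
  have hxx1 : x1 ≤ x := (le_max_left _ _).trans ((le_max_right _ _).trans
    ((le_max_left _ _).trans hx))
  have hxx2 : x2 ≤ x := (le_max_right _ _).trans ((le_max_right _ _).trans
    ((le_max_left _ _).trans hx))
  have hx4 : (4 : ℝ) ≤ x := (le_max_right _ _).trans hx
  have hx1' : 1 < x := by linarith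
  have hlog : 0 < Real.log x := Real.log_pos hx1'
  suffices key : ∀ S : Finset ℕ, S = Sx D0 x →
      (∀ (r : Co S k), |ym (Rx δ x) F m r| ≤ C1 * lk D0 δ x ∧
        (ym (Rx δ x) F m r ≠ 0 → NoC m r ∧ sz (Rx δ x) r ≤ 3 / 2) ∧
        (NoC m r → |ym (Rx δ x) F m r - lk D0 δ x * marg F m (tv (Rx δ x) r)| ≤
          lk D0 δ x * (C1 * (e1 + (mw (fun p => 1 + C1 / ((p : ℝ) - 2)) r - 1))))) →
      (∑ n ∈ SqF S (Real.sqrt x),
        ((∏ p ∈ n.primeFactors, (1 + (2 * C1 + 1) / ((p : ℝ) - 2))) - 1) / (n.totient : ℝ) ≤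
          e1 * kl D0 x) →
      ∀ r : Co S k, |BB (Rx δ x) F m j r| ≤ C * lk D0 δ x ^ 2 ∧
        (NoC m r → NoC j r →
          |BB (Rx δ x) F m j r - lk D0 δ x ^ 2 * marg (marg F m) j (tv (Rx δ x) r)| ≤
          lk D0 δ x ^ 2 * (C * (ε + (mw (fun p => 1 + C / ((p : ℝ) - 2)) r - 1)))) from
    fun r => key _ rfl (hxa x hxxa m) (hxb x hxxb) r
  intro S hSdef hym hq5 r
  set R := Rx δ x with hR
  set l := lk D0 δ x with hl
  have hlp : 0 < l := U.lk_pos D0 δ x hδ1 hx1'
  have hR1 : 1 < R := U.Rx_gt_one δ x hδ1 hx1'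
  have hR0 : 0 < R := by linarith
  have hlR : 0 < Real.log R := Real.log_pos hR1
  have hleq : l = kap D0 * Real.log R := rfl
  have hS2 : ∀ p ∈ S, p.Prime ∧ 2 < p := fun p hp => ⟨(U.Sx_prime (hSdef ▸ hp)).1, by
    have := (U.Sx_prime (hSdef ▸ hp)).2.1; omega⟩
  have hSP : ∀ p ∈ S, p.Prime := fun p hp => (hS2 p hp).1
  have hSr : ∀ p ∈ S, (3 : ℝ) < p := fun p hp => by
    have := (U.Sx_prime (hSdef ▸ hp)).2.1
    exact_mod_cast (show 3 < p by omega)
  set N : ℝ := R ^ (3 / 2 : ℝ) with hN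
  have hN0 : 0 < N := Real.rpow_pos_of_pos hR0 _
  have hNle : N ≤ Real.sqrt x :=
    U.Rx_rpow_le δ x (3 / 2) hδ0.le hx1'.le (by norm_num) (by norm_num)
  have hkl : kl D0 x ≤ 8 * l := U.kl_le D0 δ x hδ1 hx1'
  have hHs : Hs S N ≤ 8 * l := (U.Hs_mono S hNle).trans ((hSdef ▸ (hx1 x hxx1).1 :
    Hs S (Real.sqrt x) ≤ kl D0 x).trans hkl)
  have hHs0 : 0 ≤ Hs S N := U.Hs_nonneg _ _
  -- the weights
  set c2 : ℕ → ℝ := fun p => 1 + (2 * C1 + 1) / ((p : ℝ) - 2) with hc2
  have hc21 : ∀ p ∈ S, 1 ≤ c2 p := fun p hp => by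
    have := hSr p hp
    have : 0 ≤ (2 * C1 + 1) / ((p : ℝ) - 2) := div_nonneg hC20 (by linarith)
    rw [hc2]
    linarith
  have hgp1 : ∀ n ∈ SqF S (Real.sqrt x), 1 ≤ gp c2 n := fun n hn => by
    unfold SqF at hn
    rw [mem_filter] at hn
    exact one_le_gp hc21 hn.2.2
  have hgp1' : ∀ n ∈ SqF S N, 1 ≤ gp c2 n := fun n hn => by
    unfold SqF at hn
    rw [mem_filter] at hn
    exact one_le_gp hc21 hn.2.2
  have hsub : SqF S N ⊆ SqF S (Real.sqrt x) := by
    intro n hn
    unfold SqF at hn ⊢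
    rw [mem_filter, mem_Icc] at hn ⊢
    exact ⟨⟨hn.1.1, hn.1.2.trans (Nat.floor_le_floor hNle)⟩, hn.2⟩
  set Us : Finset (Co S k) := univ.filter (fun u : Co S k => dl j u = r ∧ (nrm u : ℝ) ≤ N) with hUs
  have hUmem : ∀ u ∈ Us, dl j u = r ∧ (nrm u : ℝ) ≤ N := fun u hu => (mem_filter.1 hu).2
  set q : Co S k → ℝ := fun u => mw aF r / mw aF u with hq
  have hq0 : ∀ u, 0 ≤ q u := fun u => (div_pos (mwF_pos hS2 _) (mwF_pos hS2 _)).le
  have hm0 : ∑ u ∈ Us, q u ≤ 8 * l := by
    have h := mass hBAS hS2 j r N (fun _ => 1) (fun _ _ => zero_le_one)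
    simp only [mul_one] at h
    exact h.trans hHs
  have hm1 : ∑ u ∈ Us, q u * (gp c2 (prt j u) - 1) ≤ 8 * l * e1 := by
    have h := mass hBAS hS2 j r N (fun n => gp c2 n - 1)
      (fun n hn => by linarith [hgp1' n hn])
    refine h.trans ?_
    have h' : ∑ n ∈ SqF S N, (gp c2 n - 1) / (n.totient : ℝ) ≤
        ∑ n ∈ SqF S (Real.sqrt x), (gp c2 n - 1) / (n.totient : ℝ) :=
      sum_le_sum_of_subset_of_nonneg hsub fun n hn _ =>
        div_nonneg (by linarith [hgp1 n hn]) (by positivity)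
    refine h'.trans (hq5.trans ?_)
    calc e1 * kl D0 x ≤ e1 * (8 * l) := mul_le_mul_of_nonneg_left hkl he1p.le
      _ = 8 * l * e1 := by ring
  have hgpu : ∀ u : Co S k, 1 ≤ gp c2 (prt j u) := fun u => by
    have h := hBAS S k hSP u
    refine one_le_gp hc21 fun p hp hpd => ?_
    exact ((h.2.2.1 p hp).1 (hpd.trans (h.2.2.2.2.2.2.2.1 j).2)).1
  -- the factor G
  set Gf : Co S k → ℝ := fun u => gp (fun p => 1 + 1 / ((p : ℝ) - 2)) (prt j u) with hGf
  have hG1 : ∀ u, 1 ≤ Gf u := fun u => by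
    have h := hBAS S k hSP u
    refine one_le_gp (S := S) (fun p hp => ?_) fun p hp hpd => ?_
    · have := hSr p hp
      have : 0 ≤ 1 / ((p : ℝ) - 2) := div_nonneg zero_le_one (by linarith)
      linarith
    · exact ((h.2.2.1 p hp).1 (hpd.trans (h.2.2.2.2.2.2.2.1 j).2)).1
  have hGc : ∀ u, Gf u ≤ gp c2 (prt j u) := fun u => by
    have h := hBAS S k hSP u
    rw [hGf]
    unfold gp
    refine prod_le_prod (fun p hp => ?_) fun p hp => ?_
    · have hpS : p ∈ S := ((h.2.2.1 p (Nat.prime_of_mem_primeFactors hp)).1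
        ((Nat.dvd_of_mem_primeFactors hp).trans (h.2.2.2.2.2.2.2.1 j).2)).1
      have := hSr p hpS
      have : 0 ≤ 1 / ((p : ℝ) - 2) := div_nonneg zero_le_one (by linarith)
      linarith
    · have hpS : p ∈ S := ((h.2.2.1 p (Nat.prime_of_mem_primeFactors hp)).1
        ((Nat.dvd_of_mem_primeFactors hp).trans (h.2.2.2.2.2.2.2.1 j).2)).1
      have := hSr p hpS
      have : 1 / ((p : ℝ) - 2) ≤ (2 * C1 + 1) / ((p : ℝ) - 2) :=
        div_le_div_of_nonneg_right (by linarith) (by linarith)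
      rw [hc2]
      linarith
  -- the formula for BB
  have hBB : NoC j r → BB R F m j r = ∑ u ∈ Us, q u * (ym R F m u * Gf u) := by
    intro hr
    have h := (h3 S k j (fun p hp => (hS2 p hp).2) (ym R F m) r).1 hr
    have h' : BB R F m j r = ytr aF (rst j (lam aF (ym R F m))) r := rfl
    rw [h', h, hUs, ← filter_filter, sum_filter (fun u : Co S k => (nrm u : ℝ) ≤ N)]
    refine sum_congr rfl fun u hu => ?_
    have hu1 := (mem_filter.1 hu).2
    have e := ratio hS2 j u
    rw [hu1] at e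
    rw [e]
    split_ifs with h4
    · rw [hq, hGf]
      ring
    · have : ym R F m u = 0 := by
        by_contra h0
        apply h4
        have h5 := ((hym u).2.1 h0).2
        unfold sz at h5
        rw [div_le_iff₀ hlR] at h5
        have h6 : (0 : ℝ) < nrm u := by exact_mod_cast (hBAS S k hSP u).2.1
        rw [hN, ← Real.log_le_log_iff h6 (Real.rpow_pos_of_pos hR0 _), Real.log_rpow hR0]
        exact h5
      rw [this, zero_mul]
  refine ⟨?_, ?_⟩
  · -- the uniform bound
    by_cases hr : NoC j r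
    · rw [hBB hr]
      have h1 : |∑ u ∈ Us, q u * (ym R F m u * Gf u)| ≤
          ∑ u ∈ Us, C1 * l * (q u + q u * (gp c2 (prt j u) - 1)) := by
        refine (abs_sum_le_sum_abs _ _).trans (sum_le_sum fun u _ => ?_)
        rw [abs_mul, abs_mul, abs_of_nonneg (hq0 u), abs_of_nonneg (by linarith [hG1 u] : 0 ≤ Gf u)]
        have h2 : |ym R F m u| * Gf u ≤ C1 * l * gp c2 (prt j u) :=
          mul_le_mul (hym u).1 (hGc u) (by linarith [hG1 u]) (by positivity)
        calc q u * (|ym R F m u| * Gf u) ≤ q u * (C1 * l * gp c2 (prt j u)) :=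
              mul_le_mul_of_nonneg_left h2 (hq0 u)
          _ = C1 * l * (q u + q u * (gp c2 (prt j u) - 1)) := by ring
      refine h1.trans ?_
      rw [← mul_sum, sum_add_distrib]
      have h2 : ∑ u ∈ Us, q u + ∑ u ∈ Us, q u * (gp c2 (prt j u) - 1) ≤ 16 * l := by
        have : 8 * l * e1 ≤ 8 * l := by nlinarith
        linarith
      calc C1 * l * (∑ u ∈ Us, q u + ∑ u ∈ Us, q u * (gp c2 (prt j u) - 1)) ≤
            C1 * l * (16 * l) := mul_le_mul_of_nonneg_left h2 (by positivity)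
        _ = 16 * C1 * l ^ 2 := by ring
        _ ≤ C * l ^ 2 := by
            refine mul_le_mul_of_nonneg_right ?_ (by positivity)
            rw [hC]
            have : (0 : ℝ) ≤ V := V.2
            linarith
    · have h4 : BB R F m j r = 0 := by
        by_contra h0
        exact hr ((h3 S k j (fun p hp => (hS2 p hp).2) (ym R F m) r).2 h0)
      rw [h4, abs_zero]
      positivity
  · intro hmr hjr
    obtain ⟨-, hGb, -, hGs, hGv⟩ := hG m
    set Pr : ℝ := mw c2 r with hPr
    have hPr1 : 1 ≤ Pr := U.one_le_mw r hc21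
    -- the function of one variable
    set g : ℝ → ℝ := fun t => marg F m (Function.update (tv R r) j t) with hg
    set f : ℕ → ℝ := fun n => g (Real.log (n : ℝ) / Real.log R) with hf
    have hgM : ∀ t, |g t| ≤ M := fun t => hGb _
    have hgsupp : ∀ t, g t ≠ 0 → 0 ≤ t ∧ t ≤ s := by
      intro t ht
      obtain ⟨h1, h2⟩ := hGs _ ht
      have hj : j ∈ univ.erase m := mem_erase.2 ⟨Ne.symm hmj, mem_univ _⟩
      have h4 := h1 j (Ne.symm hmj)
      rw [Function.update_self] at h4
      refine ⟨h4, ?_⟩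
      have h5 : Function.update (tv R r) j t j ≤
          ∑ i ∈ univ.erase m, Function.update (tv R r) j t i :=
        single_le_sum (f := fun i => Function.update (tv R r) j t i)
          (fun i hi => h1 i (mem_erase.1 hi).1) hj
      rw [Function.update_self] at h5
      exact h5.trans h2
    have hsN : R ^ s ≤ N := Real.rpow_le_rpow_of_exponent_le hR1.le (by linarith)
    have hfN : ∀ n : ℕ, f n ≠ 0 → (n : ℝ) ≤ N := by
      intro n hn
      rcases Nat.eq_zero_or_pos n with rfl | hn0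
      · simp only [Nat.cast_zero]
        exact hN0.le
      have h := (hgsupp _ hn).2
      rw [div_le_iff₀ hlR] at h
      have h4 : (0 : ℝ) < n := by exact_mod_cast hn0
      refine le_trans ?_ hsN
      rw [← Real.log_le_log_iff h4 (Real.rpow_pos_of_pos hR0 _), Real.log_rpow hR0]
      exact h
    have hms := hMSU S k hS2 j f M N r hjr hM0 (fun n => hgM _) hfN
    have hfu : ∀ u : Co S k, dl j u = r → f (prt j u) = marg F m (tv R u) := fun u hu => by
      rw [hf, hg]
      simp only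
      rw [hms.2 R u hu]
    -- large u
    have hlarge : ∀ u : Co S k, dl j u = r → ¬ ((nrm u : ℝ) ≤ N) → marg F m (tv R u) = 0 := by
      intro u hu hn
      by_contra h0
      apply hn
      obtain ⟨h1, h2⟩ := hGs _ h0
      have hum : NoC m u := noC_of_dl hmj hu hmr
      have h4 : tv R u m = 0 := by
        have : prt m u = 1 := by
          unfold prt
          refine prod_eq_one fun p _ => ?_
          rw [if_neg (hum p)]
        unfold tv
        rw [this]
        simp
      have h5 : sz R u ≤ s := by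
        rw [(hBAS S k hSP u).2.2.2.2.2.2.2.2.1 R, ← Finset.add_sum_erase _ _ (mem_univ m), h4,
          zero_add]
        exact h2
      unfold sz at h5
      rw [div_le_iff₀ hlR] at h5
      have h6 : (0 : ℝ) < nrm u := by exact_mod_cast (hBAS S k hSP u).2.1
      refine le_trans ?_ hsN
      rw [← Real.log_le_log_iff h6 (Real.rpow_pos_of_pos hR0 _), Real.log_rpow hR0]
      exact h5
    -- first error
    have hE1 : |∑ u ∈ Us, q u * (ym R F m u * Gf u) - l * ∑ u ∈ Us, q u * marg F m (tv R u)| ≤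
        8 * l ^ 2 * (C1 * e1 + (2 * C1 + M) * (2 * (Pr - 1) + e1)) := by
      have h1 : ∑ u ∈ Us, q u * (ym R F m u * Gf u) - l * ∑ u ∈ Us, q u * marg F m (tv R u) =
          ∑ u ∈ Us, q u * (ym R F m u * Gf u - l * marg F m (tv R u)) := by
        rw [mul_sum, ← sum_sub_distrib]
        exact sum_congr rfl fun u _ => by ring
      rw [h1]
      have h2 : |∑ u ∈ Us, q u * (ym R F m u * Gf u - l * marg F m (tv R u))| ≤
          ∑ u ∈ Us, q u * (l * (C1 * e1 + (2 * C1 + M) * (mw c2 u - 1))) := by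
        refine (abs_sum_le_sum_abs _ _).trans (sum_le_sum fun u hu => ?_)
        rw [abs_mul, abs_of_nonneg (hq0 u)]
        refine mul_le_mul_of_nonneg_left ?_ (hq0 u)
        have hu1 := (hUmem u hu).1
        have hum : NoC m u := noC_of_dl hmj hu1 hmr
        refine term hlp.le hC10 hM0 he11 (hGb _)
          (W := mw (fun p => 1 + C1 / ((p : ℝ) - 2)) u - 1) ?_ (hG1 u) ?_ ((hym u).2.2 hum)
        · have : 1 ≤ mw (fun p => 1 + C1 / ((p : ℝ) - 2)) u := U.one_le_mw u fun p hp => by
            have := hSr p hp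
            have : 0 ≤ C1 / ((p : ℝ) - 2) := div_nonneg hC10 (by linarith)
            linarith
          linarith
        · have h4 : Gf u ≤ mw (fun p => 1 + 1 / ((p : ℝ) - 2)) u := by
            rw [mw_split hSP _ j u]
            refine le_mul_of_one_le_left (by linarith [hG1 u]) ?_
            exact U.one_le_mw _ fun p hp => by
              have := hSr p hp
              have : 0 ≤ 1 / ((p : ℝ) - 2) := div_nonneg zero_le_one (by linarith)
              linarith
          have h5 : (1 + (mw (fun p => 1 + C1 / ((p : ℝ) - 2)) u - 1)) =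
              mw (fun p => 1 + C1 / ((p : ℝ) - 2)) u := by ring
          rw [h5]
          have h6 : 0 ≤ mw (fun p => 1 + C1 / ((p : ℝ) - 2)) u := U.mw_nonneg u fun p hp => by
            have := hSr p hp
            have : 0 ≤ C1 / ((p : ℝ) - 2) := div_nonneg hC10 (by linarith)
            linarith
          refine (mul_le_mul_of_nonneg_left h4 h6).trans ?_
          rw [← U.mw_mul]
          refine U.mw_le_mw u (fun p hp => ?_) fun p hp => ?_
          · have := hSr p hp
            have : 0 ≤ C1 / ((p : ℝ) - 2) := div_nonneg hC10 (by linarith)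
            have : 0 ≤ 1 / ((p : ℝ) - 2) := div_nonneg zero_le_one (by linarith)
            positivity
          · have h7 := hSr p hp
            have h8 : (0 : ℝ) < (p : ℝ) - 2 := by linarith
            set z : ℝ := 1 / ((p : ℝ) - 2) with hz
            have hz0 : 0 ≤ z := by positivity
            have hz1 : z ≤ 1 := by
              rw [hz, div_le_one h8]
              linarith
            have e1' : C1 / ((p : ℝ) - 2) = C1 * z := by rw [hz]; ring
            have e2' : (2 * C1 + 1) / ((p : ℝ) - 2) = (2 * C1 + 1) * z := by rw [hz]; ring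
            rw [hc2]
            simp only
            rw [e1', e2']
            nlinarith [mul_nonneg (mul_nonneg hC10 hz0) (by linarith : 0 ≤ 1 - z)]
      refine h2.trans ?_
      have h4 : ∀ u ∈ Us, q u * (l * (C1 * e1 + (2 * C1 + M) * (mw c2 u - 1))) =
          l * (C1 * e1 + (2 * C1 + M) * (Pr - 1)) * q u +
            l * (2 * C1 + M) * Pr * (q u * (gp c2 (prt j u) - 1)) := fun u hu => by
        have h5 : mw c2 u = Pr * gp c2 (prt j u) := by
          rw [mw_split hSP c2 j u, (hUmem u hu).1]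
        rw [h5]
        ring
      rw [sum_congr rfl h4, sum_add_distrib, ← mul_sum, ← mul_sum]
      have h5 : 0 ≤ l * (C1 * e1 + (2 * C1 + M) * (Pr - 1)) := by
        have : 0 ≤ Pr - 1 := by linarith
        positivity
      have h6 : 0 ≤ l * (2 * C1 + M) * Pr := by positivity
      have h7 := mul_le_mul_of_nonneg_left hm0 h5
      have h8 := mul_le_mul_of_nonneg_left hm1 h6
      have h9 : Pr * e1 ≤ e1 + (Pr - 1) := by nlinarith
      have h10 : l * (2 * C1 + M) * Pr * (8 * l * e1) ≤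
          8 * l ^ 2 * ((2 * C1 + M) * (e1 + (Pr - 1))) := by
        have : l * (2 * C1 + M) * Pr * (8 * l * e1) = 8 * l ^ 2 * ((2 * C1 + M) * (Pr * e1)) := by
          ring
        rw [this]
        exact mul_le_mul_of_nonneg_left (mul_le_mul_of_nonneg_left h9 (by positivity))
          (by positivity)
      calc _ ≤ l * (C1 * e1 + (2 * C1 + M) * (Pr - 1)) * (8 * l) +
            8 * l ^ 2 * ((2 * C1 + M) * (e1 + (Pr - 1))) := add_le_add h7 (h8.trans h10)
        _ = 8 * l ^ 2 * (C1 * e1 + (2 * C1 + M) * (2 * (Pr - 1) + e1)) := by ring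
    -- second error
    have hfull : ∑ u ∈ univ.filter (fun u : Co S k => dl j u = r),
        f (prt j u) * (mw aF r / mw aF u) = ∑ u ∈ Us, q u * marg F m (tv R u) := by
      rw [hUs, ← filter_filter, sum_filter (fun u : Co S k => (nrm u : ℝ) ≤ N)]
      refine sum_congr rfl fun u hu => ?_
      have hu1 := (mem_filter.1 hu).2
      rw [hfu u hu1]
      split_ifs with h4
      · exact mul_comm _ _
      · rw [hlarge u hu1 h4, zero_mul]
    have hCr : mw (fun p => 1 + 1 / ((p : ℝ) - 1)) r ≤ Pr := by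
      refine U.mw_le_mw r (fun p hp => ?_) fun p hp => ?_
      · have := hSr p hp
        have : 0 ≤ 1 / ((p : ℝ) - 1) := div_nonneg zero_le_one (by linarith)
        linarith
      · have := hSr p hp
        have h5 : 1 / ((p : ℝ) - 1) ≤ (2 * C1 + 1) / ((p : ℝ) - 2) :=
          div_le_div₀ hC20 (by linarith) (by linarith) (by linarith)
        rw [hc2]
        linarith
    have hE2 : |∑ u ∈ Us, q u * marg F m (tv R u) - ∑ n ∈ SqF S N, f n / (n.totient : ℝ)| ≤
        8 * l * (M * (Pr - 1)) := by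
      rw [← hfull]
      refine hms.1.trans ?_
      have h4 : M * Hs S N ≤ 8 * l * M := by nlinarith
      calc M * Hs S N * (mw (fun p => 1 + 1 / ((p : ℝ) - 1)) r - 1) ≤
            M * Hs S N * (Pr - 1) :=
            mul_le_mul_of_nonneg_left (by linarith) (mul_nonneg hM0 hHs0)
        _ ≤ 8 * l * M * (Pr - 1) := mul_le_mul_of_nonneg_right h4 (by linarith)
        _ = 8 * l * (M * (Pr - 1)) := by ring
    -- one dimensional comparison
    set Δ : ℝ := η * Real.log x / l with hΔ
    have hΔ0 : 0 ≤ Δ := by positivity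
    have hΔe : Δ ≤ e1 := by
      rw [hΔ, div_le_iff₀ hlp]
      have h4 : kap D0 * Real.log x ≤ 8 * l := hkl
      calc η * Real.log x = (kap D0 * Real.log x) * (e1 / 8) := by rw [hη]; ring
        _ ≤ (8 * l) * (e1 / 8) := mul_le_mul_of_nonneg_right h4 (by positivity)
        _ = e1 * l := by ring
    have hmem : ∀ a ∈ SqF S N, 1 ≤ a ∧ (a : ℝ) ≤ N := by
      intro a ha
      unfold SqF at ha
      rw [mem_filter, mem_Icc] at ha
      exact ⟨ha.1.1, (Nat.le_floor_iff hN0.le).1 ha.1.2⟩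
    have h4 := hD1 ℕ (SqF S N) (fun n => 1 / ((n.totient : ℝ) * l))
      (fun n => Real.log (n : ℝ) / Real.log R) (3 / 2) Δ M V g (by norm_num) hΔ0 (by
        intro a ha
        obtain ⟨ha1, ha2⟩ := hmem a ha
        have ha0 : (0 : ℝ) < a := by exact_mod_cast ha1
        refine ⟨by positivity, ?_, ?_⟩
        · exact div_nonneg (Real.log_nonneg (by exact_mod_cast ha1)) hlR.le
        · rw [div_le_iff₀ hlR]
          calc Real.log (a : ℝ) ≤ Real.log N := Real.log_le_log ha0 ha2
            _ = 3 / 2 * Real.log R := by rw [hN, Real.log_rpow hR0]) (by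
        intro t ht0 htT
        have hRs : 0 < R ^ t := Real.rpow_pos_of_pos hR0 _
        have e : (SqF S N).filter (fun a : ℕ => Real.log (a : ℝ) / Real.log R ≤ t) =
            SqF S (R ^ t) := by
          ext a
          constructor
          · intro ha
            rw [mem_filter] at ha
            obtain ⟨ha, hs⟩ := ha
            obtain ⟨ha1, ha2⟩ := hmem a ha
            have ha0 : (0 : ℝ) < a := by exact_mod_cast ha1
            unfold SqF at ha ⊢
            rw [mem_filter, mem_Icc] at ha ⊢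
            refine ⟨⟨ha.1.1, Nat.le_floor ?_⟩, ha.2⟩
            rw [div_le_iff₀ hlR] at hs
            rw [← Real.log_le_log_iff ha0 hRs, Real.log_rpow hR0]
            exact hs
          · intro ha
            unfold SqF at ha
            rw [mem_filter, mem_Icc] at ha
            have ha1 := ha.1.1
            have ha0 : (0 : ℝ) < a := by exact_mod_cast ha1
            have ha2 : (a : ℝ) ≤ R ^ t := (Nat.le_floor_iff hRs.le).1 ha.1.2
            rw [mem_filter]
            refine ⟨?_, ?_⟩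
            · unfold SqF
              rw [mem_filter, mem_Icc]
              refine ⟨⟨ha1, Nat.le_floor (ha2.trans ?_)⟩, ha.2⟩
              exact Real.rpow_le_rpow_of_exponent_le hR1.le htT
            · rw [div_le_iff₀ hlR, ← Real.log_rpow hR0]
              exact Real.log_le_log ha0 ha2
        rw [e]
        have e2 : ∑ a ∈ SqF S (R ^ t), 1 / ((a.totient : ℝ) * l) = Hs S (R ^ t) / l := by
          unfold Hs
          rw [sum_div]
          refine sum_congr rfl fun a _ => ?_
          rw [one_div, mul_inv, one_div, div_eq_mul_inv]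
        rw [e2]
        have hz1 : 1 ≤ R ^ t := Real.one_le_rpow hR1.le ht0
        have hz2 : R ^ t ≤ Real.sqrt x := U.Rx_rpow_le δ x t hδ0.le hx1'.le ht0 (by linarith)
        have h5 := hx2 x hxx2 (R ^ t) hz1 hz2
        rw [← hSdef] at h5
        rw [Real.log_rpow hR0] at h5
        have e3 : Hs S (R ^ t) / l - t = (Hs S (R ^ t) - kap D0 * (t * Real.log R)) / l := by
          rw [sub_div]
          congr 1
          rw [hleq]
          field_simp
        rw [e3, abs_div, abs_of_pos hlp, hΔ]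
        exact div_le_div_of_nonneg_right h5 hlp.le) hgM (hGv (tv R r) j)
    have hint : ∫ t in (0)..(3 / 2), g t = marg (marg F m) j (tv R r) := by
      have e : marg (marg F m) j (tv R r) = ∫ t, g t := rfl
      rw [e, intervalIntegral.integral_of_le (by norm_num)]
      have : ∫ t, g t = ∫ t in Set.Icc (0 : ℝ) (3 / 2), g t := by
        rw [setIntegral_eq_integral_of_forall_compl_eq_zero]
        intro t ht
        by_contra h0
        obtain ⟨h5, h6⟩ := hgsupp t h0
        exact ht ⟨h5, by linarith⟩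
      rw [this, integral_Icc_eq_integral_Ioc]
    rw [hint] at h4
    have hsum : ∑ a ∈ SqF S N, 1 / ((a.totient : ℝ) * l) * g (Real.log (a : ℝ) / Real.log R) =
        (∑ n ∈ SqF S N, f n / (n.totient : ℝ)) / l := by
      rw [sum_div]
      refine sum_congr rfl fun a _ => ?_
      rw [hf]
      rw [one_div, mul_inv]
      ring
    rw [hsum] at h4
    have hE3 : |(∑ n ∈ SqF S N, f n / (n.totient : ℝ)) - l * marg (marg F m) j (tv R r)| ≤
        l * (2 * (M + V) * e1) := by
      have e : (∑ n ∈ SqF S N, f n / (n.totient : ℝ)) - l * marg (marg F m) j (tv R r) =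
          l * ((∑ n ∈ SqF S N, f n / (n.totient : ℝ)) / l - marg (marg F m) j (tv R r)) := by
        field_simp
      rw [e, abs_mul, abs_of_pos hlp]
      refine mul_le_mul_of_nonneg_left (h4.trans ?_) hlp.le
      exact mul_le_mul_of_nonneg_left hΔe (by positivity)
    -- conclusion
    set A0 : ℝ := ∑ u ∈ Us, q u * (ym R F m u * Gf u) with hA0
    set A1 : ℝ := ∑ u ∈ Us, q u * marg F m (tv R u) with hA1
    set A2 : ℝ := ∑ n ∈ SqF S N, f n / (n.totient : ℝ) with hA2
    have hfin : |BB R F m j r - l ^ 2 * marg (marg F m) j (tv R r)| ≤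
        l ^ 2 * ((24 * C1 + 10 * M + 2 * V) * e1 + (32 * C1 + 24 * M) * (Pr - 1)) := by
      rw [hBB hjr]
      have e : A0 - l ^ 2 * marg (marg F m) j (tv R r) = (A0 - l * A1) + l * (A1 - A2) +
          l * (A2 - l * marg (marg F m) j (tv R r)) := by ring
      rw [e]
      have h5 : |l * (A1 - A2)| ≤ l * (8 * l * (M * (Pr - 1))) := by
        rw [abs_mul, abs_of_pos hlp]
        exact mul_le_mul_of_nonneg_left hE2 hlp.le
      have h6 : |l * (A2 - l * marg (marg F m) j (tv R r))| ≤ l * (l * (2 * (M + V) * e1)) := by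
        rw [abs_mul, abs_of_pos hlp]
        exact mul_le_mul_of_nonneg_left hE3 hlp.le
      refine ((abs_add_le _ _).trans (add_le_add (abs_add_le _ _) le_rfl)).trans ?_
      refine (add_le_add (add_le_add hE1 h5) h6).trans (le_of_eq ?_)
      ring
    refine hfin.trans (mul_le_mul_of_nonneg_left ?_ (by positivity))
    have hVn : (0 : ℝ) ≤ V := V.2
    have h10 : (24 * C1 + 10 * M + 2 * (V : ℝ)) * e1 ≤ C * ε :=
      mul_le_mul (by rw [hC]; linarith) hee he1p.le hC0
    have hPC : Pr ≤ mw (fun p => 1 + C / ((p : ℝ) - 2)) r := by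
      refine U.mw_le_mw r (fun p hp => by linarith [hc21 p hp]) fun p hp => ?_
      have := hSr p hp
      have h5 : (2 * C1 + 1) / ((p : ℝ) - 2) ≤ C / ((p : ℝ) - 2) :=
        div_le_div_of_nonneg_right (by rw [hC]; linarith) (by linarith)
      rw [hc2]
      linarith
    have h12 : (32 * C1 + 24 * M) * (Pr - 1) ≤
        C * (mw (fun p => 1 + C / ((p : ℝ) - 2)) r - 1) :=
      mul_le_mul (by rw [hC]; linarith) (by linarith) (by linarith) hC0
    have : C * (ε + (mw (fun p => 1 + C / ((p : ℝ) - 2)) r - 1)) =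
        C * ε + C * (mw (fun p => 1 + C / ((p : ℝ) - 2)) r - 1) := by ring
    linarith

end MPb51559.BG.Q
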