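import Pool.Agent.Work.MP_b51559_nt.BG.Q.Stmts
import Pool.Agent.Work.MP_b51559_nt.BG.C.PH

set_option autoImplicit false

/-!
# Block BG/Q, item Q7: the double marginal

The marginal `marg F m` does not depend on `t m`; restricted to the plane `t m = 0` (and 0 outside)
it is again a test function, so C_MG applies to it.
-/

namespace MPb51559.BG.Q

open Finset Filter Topology MeasureTheory
open scoped Classical

namespace I_Q7

theorem ind0 : eVariationOn (fun s : ℝ => if s = 0 then (1 : ℝ) else 0) Set.univ ≤ (2 : NNReal) := by
  have e : (fun s : ℝ => if s = 0 then (1 : ℝ) else 0) =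
      fun s : ℝ => (if 0 ≤ s then (1 : ℝ) else 0) + (if 0 < s then (-1 : ℝ) else 0) := by
    funext s
    rcases lt_trichotomy s 0 with h | h | h
    · rw [if_neg h.ne, if_neg (not_le.2 h), if_neg (not_lt.2 h.le)]
      norm_num
    · subst h
      simp
    · rw [if_neg h.ne', if_pos h.le, if_pos h]
      norm_num
  rw [e]
  refine (PH_add _ _).trans ?_
  have h1 : eVariationOn (fun s : ℝ => if 0 ≤ s then (1 : ℝ) else 0) Set.univ ≤
      ENNReal.ofReal (1 - 0) := by
    refine PH_mono _ ?_ 0 1 ?_ ?_
    · intro a b hab
      simp only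
      split_ifs with h1 h2 h2
      · exact le_rfl
      · exact absurd (h1.trans hab) h2
      · norm_num
      · exact le_rfl
    · intro s
      split_ifs <;> norm_num
    · intro s
      split_ifs <;> norm_num
  have h2 : eVariationOn (fun s : ℝ => if 0 < s then (-1 : ℝ) else 0) Set.univ ≤
      ENNReal.ofReal (0 - (-1)) := by
    refine PH_anti _ ?_ (-1) 0 ?_ ?_
    · intro a b hab
      simp only
      split_ifs with h1 h2 h2
      · exact le_rfl
      · norm_num
      · exact absurd (lt_of_lt_of_le h2 hab) h1
      · exact le_rfl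
    · intro s
      split_ifs <;> norm_num
    · intro s
      split_ifs <;> norm_num
  refine (add_le_add h1 h2).trans (le_of_eq ?_)
  rw [← ENNReal.ofReal_add (by norm_num) (by norm_num)]
  norm_num

theorem cind0 (hB : C_BVM) (c : ℝ) :
    eVariationOn (fun s : ℝ => if s = 0 then c else 0) Set.univ ≤ ENNReal.ofReal (2 * |c|) := by
  have h := hB (fun _ => c) (fun s : ℝ => if s = 0 then (1 : ℝ) else 0) |c| 1 0 2 (fun _ => le_rfl)
    (fun s => by
      show |(if s = 0 then (1 : ℝ) else 0)| ≤ 1
      split_ifs <;> norm_num) (by rw [PH_const]; exact bot_le) ind0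
  have e : (fun s : ℝ => if s = 0 then c else 0) =
      fun s : ℝ => c * (if s = 0 then (1 : ℝ) else 0) := by
    funext s
    split_ifs <;> simp
  rw [e]
  refine h.trans (le_of_eq ?_)
  congr 1
  push_cast
  ring

/-- the marginal on the plane `t m = 0` -/
noncomputable def H {k : ℕ} (F : (Fin k → ℝ) → ℝ) (m : Fin k) (t : Fin k → ℝ) : ℝ :=
  if t m = 0 then marg F m t else 0

theorem H_tst (hB : C_BVM) {k : ℕ} {s : ℝ} {F : (Fin k → ℝ) → ℝ} (m : Fin k) (M : ℝ)
    (V : NNReal) (hM : 0 ≤ M) (h1 : Measurable (marg F m)) (h2 : ∀ t, |marg F m t| ≤ M)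
    (h3 : ∀ t u, marg F m (Function.update t m u) = marg F m t)
    (h4 : ∀ t, marg F m t ≠ 0 → (∀ j, j ≠ m → 0 ≤ t j) ∧ ∑ j ∈ univ.erase m, t j ≤ s)
    (h5 : ∀ (t : Fin k → ℝ) (i : Fin k),
      eVariationOn (fun s => marg F m (Function.update t i s)) Set.univ ≤ V) :
    Tst k s (H F m) := by
  refine ⟨?_, ?_, ⟨M, ?_⟩, ⟨V + (2 * M).toNNReal, ?_⟩⟩
  · exact Measurable.ite (measurableSet_eq_fun (measurable_pi_apply m) measurable_const) h1
      measurable_const
  · intro t ht
    unfold H at ht
    by_cases h0 : t m = 0
    · rw [if_pos h0] at ht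
      obtain ⟨a, b⟩ := h4 t ht
      refine ⟨fun i => ?_, ?_⟩
      · by_cases hi : i = m
        · subst hi
          exact h0.ge
        · exact a i hi
      · rw [← Finset.add_sum_erase univ _ (Finset.mem_univ m), h0, zero_add]
        exact b
    · rw [if_neg h0] at ht
      exact absurd rfl ht
  · intro t
    unfold H
    split_ifs
    · exact h2 t
    · rw [abs_zero]
      exact hM
  · intro t i
    rw [ENNReal.coe_add]
    by_cases hi : i = m
    · subst hi
      have e : (fun u => H F i (Function.update t i u)) =
          fun u : ℝ => if u = 0 then marg F i t else 0 := by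
        funext u
        unfold H
        rw [Function.update_self, h3]
      rw [e]
      refine (cind0 hB _).trans (le_trans ?_ (le_add_left le_rfl))
      exact ENNReal.ofReal_le_ofReal (mul_le_mul_of_nonneg_left (h2 t) (by norm_num))
    · refine le_trans ?_ (le_add_right (h5 t i))
      by_cases h0 : t m = 0
      · refine le_of_eq ?_
        congr 1
        funext u
        unfold H
        rw [Function.update_of_ne (Ne.symm hi), if_pos h0]
      · have e : (fun u => H F m (Function.update t i u)) = fun _ : ℝ => (0 : ℝ) := by
          funext u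
          unfold H
          rw [Function.update_of_ne (Ne.symm hi), if_neg h0]
        rw [e, PH_const]
        exact bot_le

theorem marg_H {k : ℕ} {F : (Fin k → ℝ) → ℝ} (m j : Fin k) (hmj : m ≠ j)
    (h3 : ∀ t u, marg F m (Function.update t m u) = marg F m t) (t : Fin k → ℝ) :
    marg (marg F m) j t = marg (H F m) j (Function.update t m 0) := by
  unfold marg
  refine integral_congr_ae (Eventually.of_forall fun u => ?_)
  show marg F m (Function.update t j u) = H F m (Function.update (Function.update t m 0) j u)
  unfold H
  rw [Function.update_of_ne hmj, Function.update_self, if_pos rfl,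
    Function.update_comm hmj, h3]

end I_Q7

open I_Q7 in
theorem prq_Q7 (hB : C_BVM) (hMG : C_MG) : Q7 := by
  intro k s F hs hF
  obtain ⟨M0, V0, hM0, hall⟩ := hMG k s F hs hF
  have key : ∀ m : Fin k, ∃ (M : ℝ) (V : NNReal), 0 ≤ M ∧ ∀ j : Fin k, m ≠ j →
      Measurable (marg (marg F m) j) ∧
      (∀ t, |marg (marg F m) j t| ≤ M) ∧
      (∀ t u, marg (marg F m) j (Function.update t m u) = marg (marg F m) j t) ∧
      (∀ t u, marg (marg F m) j (Function.update t j u) = marg (marg F m) j t) ∧
      (∀ t, marg (marg F m) j t ≠ 0 → (∀ i, i ≠ m → i ≠ j → 0 ≤ t i) ∧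
        ∑ i ∈ (univ.erase m).erase j, t i ≤ s) ∧
      ∀ (t : Fin k → ℝ) (i : Fin k),
        eVariationOn (fun u => marg (marg F m) j (Function.update t i u)) Set.univ ≤ V := by
    intro m
    obtain ⟨a1, a2, a3, a4, a5⟩ := hall m
    obtain ⟨M, V, hM, hH⟩ := hMG k s (H F m) hs (H_tst hB m M0 V0 hM0 a1 a2 a3 a4 a5)
    refine ⟨M, V, hM, fun j hmj => ?_⟩
    obtain ⟨b1, b2, b3, b4, b5⟩ := hH j
    have e := marg_H (F := F) m j hmj a3
    have hind : ∀ t u, marg (marg F m) j (Function.update t m u) = marg (marg F m) j t := by
      intro t u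
      rw [e, e, Function.update_idem]
    refine ⟨?_, ?_, hind, ?_, ?_, ?_⟩
    · have : marg (marg F m) j = fun t => marg (H F m) j (Function.update t m 0) := funext e
      rw [this]
      refine b1.comp ?_
      refine measurable_pi_iff.mpr fun i => ?_
      by_cases h : i = m
      · subst h
        simp only [Function.update_self]
        exact measurable_const
      · simp only [Function.update_of_ne h]
        exact measurable_pi_apply i
    · intro t
      rw [e]
      exact b2 _
    · intro t u
      show (∫ v, marg F m (Function.update (Function.update t j u) j v)) =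
        ∫ v, marg F m (Function.update t j v)
      simp only [Function.update_idem]
    · intro t ht
      rw [e] at ht
      obtain ⟨c1, c2⟩ := b4 _ ht
      refine ⟨fun i him hij => ?_, ?_⟩
      · have := c1 i hij
        rwa [Function.update_of_ne him] at this
      · have hm : m ∈ (univ : Finset (Fin k)).erase j :=
          Finset.mem_erase.2 ⟨hmj, Finset.mem_univ m⟩
        rw [← Finset.add_sum_erase _ _ hm, Function.update_self, zero_add] at c2
        rw [Finset.erase_right_comm]
        refine le_trans (le_of_eq ?_) c2
        refine Finset.sum_congr rfl fun i hi => ?_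
        rw [Function.update_of_ne (Finset.ne_of_mem_erase hi)]
    · intro t i
      by_cases hi : i = m
      · subst hi
        have e2 : (fun u => marg (marg F i) j (Function.update t i u)) =
            fun _ : ℝ => marg (marg F i) j t := by
          funext u
          exact hind t u
        rw [e2, PH_const]
        exact bot_le
      · have e2 : (fun u => marg (marg F m) j (Function.update t i u)) =
            fun u => marg (H F m) j (Function.update (Function.update t m 0) i u) := by
          funext u
          rw [e, Function.update_comm hi]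
        rw [e2]
        exact b5 _ i
  choose M V hM hall2 using key
  refine ⟨∑ m, M m, ∑ m, V m, Finset.sum_nonneg fun m _ => hM m, fun m j hmj => ?_⟩
  obtain ⟨c1, c2, c3, c4, c5, c6⟩ := hall2 m j hmj
  refine ⟨c1, fun t => (c2 t).trans ?_, c3, c4, c5, fun t i => (c6 t i).trans ?_⟩
  · exact Finset.single_le_sum (f := M) (fun i _ => hM i) (Finset.mem_univ m)
  · exact_mod_cast Finset.single_le_sum (f := V) (fun i _ => zero_le (a := V i)) (Finset.mem_univ m)

end MPb51559.BG.Q
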