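import Pool.Agent.Work.MP_b51559_nt.BG.Q.Stmts
import Pool.Agent.Work.MP_b51559_nt.BG.C.PH

set_option autoImplicit false

/-!
# Block BG/Q, item Q8: the integrand of the pair bound is of class BVk
-/

namespace MPb51559.BG.Q

open Finset Filter Topology MeasureTheory
open scoped Classical

namespace I_Q8

theorem ind2 (f g : ℝ → ℝ) (hf : Monotone f) (hg : Antitone g) (f0 : ∀ s, 0 ≤ f s)
    (f1 : ∀ s, f s ≤ 1) (g0 : ∀ s, -1 ≤ g s) (g1 : ∀ s, g s ≤ 0) :
    eVariationOn (fun s => f s + g s) Set.univ ≤ (2 : NNReal) := by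
  refine (PH_add _ _).trans ?_
  refine (add_le_add (PH_mono f hf 0 1 f0 f1) (PH_anti g hg (-1) 0 g0 g1)).trans (le_of_eq ?_)
  rw [← ENNReal.ofReal_add (by norm_num) (by norm_num)]
  norm_num

theorem mono0 : Monotone (fun s : ℝ => if 0 ≤ s then (1 : ℝ) else 0) := by
  intro a b hab
  simp only
  split_ifs with h1 h2 h2
  · exact le_rfl
  · exact absurd (h1.trans hab) h2
  · norm_num
  · exact le_rfl

theorem indco : eVariationOn (fun s : ℝ => if 0 ≤ s ∧ s < 1 then (1 : ℝ) else 0) Set.univ ≤
    (2 : NNReal) := by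
  have e : (fun s : ℝ => if 0 ≤ s ∧ s < 1 then (1 : ℝ) else 0) =
      fun s : ℝ => (if 0 ≤ s then (1 : ℝ) else 0) + (if 1 ≤ s then (-1 : ℝ) else 0) := by
    funext s
    by_cases h0 : 0 ≤ s
    · by_cases h1 : s < 1
      · rw [if_pos ⟨h0, h1⟩, if_pos h0, if_neg (not_le.2 h1)]
        norm_num
      · rw [if_neg (fun h => h1 h.2), if_pos h0, if_pos (not_lt.1 h1)]
        norm_num
    · rw [if_neg (fun h => h0 h.1), if_neg h0, if_neg (fun h => h0 (by linarith))]
      norm_num
  rw [e]
  refine ind2 _ _ mono0 ?_ ?_ ?_ ?_ ?_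
  · intro a b hab
    simp only
    split_ifs with h1 h2 h2
    · exact le_rfl
    · norm_num
    · exact absurd (h2.trans hab) h1
    · exact le_rfl
  all_goals
    intro s
    split_ifs <;> norm_num

theorem indcc (c : ℝ) (hc : 0 ≤ c) :
    eVariationOn (fun s : ℝ => if 0 ≤ s ∧ s ≤ c then (1 : ℝ) else 0) Set.univ ≤ (2 : NNReal) := by
  have e : (fun s : ℝ => if 0 ≤ s ∧ s ≤ c then (1 : ℝ) else 0) =
      fun s : ℝ => (if 0 ≤ s then (1 : ℝ) else 0) + (if c < s then (-1 : ℝ) else 0) := by
    funext s
    by_cases h0 : 0 ≤ s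
    · by_cases h1 : s ≤ c
      · rw [if_pos ⟨h0, h1⟩, if_pos h0, if_neg (not_lt.2 h1)]
        norm_num
      · rw [if_neg (fun h => h1 h.2), if_pos h0, if_pos (not_le.1 h1)]
        norm_num
    · rw [if_neg (fun h => h0 h.1), if_neg h0, if_neg (fun h => h0 (by linarith))]
      norm_num
  rw [e]
  refine ind2 _ _ mono0 ?_ ?_ ?_ ?_ ?_
  · intro a b hab
    simp only
    split_ifs with h1 h2 h2
    · exact le_rfl
    · norm_num
    · exact absurd (lt_of_lt_of_le h2 hab) h1
    · exact le_rfl
  all_goals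
    intro s
    split_ifs <;> norm_num

theorem cind (hB : C_BVM) (p : ℝ → Prop) [DecidablePred p] (B : ℝ)
    (h : eVariationOn (fun s : ℝ => if p s then (1 : ℝ) else 0) Set.univ ≤ (2 : NNReal)) (c : ℝ)
    (hc : |c| ≤ B) :
    eVariationOn (fun s : ℝ => if p s then c else 0) Set.univ ≤ ENNReal.ofReal (2 * B) := by
  have h := hB (fun _ => c) (fun s : ℝ => if p s then (1 : ℝ) else 0) |c| 1 0 2 (fun _ => le_rfl)
    (fun s => by
      show |(if p s then (1 : ℝ) else 0)| ≤ 1
      split_ifs <;> norm_num) (by rw [PH_const]; exact bot_le) h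
  have e : (fun s : ℝ => if p s then c else 0) =
      fun s : ℝ => c * (if p s then (1 : ℝ) else 0) := by
    funext s
    split_ifs <;> simp
  rw [e]
  refine h.trans (ENNReal.ofReal_le_ofReal ?_)
  push_cast
  linarith

end I_Q8

open I_Q8 in
theorem prq_Q8 (hB : C_BVM) (h7 : Q7) : Q8 := by
  intro k s F hs hs1 hF
  obtain ⟨M, V, hM, hall⟩ := h7 k s F hs hF
  refine ⟨M ^ 2, (2 * M ^ 2).toNNReal + (M * V + M * V).toNNReal, by positivity, fun m j hmj => ?_⟩
  obtain ⟨c1, c2, c3, c4, c5, c6⟩ := hall m j hmj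
  set G : (Fin k → ℝ) → ℝ := marg (marg F m) j with hG
  have hG2 : ∀ t, |G t ^ 2| ≤ M ^ 2 := by
    intro t
    rw [abs_pow]
    exact pow_le_pow_left₀ (abs_nonneg _) (c2 t) 2
  have hjm : j ≠ m := Ne.symm hmj
  have hΨ : cutm m (fun t => if 0 ≤ t j ∧ t j ≤ 1 - s then G t ^ 2 else 0) =
      fun t => if 0 ≤ t m ∧ t m < 1 then (if 0 ≤ t j ∧ t j ≤ 1 - s then G t ^ 2 else 0) else 0 := rfl
  rw [hΨ]
  clear_value G
  refine ⟨?_, ?_, ?_, ?_⟩
  · refine Measurable.ite ?_ (Measurable.ite ?_ (c1.pow_const 2) measurable_const) measurable_const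
    · exact (measurableSet_le measurable_const (measurable_pi_apply m)).inter
        (measurableSet_lt (measurable_pi_apply m) measurable_const)
    · exact (measurableSet_le measurable_const (measurable_pi_apply j)).inter
        (measurableSet_le (measurable_pi_apply j) measurable_const)
  · intro t ht
    by_cases h1 : 0 ≤ t m ∧ t m < 1
    · rw [if_pos h1] at ht
      by_cases h2 : 0 ≤ t j ∧ t j ≤ 1 - s
      · rw [if_pos h2] at ht
        have h3 : G t ≠ 0 := fun hc => ht (by rw [hc]; norm_num)
        obtain ⟨d1, d2⟩ := c5 t h3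
        intro i
        by_cases him : i = m
        · subst him
          exact ⟨h1.1, h1.2.le⟩
        · by_cases hij : i = j
          · subst hij
            exact ⟨h2.1, by linarith [h2.2]⟩
          · refine ⟨d1 i him hij, ?_⟩
            have hi : i ∈ ((univ : Finset (Fin k)).erase m).erase j :=
              Finset.mem_erase.2 ⟨hij, Finset.mem_erase.2 ⟨him, Finset.mem_univ i⟩⟩
            have := Finset.single_le_sum (f := t) (s := ((univ : Finset (Fin k)).erase m).erase j)
              (fun i' hi' => d1 i' (Finset.ne_of_mem_erase (Finset.mem_of_mem_erase hi'))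
                (Finset.ne_of_mem_erase hi')) hi
            linarith
      · rw [if_neg h2] at ht
        exact absurd rfl ht
    · rw [if_neg h1] at ht
      exact absurd rfl ht
  · intro t
    split_ifs
    · exact hG2 t
    · rw [abs_zero]; positivity
    · rw [abs_zero]; positivity
  · intro t i
    rw [ENNReal.coe_add]
    by_cases him : i = m
    · subst him
      refine le_trans ?_ (le_add_right le_rfl)
      have e : (fun u => (fun t : Fin k → ℝ => if 0 ≤ t i ∧ t i < 1 then
          (if 0 ≤ t j ∧ t j ≤ 1 - s then G t ^ 2 else 0) else 0)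
          (Function.update t i u)) = fun u : ℝ => if 0 ≤ u ∧ u < 1 then
            (if 0 ≤ t j ∧ t j ≤ 1 - s then G t ^ 2 else 0) else 0 := by
        funext u
        simp only [Function.update_self, Function.update_of_ne hjm, c3]
      rw [e]
      refine cind hB (fun u => 0 ≤ u ∧ u < 1) (M ^ 2) indco
        (if 0 ≤ t j ∧ t j ≤ 1 - s then G t ^ 2 else 0) ?_
      split_ifs
      · exact hG2 t
      · rw [abs_zero]; positivity
    · by_cases hij : i = j
      · subst hij
        refine le_trans ?_ (le_add_right le_rfl)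
        have e : (fun u => (fun t : Fin k → ℝ => if 0 ≤ t m ∧ t m < 1 then
            (if 0 ≤ t i ∧ t i ≤ 1 - s then G t ^ 2 else 0) else 0)
            (Function.update t i u)) = fun u : ℝ => if 0 ≤ u ∧ u ≤ 1 - s then
              (if 0 ≤ t m ∧ t m < 1 then G t ^ 2 else 0) else 0 := by
          funext u
          simp only [Function.update_self, Function.update_of_ne hmj, c4]
          by_cases h1 : 0 ≤ t m ∧ t m < 1
          · rw [if_pos h1, if_pos h1]
          · rw [if_neg h1, if_neg h1]
            split_ifs <;> rfl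
        rw [e]
        refine cind hB (fun u => 0 ≤ u ∧ u ≤ 1 - s) (M ^ 2) (indcc (1 - s) (by linarith))
          (if 0 ≤ t m ∧ t m < 1 then G t ^ 2 else 0) ?_
        split_ifs
        · exact hG2 t
        · rw [abs_zero]; positivity
      · refine le_trans ?_ (le_add_left le_rfl)
        have e : (fun u => (fun t : Fin k → ℝ => if 0 ≤ t m ∧ t m < 1 then
            (if 0 ≤ t j ∧ t j ≤ 1 - s then G t ^ 2 else 0) else 0)
            (Function.update t i u)) = fun u : ℝ => if 0 ≤ t m ∧ t m < 1 then
              (if 0 ≤ t j ∧ t j ≤ 1 - s then G (Function.update t i u) ^ 2 else 0) else 0 := by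
          funext u
          simp only [Function.update_of_ne (Ne.symm him), Function.update_of_ne (Ne.symm hij)]
        rw [e]
        by_cases h1 : 0 ≤ t m ∧ t m < 1
        · by_cases h2 : 0 ≤ t j ∧ t j ≤ 1 - s
          · simp only [if_pos h1, if_pos h2, sq]
            exact hB _ _ M M V V (fun u => c2 _) (fun u => c2 _) (c6 t i) (c6 t i)
          · simp only [if_pos h1, if_neg h2, PH_const]
            exact bot_le
        · simp only [if_neg h1, PH_const]
          exact bot_le

end MPb51559.BG.Q
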