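import Pool.Agent.Work.MP_b51559_nt.BG.Q.Fin1
import Pool.Agent.Work.MP_b51559_nt.BG.Q.I_Q8
import Pool.Agent.Work.MP_b51559_nt.DP.KS1
import Pool.Agent.Work.MP_b51559_nt.DP.KST

set_option autoImplicit false

/-! # Block BG/Q: the theorem, no hypotheses -/

namespace MPb51559.BG.Q

open Finset
open scoped Classical

theorem all_Q8 : Q8 := prq_Q8 prf_BVM all_Q7

theorem q_SEC : SEC := all_SEC all_BVE all_Q8

/-- at least one quarter, up to epsilon, of the ordered pairs of every large admissible set are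
pairs of consecutive primes in a translate -/
theorem quarter (ε : ℝ) (hε : 0 < ε) :
    ∃ K : ℕ, ∀ V : Finset ℕ, K ≤ V.card →
      (∀ p : ℕ, p.Prime → ∃ v : ℕ, ∀ a ∈ V, ¬ p ∣ v + a) →
      ∃ x₀ : ℕ, ∀ x : ℕ, x₀ ≤ x →
        (1 / 4 - ε) * (V.card : ℝ) ^ 2 ≤
          (Set.ncard {y : ℕ × ℕ | y.1 ∈ V ∧ y.2 ∈ V ∧ y.1 ≠ y.2 ∧ ∃ n : ℕ, x < n ∧
            n + y.1 < 2 * x ∧ n + y.2 < 2 * x ∧ (n + y.1).Prime ∧ (n + y.2).Prime ∧
            ∀ q : ℕ, q.Prime → ¬ (n + y.1 < q ∧ q < n + y.2) ∧ ¬ (n + y.2 < q ∧ q < n + y.1)} : ℝ) :=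
  quarter_of_Q8 all_Q8 (DP.prf_KST DP.prf_KS1) ε hε

end MPb51559.BG.Q
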