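import Pool.Agent.Work.MP_b51559_nt.BG.Q.Quarter

set_option autoImplicit false

/-! # Block BG/Q: the final form without own definitions -/

namespace MPb51559.BG.Q

open Finset
open scoped Classical

theorem quarter_of (h : QuarterCons) (ε : ℝ) (hε : 0 < ε) :
    ∃ K : ℕ, ∀ V : Finset ℕ, K ≤ V.card →
      (∀ p : ℕ, p.Prime → ∃ v : ℕ, ∀ a ∈ V, ¬ p ∣ v + a) →
      ∃ x₀ : ℕ, ∀ x : ℕ, x₀ ≤ x →
        (1 / 4 - ε) * (V.card : ℝ) ^ 2 ≤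
          (Set.ncard {y : ℕ × ℕ | y.1 ∈ V ∧ y.2 ∈ V ∧ y.1 ≠ y.2 ∧ ∃ n : ℕ, x < n ∧
            n + y.1 < 2 * x ∧ n + y.2 < 2 * x ∧ (n + y.1).Prime ∧ (n + y.2).Prime ∧
            ∀ q : ℕ, q.Prime → ¬ (n + y.1 < q ∧ q < n + y.2) ∧ ¬ (n + y.2 < q ∧ q < n + y.1)} : ℝ) := by
  obtain ⟨K, hK⟩ := h ε hε
  refine ⟨K, fun V hV hadm => ?_⟩
  obtain ⟨x0, hx0⟩ := hK V hV hadm
  refine ⟨x0, fun x hx => (hx0 x hx).trans (le_of_eq ?_)⟩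
  rw [← Set.ncard_coe_finset]
  congr 2
  ext y
  simp only [coe_filter, mem_product, Set.mem_ofPred_eq, R0, and_assoc]

end MPb51559.BG.Q
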