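import Pool.Agent.Work.MP_b51559_nt.BG.Q.Stmts

set_option autoImplicit false

/-! # Block BG/Q, item Q9: the integral of the integrand of the pair bound -/

namespace MPb51559.BG.Q

open Finset Filter Topology MeasureTheory
open scoped Classical

namespace I_Q9

/-- Fubini in one variable for a product. -/
theorem fub {k : ℕ} (j : Fin k) (g : (Fin k → ℝ) → ℝ)
    (hg : ∀ t u, g (Function.update t j u) = g t) :
    ∃ c : ℝ, ∀ φ : ℝ → ℝ, ∫ t, φ (t j) * g t = (∫ s, φ s) * c := by
  rcases k with _ | n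
  · exact j.elim0
  · refine ⟨∫ b : Fin n → ℝ, g (j.insertNth (0 : ℝ) b), fun φ => ?_⟩
    set e := MeasurableEquiv.piFinSuccAbove (fun _ : Fin (n + 1) => ℝ) j with he
    have hpres : MeasurePreserving e volume volume :=
      volume_preserving_piFinSuccAbove (fun _ : Fin (n + 1) => ℝ) j
    have h1 : ∀ t : Fin (n + 1) → ℝ, φ (t j) * g t =
        (fun p : ℝ × (Fin n → ℝ) => φ p.1 * g (j.insertNth (0 : ℝ) p.2)) (e t) := by
      intro t
      show _ = φ (t j) * g (j.insertNth (0 : ℝ) (fun i => t (j.succAbove i)))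
      have h2 : (j.insertNth (0 : ℝ) (fun i => t (j.succAbove i)) : Fin (n + 1) → ℝ) =
          Function.update t j 0 := by
        rw [Fin.insertNth_eq_iff]
        refine ⟨by simp, ?_⟩
        funext i
        simp [Fin.removeNth, Fin.succAbove_ne]
      rw [h2, hg]
    rw [integral_congr_ae (Filter.Eventually.of_forall h1),
      hpres.integral_comp e.measurableEmbedding
        (fun p : ℝ × (Fin n → ℝ) => φ p.1 * g (j.insertNth (0 : ℝ) p.2)),
      Measure.volume_eq_prod]
    exact integral_prod_mul φ (fun b : Fin n → ℝ => g (j.insertNth (0 : ℝ) b))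

end I_Q9

open I_Q9 in
theorem prq_Q9 (h7 : Q7) : Q9 := by
  intro k s F hs0 hs1 hF m j hmj
  obtain ⟨M, V, hM, hall⟩ := h7 k s F hs0 hF
  obtain ⟨-, -, -, hj, -, -⟩ := hall m j hmj
  set g : (Fin k → ℝ) → ℝ := cutm m (fun t => marg (marg F m) j t ^ 2) with hg
  have hgj : ∀ t u, g (Function.update t j u) = g t := by
    intro t u
    simp only [hg, cutm, Function.update_of_ne hmj, hj]
  have hg0 : ∀ t, 0 ≤ g t := by
    intro t
    simp only [hg, cutm]
    split_ifs
    · positivity
    · exact le_rfl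
  obtain ⟨c, hc⟩ := fub j g hgj
  have e1 : ∀ t, cutm j g t = (Set.Ico (0 : ℝ) 1).indicator (fun _ => (1 : ℝ)) (t j) * g t := by
    intro t
    by_cases h : 0 ≤ t j ∧ t j < 1
    · rw [Set.indicator_of_mem (show t j ∈ Set.Ico (0 : ℝ) 1 from h), cutm, if_pos h, one_mul]
    · rw [Set.indicator_of_notMem (show t j ∉ Set.Ico (0 : ℝ) 1 from h), cutm, if_neg h, zero_mul]
  have e2 : ∀ t, cutm m (fun t => if 0 ≤ t j ∧ t j ≤ 1 - s then marg (marg F m) j t ^ 2 else 0) t =
      (Set.Icc (0 : ℝ) (1 - s)).indicator (fun _ => (1 : ℝ)) (t j) * g t := by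
    intro t
    by_cases h : 0 ≤ t j ∧ t j ≤ 1 - s
    · rw [Set.indicator_of_mem (show t j ∈ Set.Icc (0 : ℝ) (1 - s) from h), one_mul]
      simp only [hg, cutm, if_pos h]
    · rw [Set.indicator_of_notMem (show t j ∉ Set.Icc (0 : ℝ) (1 - s) from h), zero_mul]
      simp only [cutm, if_neg h, ite_self]
  have hGG : GG F m j = c := by
    have h1 : GG F m j = ∫ t, cutm j g t := rfl
    rw [h1]
    simp only [e1]
    rw [hc, integral_indicator measurableSet_Ico, setIntegral_const, Real.volume_real_Ico,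
      sub_zero, max_eq_left zero_le_one, one_smul, one_mul]
  refine ⟨?_, ?_⟩
  · show 0 ≤ ∫ t, cutm j g t
    refine integral_nonneg fun t => ?_
    simp only [cutm]
    split_ifs
    · exact hg0 t
    · exact le_rfl
  · simp only [e2]
    rw [hc, hGG, integral_indicator measurableSet_Icc, setIntegral_const, Real.volume_real_Icc,
      sub_zero, max_eq_left (by linarith), smul_eq_mul, mul_one]

end MPb51559.BG.Q
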