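import Pool.Agent.Work.MP_b51559_nt.BG.Q.I_Q1
import Pool.Agent.Work.MP_b51559_nt.BG.Q.I_Q2
import Pool.Agent.Work.MP_b51559_nt.BG.Q.I_Q3
import Pool.Agent.Work.MP_b51559_nt.BG.Q.I_Q4
import Pool.Agent.Work.MP_b51559_nt.BG.Q.I_Q5
import Pool.Agent.Work.MP_b51559_nt.BG.Q.I_Q6
import Pool.Agent.Work.MP_b51559_nt.BG.Q.I_Q7
import Pool.Agent.Work.MP_b51559_nt.BG.Q.I_Q9
import Pool.Agent.Work.MP_b51559_nt.BG.Q.I_Q10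
import Pool.Agent.Work.MP_b51559_nt.BG.Q.I_Q11
import Pool.Agent.Work.MP_b51559_nt.BG.Q.I_Q12
import Pool.Agent.Work.MP_b51559_nt.BG.Q.I_Q13
import Pool.Agent.Work.MP_b51559_nt.BG.Q.I_Q14
import Pool.Agent.Work.MP_b51559_nt.BG.Q.I_Q15
import Pool.Agent.Work.MP_b51559_nt.BG.Q.I_Q16
import Pool.Agent.Work.MP_b51559_nt.BG.Q.I_Q17
import Pool.Agent.Work.MP_b51559_nt.BG.Q.I_Q18
import Pool.Agent.Work.MP_b51559_nt.BG.Q.I_Q19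
import Pool.Agent.Work.MP_b51559_nt.BG.Q.FUN
import Pool.Agent.Work.MP_b51559_nt.BG.Q.Fin0
import Pool.Agent.Work.MP_b51559_nt.BG.Fin
import Pool.Agent.Work.MP_b51559_nt.DP.SUPR
import Pool.Agent.Work.MP_b51559_nt.DP.TU5
import Pool.Agent.Work.MP_b51559_nt.DP.ES

set_option autoImplicit false

/-! # Block BG/Q: everything except items Q8 and KST -/

namespace MPb51559.BG.Q

open Finset
open scoped Classical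

theorem all_Q1 : Q1 := prq_Q1 prf_INV prf_SUP
theorem all_Q4 : Q4 := prq_Q4 prf_BAS prf_SUP
theorem all_Q5 : Q5 := prq_Q5 prf_BAS all_PERT
theorem all_Q6 : Q6 := prq_Q6 prf_BAS (prf_MSU prf_BAS) all_TOT all_ONE prf_D1 prf_MG all_YM prq_Q3 all_Q5
theorem all_Q7 : Q7 := prq_Q7 prf_BVM prf_MG
theorem all_Q9 : Q9 := prq_Q9 all_Q7
theorem all_Q10 : Q10 := prq_Q10 all_ONE prq_Q2
theorem all_Q11 (h8 : Q8) : Q11 := prq_Q11 prf_BAS all_QN all_APX all_Q4 all_Q6 all_Q7 h8 all_Q9 all_Q10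
theorem all_Q12 (hBV : BVE) : Q12 := prq_Q12 (all_S2B hBV)
theorem all_Q13 (hBV : BVE) (h8 : Q8) : Q13 :=
  prq_Q13 all_Q1 all_Q4 all_Q6 all_Q9 (all_Q11 h8) (all_Q12 hBV)
theorem all_Q15 (hBV : BVE) (h8 : Q8) : Q15 := prq_Q15 prf_INV all_Q1 (all_Q13 hBV h8) prq_Q14
theorem all_SEC (hBV : BVE) (h8 : Q8) : SEC := prq_Q19 all_Q9 (all_Q15 hBV h8) prq_Q16 prq_Q17 prq_Q18

theorem quarter_of_Q8 (h8 : Q8) (hKST : DP.D_KST) (ε : ℝ) (hε : 0 < ε) :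
    ∃ K : ℕ, ∀ V : Finset ℕ, K ≤ V.card →
      (∀ p : ℕ, p.Prime → ∃ v : ℕ, ∀ a ∈ V, ¬ p ∣ v + a) →
      ∃ x₀ : ℕ, ∀ x : ℕ, x₀ ≤ x →
        (1 / 4 - ε) * (V.card : ℝ) ^ 2 ≤
          (Set.ncard {y : ℕ × ℕ | y.1 ∈ V ∧ y.2 ∈ V ∧ y.1 ≠ y.2 ∧ ∃ n : ℕ, x < n ∧
            n + y.1 < 2 * x ∧ n + y.2 < 2 * x ∧ (n + y.1).Prime ∧ (n + y.2).Prime ∧
            ∀ q : ℕ, q.Prime → ¬ (n + y.1 < q ∧ q < n + y.2) ∧ ¬ (n + y.2 < q ∧ q < n + y.1)} : ℝ) :=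
  quarter_of (prq_Quarter (prq_Five all_BVE A.bg_PNTW (all_SEC all_BVE h8) prf_FUN)
    (DP.prf_ES (DP.prf_SUPR DP.prf_TU5) hKST)) ε hε

end MPb51559.BG.Q
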