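import Pool.Agent.Work.MP_b51559_nt.BG.Q.Stmts

set_option autoImplicit false

/-!
# Block BG/Q: five groups of a tuple and consecutive primes (from SEC and FUN)
-/

namespace MPb51559.BG.Q

open Finset Filter Topology MeasureTheory
open scoped Classical

/-- `n + a` and `n + b` are consecutive primes in (x, 2x) for some n > x -/
def R0 (x : ℕ) (a b : ℕ) : Prop := a ≠ b ∧ ∃ n : ℕ, x < n ∧ n + a < 2 * x ∧ n + b < 2 * x ∧
  (n + a).Prime ∧ (n + b).Prime ∧ ∀ q : ℕ, q.Prime → ¬ (n + a < q ∧ q < n + b) ∧ ¬ (n + b < q ∧ q < n + a)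

theorem R0_symm (x : ℕ) {a b : ℕ} (h : R0 x a b) : R0 x b a := by
  obtain ⟨h1, n, h2, h3, h4, h5, h6, h7⟩ := h
  exact ⟨h1.symm, n, h2, h4, h3, h6, h5, fun q hq => ⟨(h7 q hq).2, (h7 q hq).1⟩⟩

namespace I_Five

/-- the label changes at two consecutive primes -/
theorem switch {k : ℕ} (h : Fin k → ℕ) (g : Fin k → Fin 5) (n : ℕ) (H : ℕ)
    (hH : ∀ i, h i ≤ H)
    (hT : ∀ t, t ≤ H → (∀ i, h i ≠ t) → ¬ (n + t).Prime) :
    ∀ d : ℕ, ∀ m j : Fin k, g m ≠ g j → (n + h m).Prime → (n + h j).Prime → h m < h j →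
      h j - h m ≤ d → ∃ m' j' : Fin k, g m' ≠ g j' ∧ (n + h m').Prime ∧ (n + h j').Prime ∧
        h m' < h j' ∧ ∀ q : ℕ, q.Prime → ¬ (n + h m' < q ∧ q < n + h j') := by
  intro d
  induction d with
  | zero => intro m j _ _ _ h1 h2; omega
  | succ d ih =>
    intro m j hg hm hj hlt hd
    by_cases hq : ∃ q : ℕ, q.Prime ∧ n + h m < q ∧ q < n + h j
    · obtain ⟨q, hqp, hq1, hq2⟩ := hq
      have hqn : n + (q - n) = q := by omega
      have hle : q - n ≤ H := by have := hH j; omega
      obtain ⟨i, hi⟩ : ∃ i, h i = q - n := by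
        by_contra hc
        apply hT (q - n) hle (fun i hi => hc ⟨i, hi⟩)
        rw [hqn]; exact hqp
      have hip : (n + h i).Prime := by rw [hi, hqn]; exact hqp
      by_cases hgi : g m = g i
      · exact ih i j (by rw [← hgi]; exact hg) hip hj (by omega) (by omega)
      · exact ih m i hgi hm hip (by omega) (by omega)
    · refine ⟨m, j, hg, hm, hj, hlt, fun q hqp hqq => hq ⟨q, hqp, hqq.1, hqq.2⟩⟩

/-- choice of the class: all translates outside the tuple are composite -/
theorem class_exists {k : ℕ} (h : Fin k → ℕ)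
    (hadm : ∀ p : ℕ, p.Prime → ∃ v : ℕ, ∀ i, ¬ p ∣ v + h i) (H : ℕ) (hH : ∀ i, h i ≤ H) :
    ∃ D2 : ℕ, ∀ D0 ≥ D2, ∃ v0 : ℕ, (∀ i, (v0 + h i).Coprime (primorial D0)) ∧
      ∀ n : ℕ, n ≡ v0 [MOD primorial D0] → D0 < n → ∀ t, t ≤ H → (∀ i, h i ≠ t) →
        ¬ (n + t).Prime := by
  -- the primes killing the other translates
  let qq : ℕ → ℕ := fun t => Nat.nth Nat.Prime (H + t)
  have hqp : ∀ t, (qq t).Prime := fun t => Nat.prime_nth_prime _
  have hqmono : StrictMono qq := by
    intro a b hab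
    exact Nat.nth_strictMono Nat.infinite_setOfPred_prime (by omega)
  have hqH : ∀ t, H < qq t := by
    intro t
    have h1 : H + t + 2 ≤ Nat.nth Nat.Prime (H + t) := Nat.add_two_le_nth_prime (H + t)
    show H < Nat.nth Nat.Prime (H + t)
    omega
  refine ⟨qq H, fun D0 hD0 => ?_⟩
  choose v hv using hadm
  let r : ℕ → ℕ := fun p =>
    if hp : ∃ t, t ≤ H ∧ (∀ i, h i ≠ t) ∧ qq t = p then (p - 1) * hp.choose else
      if hp' : p.Prime then v p hp' else 0
  let P : Finset ℕ := (range (D0 + 1)).filter Nat.Prime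
  have hPp : ∀ p ∈ P, p.Prime := fun p hp => (mem_filter.1 hp).2
  obtain ⟨v0, hv0⟩ := Nat.chineseRemainderOfFinset r id P (fun p hp => (hPp p hp).ne_zero)
    (fun p hp q hq hpq => (Nat.coprime_primes (hPp p hp) (hPp q hq)).2 hpq)
  simp only [id] at hv0
  have hprim : ∀ p, p.Prime → p ≤ D0 → p ∣ primorial D0 := by
    intro p hp hle
    exact dvd_prod_of_mem (fun p : ℕ => p) (mem_filter.2 ⟨mem_range.2 (by omega), hp⟩)
  have hkill : ∀ t, t ≤ H → (∀ i, h i ≠ t) → qq t ∣ v0 + t := by
    intro t ht hti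
    have hex : ∃ t', t' ≤ H ∧ (∀ i, h i ≠ t') ∧ qq t' = qq t := ⟨t, ht, hti, rfl⟩
    have hmem : qq t ∈ P := mem_filter.2 ⟨mem_range.2 (by have := hqmono.monotone ht; omega), hqp t⟩
    have h1 := hv0 (qq t) hmem
    have h2 : r (qq t) = (qq t - 1) * hex.choose := by
      simp only [r]
      rw [dif_pos hex]
    have h3 : hex.choose = t := hqmono.injective hex.choose_spec.2.2
    rw [h3] at h2
    rw [h2] at h1
    have h4 : v0 + t ≡ (qq t - 1) * t + t [MOD qq t] := h1.add_right t
    have h5 : (qq t - 1) * t + t = qq t * t := by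
      have := (hqp t).pos
      obtain ⟨c, hc⟩ : ∃ c, qq t = c + 1 := ⟨qq t - 1, by omega⟩
      rw [hc]; simp; ring
    rw [h5] at h4
    exact (Nat.modEq_zero_iff_dvd.1 (h4.trans (Nat.modEq_zero_iff_dvd.2 (dvd_mul_right _ _))))
  refine ⟨v0, ?_, ?_⟩
  · intro i
    rw [Nat.coprime_comm]
    unfold primorial
    refine Nat.Coprime.prod_left fun p hp => ?_
    obtain ⟨hp1, hp2⟩ := mem_filter.1 hp
    rw [Nat.Prime.coprime_iff_not_dvd hp2]
    intro hdvd
    by_cases hex : ∃ t, t ≤ H ∧ (∀ i, h i ≠ t) ∧ qq t = p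
    · obtain ⟨t, ht, hti, rfl⟩ := hex
      have h1 := hkill t ht hti
      have h2 := hqH t
      have h3 := hH i
      have h4 := hti i
      -- qq t divides the difference of v0 + h i and v0 + t
      rcases lt_or_gt_of_ne h4 with h5 | h5
      · have : qq t ∣ (v0 + t) - (v0 + h i) := Nat.dvd_sub h1 hdvd
        have h6 := Nat.le_of_dvd (by omega) this
        omega
      · have : qq t ∣ (v0 + h i) - (v0 + t) := Nat.dvd_sub hdvd h1
        have h6 := Nat.le_of_dvd (by omega) this
        omega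
    · have h1 := hv0 p hp
      have h2 : r p = v p hp2 := by
        simp only [r]
        rw [dif_neg hex, dif_pos hp2]
      rw [h2] at h1
      have h3 : v0 + h i ≡ v p hp2 + h i [MOD p] := h1.add_right _
      exact hv p hp2 i ((h3.dvd_iff dvd_rfl).1 hdvd)
  · intro n hn hD t ht hti hpr
    have h1 : qq t ∣ n + t := by
      have hle : qq t ≤ D0 := by have := hqmono.monotone ht; omega
      have h2 : n ≡ v0 [MOD qq t] := hn.of_dvd (hprim _ (hqp t) hle)
      exact ((h2.add_right t).dvd_iff dvd_rfl).2 (hkill t ht hti)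
    have h2 : qq t ≤ D0 := by have := hqmono.monotone ht; omega
    rcases (Nat.dvd_prime hpr).1 h1 with h3 | h3
    · exact (hqp t).one_lt.ne' h3
    · omega

end I_Five

/-- FIVE GROUPS: κ is absolute; five disjoint groups of κ integers, admissible together, contain two
integers of different groups which are translates of consecutive primes in (x, 2x). -/
def Five : Prop := ∃ κ : ℕ, ∀ A : Fin 5 → Finset ℕ, (∀ i, (A i).card = κ) →
  (∀ i j, i ≠ j → Disjoint (A i) (A j)) →
  (∀ p : ℕ, p.Prime → ∃ v : ℕ, ∀ i, ∀ a ∈ A i, ¬ p ∣ v + a) →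
  ∃ x0 : ℕ, ∀ x ≥ x0, ∃ i j, i ≠ j ∧ ∃ a ∈ A i, ∃ b ∈ A j, R0 x a b

theorem prq_Five (hBV : BVE) (hP : PNTW) (hSEC : SEC) (hFUN : FUN) : Five := by
  obtain ⟨K0, hK0⟩ := hFUN (1 / 20) (by norm_num)
  set κ := K0 + 1 with hκ
  refine ⟨κ, fun A hA hdis hadm => ?_⟩
  -- the tuple
  let h : Fin (5 * κ) → ℕ := fun i =>
    (A (finProdFinEquiv.symm i).1).orderEmbOfFin (hA _) (finProdFinEquiv.symm i).2
  let g : Fin (5 * κ) → Fin 5 := fun i => (finProdFinEquiv.symm i).1
  have hmem : ∀ i, h i ∈ A (g i) := fun i => Finset.orderEmbOfFin_mem _ _ _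
  have hinj : Function.Injective h := by
    intro i j hij
    have hg : g i = g j := by
      by_contra hc
      have h1 := hmem i
      rw [hij] at h1
      exact (disjoint_left.1 (hdis _ _ hc)) h1 (hmem j)
    have h2 : (finProdFinEquiv.symm i) = (finProdFinEquiv.symm j) := by
      have hij' : (A (finProdFinEquiv.symm i).1).orderEmbOfFin (hA _) (finProdFinEquiv.symm i).2 =
        (A (finProdFinEquiv.symm j).1).orderEmbOfFin (hA _) (finProdFinEquiv.symm j).2 := hij
      have hg' : (finProdFinEquiv.symm i).1 = (finProdFinEquiv.symm j).1 := hg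
      refine Prod.ext hg' ?_
      generalize hu : finProdFinEquiv.symm i = u at *
      generalize hw : finProdFinEquiv.symm j = w at *
      obtain ⟨u1, u2⟩ := u
      obtain ⟨w1, w2⟩ := w
      simp only at hg'
      subst hg'
      simp only at hij'
      exact (RelEmbedding.injective _ hij')
    exact finProdFinEquiv.symm.injective h2
  have hadm' : ∀ p : ℕ, p.Prime → ∃ v : ℕ, ∀ i, ¬ p ∣ v + h i := by
    intro p hp
    obtain ⟨v, hv⟩ := hadm p hp
    exact ⟨v, fun i => hv (g i) (h i) (hmem i)⟩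
  obtain ⟨H, hH⟩ : ∃ H, ∀ i, h i ≤ H :=
    ⟨∑ i, h i, fun i => single_le_sum (f := h) (fun j _ => Nat.zero_le _) (mem_univ i)⟩
  -- the function
  obtain ⟨s, μ, I, J, B, F, hs0, hs1, hμ, hB, hF, hI, hJ, hG, hmain⟩ := hK0 (5 * κ) (by omega)
  -- the criterion
  have hcrit : (∑ m, ∑ j, if m ≠ j ∧ g m = g j then GG F m j / (1 - s) else 0) +
      4 * μ ^ 2 * ∫ t, F t ^ 2 < (2 * μ - 1) * ∑ m, JJ F m := by
    have h1s : 0 < 1 - s := by linarith
    have e1 : (∑ m, ∑ j, if m ≠ j ∧ g m = g j then GG F m j / (1 - s) else 0) ≤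
        (1 / 4 - 1 / 20) * ((5 * κ : ℕ) : ℝ) ^ 2 * (B / (1 - s)) := by
      have hB' : 0 ≤ B / (1 - s) := by positivity
      have e2 : ∀ m : Fin (5 * κ), (∑ j, if m ≠ j ∧ g m = g j then GG F m j / (1 - s) else 0) ≤
          κ * (B / (1 - s)) := by
        intro m
        calc (∑ j, if m ≠ j ∧ g m = g j then GG F m j / (1 - s) else 0)
            ≤ ∑ j, if g m = g j then B / (1 - s) else 0 := by
              refine sum_le_sum fun j _ => ?_
              by_cases h1 : m ≠ j ∧ g m = g j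
              · rw [if_pos h1, if_pos h1.2]
                exact div_le_div_of_nonneg_right (hG m j h1.1) h1s.le
              · rw [if_neg h1]
                split_ifs
                · exact hB'
                · exact le_refl 0
          _ = ((univ.filter fun j => g m = g j).card : ℝ) * (B / (1 - s)) := by
              rw [← sum_filter, sum_const, nsmul_eq_mul]
          _ = κ * (B / (1 - s)) := by
              congr 2
              have : (univ.filter fun j => g m = g j).card = (univ : Finset (Fin κ)).card := by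
                symm
                refine card_bij (fun c _ => finProdFinEquiv (g m, c)) ?_ ?_ ?_
                · intro c _
                  refine mem_filter.2 ⟨mem_univ _, ?_⟩
                  show g m = (finProdFinEquiv.symm (finProdFinEquiv (g m, c))).1
                  rw [Equiv.symm_apply_apply]
                · intro c _ c' _ hcc
                  have := finProdFinEquiv.injective hcc
                  exact (Prod.ext_iff.1 this).2
                · intro j hj
                  refine ⟨(finProdFinEquiv.symm j).2, mem_univ _, ?_⟩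
                  have h2 : g m = (finProdFinEquiv.symm j).1 := (mem_filter.1 hj).2
                  rw [h2]
                  exact finProdFinEquiv.apply_symm_apply j
              rw [this, card_univ, Fintype.card_fin]
      calc (∑ m, ∑ j, if m ≠ j ∧ g m = g j then GG F m j / (1 - s) else 0)
          ≤ ∑ m : Fin (5 * κ), κ * (B / (1 - s)) := sum_le_sum fun m _ => e2 m
        _ = (5 * κ : ℕ) * (κ * (B / (1 - s))) := by
            rw [sum_const, card_univ, Fintype.card_fin, nsmul_eq_mul]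
        _ = (1 / 4 - 1 / 20) * ((5 * κ : ℕ) : ℝ) ^ 2 * (B / (1 - s)) := by
            push_cast; ring
    have e3 : ((5 * κ : ℕ) : ℝ) * J ≤ ∑ m, JJ F m := by
      calc ((5 * κ : ℕ) : ℝ) * J = ∑ m : Fin (5 * κ), J := by
            rw [sum_const, card_univ, Fintype.card_fin, nsmul_eq_mul]
        _ ≤ _ := sum_le_sum fun m _ => hJ m
    have e4 : 4 * μ ^ 2 * ∫ t, F t ^ 2 ≤ 4 * μ ^ 2 * I := by
      exact mul_le_mul_of_nonneg_left hI (by positivity)
    have e5 : (2 * μ - 1) * (((5 * κ : ℕ) : ℝ) * J) ≤ (2 * μ - 1) * ∑ m, JJ F m :=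
      mul_le_mul_of_nonneg_left e3 (by linarith)
    linarith
  obtain ⟨D1, hD1⟩ := hSEC hBV hP (5 * κ) h hinj s μ F hs0 hs1 hF (fun m j => g m = g j)
    (by convert hcrit)
  obtain ⟨D2, hD2⟩ := I_Five.class_exists h hadm' H hH
  set D0 := max D1 D2 with hD0
  obtain ⟨v0, hv0, hcomp⟩ := hD2 D0 (le_max_right _ _)
  obtain ⟨x0, hx0⟩ := hD1 D0 (le_max_left _ _)
  refine ⟨max ⌈x0⌉₊ D0, fun x hx => ?_⟩
  have hxx : x0 ≤ (x : ℝ) := (Nat.le_ceil x0).trans (by exact_mod_cast (le_max_left _ _).trans hx)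
  obtain ⟨n, hn1, hn2, hn3, m, j, hmj, hE, hm, hj⟩ := hx0 x hxx v0 hv0
  have hn2' : x < n := by exact_mod_cast hn2
  have hn3' : ∀ i, n + h i < 2 * x := fun i => by exact_mod_cast hn3 i
  have hDn : D0 < n := lt_of_le_of_lt ((le_max_right _ _).trans hx) hn2'
  have hT : ∀ t, t ≤ H → (∀ i, h i ≠ t) → ¬ (n + t).Prime := hcomp n hn1 hDn
  have hfin : ∃ m' j' : Fin (5 * κ), g m' ≠ g j' ∧ (n + h m').Prime ∧ (n + h j').Prime ∧
      h m' < h j' ∧ ∀ q : ℕ, q.Prime → ¬ (n + h m' < q ∧ q < n + h j') := by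
    have hne : h m ≠ h j := fun hc => hmj (hinj hc)
    rcases lt_or_gt_of_ne hne with hlt | hlt
    · exact I_Five.switch h g n H hH hT _ m j hE hm hj hlt le_rfl
    · exact I_Five.switch h g n H hH hT _ j m (fun hc => hE hc.symm) hj hm hlt le_rfl
  obtain ⟨m', j', hg', hm', hj', hlt', hcons⟩ := hfin
  refine ⟨g m', g j', hg', h m', hmem m', h j', hmem j', hlt'.ne, n, hn2', hn3' m', hn3' j', hm',
    hj', fun q hq => ⟨hcons q hq, fun hc => by omega⟩⟩

end MPb51559.BG.Q
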