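import Pool.Agent.Work.MP_b51559_nt.BG.Q.Stmts
import Pool.Agent.Work.MP_b51559_nt.BG.Wex

set_option autoImplicit false

/-!
# Block BG/Q, item Q19: assembly of the sieve part
-/

namespace MPb51559.BG.Q

open Finset Filter Topology MeasureTheory
open scoped Classical

namespace I_Q19

theorem kap_pos (D0 : ℕ) : 0 < kap D0 := by
  unfold kap
  have h1 : 0 < primorial D0 := primorial_pos D0
  have h2 : 0 < (primorial D0).totient := Nat.totient_pos.2 h1
  positivity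

theorem Nn_pos {w : ℝ → ℝ} (hw : Wt w) (k D0 : ℕ) {δ x : ℝ} (hx : 0 < x)
    (hR : 0 < Real.log (Rx δ x)) : 0 < Nn w k D0 δ x := by
  unfold Nn lk
  have h1 : (0 : ℝ) < primorial D0 := by exact_mod_cast primorial_pos D0
  have h2 := hw.pos
  have h3 := kap_pos D0
  positivity

theorem JJ_nonneg {k : ℕ} (F : (Fin k → ℝ) → ℝ) (m : Fin k) : 0 ≤ JJ F m := by
  unfold JJ
  refine integral_nonneg fun t => ?_
  simp only [cutm, Pi.zero_apply]
  split_ifs
  · positivity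
  · exact le_rfl

/-- the arithmetic of the constants -/
theorem arith {k : ℕ} (μ g ε I J P L1 LR S S2s S2Ps N : ℝ) (hI : 0 ≤ I)
    (hμ : 0 < 2 * μ - 1) (hε0 : 0 < ε) (hε1 : ε ≤ 1) (hN : 0 < N) (hg : g = (2 * μ - 1) * J - P - 4 * μ ^ 2 * I)
    (hεg : ε * ((2 * μ - 1) * k + k ^ 2 + 4 * μ ^ 2 * (3 + 2 * I)) < g)
    (hLR : 0 < LR) (hL : L1 ≤ 4 * (1 + 2 * ε) * LR) (hL1 : 0 ≤ L1)
    (h1 : S * LR ≤ N * (I + ε)) (h2 : N * (J - k * ε) ≤ S2s) (h3 : S2Ps ≤ N * (P + k ^ 2 * ε))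
    (h4 : (2 * μ - 1) * S2s - μ ^ 2 * (L1 * S) ≤ S2Ps) : False := by
  -- L1 * S ≤ 4 (1 + 2 ε) N (I + ε)
  have e1 : L1 * S ≤ 4 * (1 + 2 * ε) * (N * (I + ε)) := by
    have a1 : L1 * (S * LR) ≤ L1 * (N * (I + ε)) := mul_le_mul_of_nonneg_left h1 hL1
    have a2 : L1 * (N * (I + ε)) ≤ 4 * (1 + 2 * ε) * LR * (N * (I + ε)) :=
      mul_le_mul_of_nonneg_right hL (by positivity)
    have a3 : (L1 * S) * LR ≤ (4 * (1 + 2 * ε) * (N * (I + ε))) * LR := by
      calc (L1 * S) * LR = L1 * (S * LR) := by ring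
        _ ≤ 4 * (1 + 2 * ε) * LR * (N * (I + ε)) := a1.trans a2
        _ = (4 * (1 + 2 * ε) * (N * (I + ε))) * LR := by ring
    exact le_of_mul_le_mul_right a3 hLR
  have e2 : μ ^ 2 * (L1 * S) ≤ μ ^ 2 * (4 * (1 + 2 * ε) * (N * (I + ε))) :=
    mul_le_mul_of_nonneg_left e1 (sq_nonneg μ)
  have e3 : (2 * μ - 1) * (N * (J - k * ε)) ≤ (2 * μ - 1) * S2s :=
    mul_le_mul_of_nonneg_left h2 hμ.le
  have e4 : N * ((2 * μ - 1) * (J - k * ε) - μ ^ 2 * (4 * (1 + 2 * ε) * (I + ε))) ≤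
      N * (P + k ^ 2 * ε) := by
    have : N * ((2 * μ - 1) * (J - k * ε) - μ ^ 2 * (4 * (1 + 2 * ε) * (I + ε))) =
      (2 * μ - 1) * (N * (J - k * ε)) - μ ^ 2 * (4 * (1 + 2 * ε) * (N * (I + ε))) := by ring
    rw [this]
    linarith
  have e5 := le_of_mul_le_mul_left e4 hN
  have e6 : g ≤ ε * ((2 * μ - 1) * k + k ^ 2 + 4 * μ ^ 2 * (1 + 2 * I + 2 * ε)) := by
    rw [hg]
    nlinarith [e5]
  have e7 : ε * ((2 * μ - 1) * k + k ^ 2 + 4 * μ ^ 2 * (1 + 2 * I + 2 * ε)) ≤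
      ε * ((2 * μ - 1) * k + k ^ 2 + 4 * μ ^ 2 * (3 + 2 * I)) := by
    apply mul_le_mul_of_nonneg_left _ hε0.le
    have : 4 * μ ^ 2 * (1 + 2 * I + 2 * ε) ≤ 4 * μ ^ 2 * (3 + 2 * I) :=
      mul_le_mul_of_nonneg_left (by linarith) (by positivity)
    linarith
  linarith

end I_Q19

open I_Q19 in
theorem prq_Q19 (h9 : Q9) (h15 : Q15) (h16 : Q16) (h17 : Q17) (h18 : Q18) : Q19 := by
  intro hBV hP k h hinj s μ F hs0 hs1 hF E hyp
  obtain ⟨w, hw⟩ := prf_Wex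
  have hI : 0 ≤ ∫ t, F t ^ 2 := integral_nonneg fun t => sq_nonneg (F t)
  set I : ℝ := ∫ t, F t ^ 2 with hIdef
  set J : ℝ := ∑ m, JJ F m with hJdef
  set P : ℝ := ∑ m, ∑ j, (if m ≠ j ∧ E m j then GG F m j / (1 - s) else 0) with hPdef
  have hs1' : 0 < 1 - s := by linarith
  have hGG : ∀ m j : Fin k, m ≠ j → 0 ≤ GG F m j / (1 - s) := fun m j hmj =>
    div_nonneg (h9 k s F hs0 hs1 hF m j hmj).1 hs1'.le
  have hP0 : 0 ≤ P := by
    refine Finset.sum_nonneg fun m _ => Finset.sum_nonneg fun j _ => ?_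
    split_ifs with hmj
    · exact hGG m j hmj.1
    · exact le_rfl
  have hJ0 : 0 ≤ J := Finset.sum_nonneg fun m _ => JJ_nonneg F m
  have hμ2 : 0 ≤ 4 * μ ^ 2 * I := by positivity
  have hk : 0 < k := by
    rcases Nat.eq_zero_or_pos k with h0 | h0
    · exfalso
      subst h0
      have hJz : J = 0 := by rw [hJdef]; exact Finset.sum_of_isEmpty _
      rw [hJz, mul_zero] at hyp
      linarith
    · exact h0
  have hμ : 0 < 2 * μ - 1 := by
    by_contra hcon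
    have : (2 * μ - 1) * J ≤ 0 := mul_nonpos_of_nonpos_of_nonneg (not_lt.1 hcon) hJ0
    linarith
  set g : ℝ := (2 * μ - 1) * J - P - 4 * μ ^ 2 * I with hg
  have hg0 : 0 < g := by
    rw [hg]
    linarith
  set C : ℝ := (2 * μ - 1) * k + k ^ 2 + 4 * μ ^ 2 * (3 + 2 * I) with hC
  have hC0 : 0 ≤ C := by positivity
  obtain ⟨ε, hε0, hε1, hεg⟩ : ∃ ε : ℝ, 0 < ε ∧ ε ≤ 1 ∧ ε * C < g := by
    refine ⟨min 1 (g / (C + 1)), lt_min one_pos (by positivity), min_le_left _ _, ?_⟩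
    have h1 : min 1 (g / (C + 1)) * C ≤ g / (C + 1) * C :=
      mul_le_mul_of_nonneg_right (min_le_right _ _) hC0
    have h2 : g / (C + 1) * C < g := by
      rw [div_mul_eq_mul_div, div_lt_iff₀ (by linarith)]
      nlinarith
    linarith
  obtain ⟨hLow, hS1⟩ := h16 hBV hP w hw k h hk hinj s F hs0 hs1 hF
  have hPair := h15 hBV hP w hw k h hinj s F hs0 hs1 hF
  obtain ⟨δ1, hδ1, hδ1', h3⟩ := hLow ε hε0
  set δ : ℝ := min δ1 (ε / 12) with hδ
  have hδ0 : 0 < δ := lt_min hδ1 (by positivity)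
  have hδle : δ ≤ δ1 := min_le_left _ _
  have hδε : δ ≤ ε / 12 := min_le_right _ _
  have hδ8 : δ < 1 / 8 := lt_of_le_of_lt hδle hδ1'
  have hδ4 : 0 < 1 - 4 * δ := by linarith
  obtain ⟨D1, hD1⟩ := hS1 δ hδ0 hδ8 ε hε0
  obtain ⟨D2, hD2⟩ := h3 δ hδ0 hδle
  obtain ⟨D3, hD3⟩ := hPair δ hδ0 hδ8 ε hε0
  obtain ⟨x17, hx17⟩ := h17 w hw k h hk
  obtain ⟨x18, hx18⟩ := h18 w hw k h
  have hlog : ∀ᶠ x : ℝ in atTop, Real.log 2 / ε < Real.log x :=
    Real.tendsto_log_atTop.eventually_gt_atTop _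
  obtain ⟨x4, hx4⟩ := eventually_atTop.1 hlog
  refine ⟨max (max D1 D2) D3, fun D0 hD0 => ?_⟩
  have hd1 : D0 ≥ D1 := le_trans (le_trans (le_max_left _ _) (le_max_left _ _)) hD0
  have hd2 : D0 ≥ D2 := le_trans (le_trans (le_max_right _ _) (le_max_left _ _)) hD0
  have hd3 : D0 ≥ D3 := le_trans (le_max_right _ _) hD0
  obtain ⟨x1, hx1⟩ := hD1 D0 hd1
  obtain ⟨x2, hx2⟩ := hD2 D0 hd2
  obtain ⟨x3, hx3⟩ := hD3 D0 hd3
  refine ⟨max (max (max x1 x2) (max x3 x4)) (max (max x17 x18) 2), fun x hx => ?_⟩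
  have g1 : x ≥ x1 := le_trans (le_trans (le_trans (le_max_left _ _) (le_max_left _ _))
    (le_max_left _ _)) hx
  have g2 : x ≥ x2 := le_trans (le_trans (le_trans (le_max_right _ _) (le_max_left _ _))
    (le_max_left _ _)) hx
  have g3 : x ≥ x3 := le_trans (le_trans (le_trans (le_max_left _ _) (le_max_right _ _))
    (le_max_left _ _)) hx
  have g4 : x ≥ x4 := le_trans (le_trans (le_trans (le_max_right _ _) (le_max_right _ _))
    (le_max_left _ _)) hx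
  have g17 : x ≥ x17 := le_trans (le_trans (le_trans (le_max_left _ _) (le_max_left _ _))
    (le_max_right _ _)) hx
  have g18 : x ≥ x18 := le_trans (le_trans (le_trans (le_max_right _ _) (le_max_left _ _))
    (le_max_right _ _)) hx
  have g5 : 2 ≤ x := le_trans (le_trans (le_max_right _ _) (le_max_right _ _)) hx
  have hx0 : 0 < x := by linarith
  have hlx : 0 < Real.log x := Real.log_pos (by linarith)
  intro v0 hv0
  by_contra hno
  have hlR : Real.log (Rx δ x) = (1 - 4 * δ) / 4 * Real.log x := by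
    rw [Rx, Real.log_rpow hx0]
    ring
  have hlR0 : 0 < Real.log (Rx δ x) := by
    rw [hlR]
    positivity
  have hN := Nn_pos hw k D0 (δ := δ) hx0 hlR0
  obtain ⟨l, hl⟩ : ∃ l : Co (Sx D0 x) k → ℝ, l = lam aP (yF (Rx δ x) F) := ⟨_, rfl⟩
  have k1 := hx1 x g1 v0 hv0 l hl
  have k2 := fun m => hx2 x g2 v0 hv0 m l hl
  have k3 := fun m j hmj => hx3 x g3 v0 hv0 m j hmj l hl
  have k17 := hx17 x g17 D0 v0 (Sx D0 x) l μ
  have k18 := fun m j => hx18 x g18 D0 v0 (Sx D0 x) l m j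
  have e0 : Real.log (2 * x) = Real.log 2 + Real.log x :=
    Real.log_mul (by norm_num) hx0.ne'
  have hl2 : 0 < Real.log 2 := Real.log_pos (by norm_num)
  have hL : Real.log (2 * x) ≤ 4 * (1 + 2 * ε) * Real.log (Rx δ x) := by
    have a1 := hx4 x g4
    rw [div_lt_iff₀ hε0] at a1
    rw [e0, hlR]
    have a2 : Real.log 2 + Real.log x ≤ (1 + ε) * Real.log x := by nlinarith
    have a3 : (1 + ε) ≤ (1 + 2 * ε) * (1 - 4 * δ) := by nlinarith
    have a4 : (1 + ε) * Real.log x ≤ (1 + 2 * ε) * (1 - 4 * δ) * Real.log x :=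
      mul_le_mul_of_nonneg_right a3 hlx.le
    calc Real.log 2 + Real.log x ≤ (1 + 2 * ε) * (1 - 4 * δ) * Real.log x := a2.trans a4
      _ = 4 * (1 + 2 * ε) * ((1 - 4 * δ) / 4 * Real.log x) := by ring
  have hL1 : 0 ≤ Real.log (2 * x) := by rw [e0]; linarith
  refine arith (k := k) μ g ε I J P (Real.log (2 * x)) (Real.log (Rx δ x))
    (S1 w h D0 v0 x l l) (∑ m, S2 w h D0 v0 x m l l)
    (∑ m, ∑ j, if m ≠ j then S2P w h D0 v0 x m j l else 0) (Nn w k D0 δ x) hI hμ hε0 hε1 hN hg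
    hεg hlR0 hL hL1 k1 ?_ ?_ k17
  · have e1 : Nn w k D0 δ x * (J - k * ε) = ∑ m, Nn w k D0 δ x * (JJ F m - ε) := by
      rw [← Finset.mul_sum, Finset.sum_sub_distrib, Finset.sum_const, Finset.card_univ,
        Fintype.card_fin, nsmul_eq_mul]
    rw [e1]
    exact Finset.sum_le_sum fun m _ => k2 m
  · have e1 : ∀ m j : Fin k, (if m ≠ j then S2P w h D0 v0 x m j l else 0) ≤
        Nn w k D0 δ x * ((if m ≠ j ∧ E m j then GG F m j / (1 - s) else 0) + ε) := by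
      intro m j
      by_cases hmj : m ≠ j
      · rw [if_pos hmj]
        by_cases hE : E m j
        · rw [if_pos ⟨hmj, hE⟩]
          exact k3 m j hmj
        · have hz : S2P w h D0 v0 x m j l = 0 := by
            by_contra hne
            obtain ⟨n, n1, n2, n3, n4, n5⟩ := k18 m j hne
            exact hno ⟨n, n1, n2, n3, m, j, hmj, hE, n4, n5⟩
          rw [hz, if_neg (fun hc => hE hc.2)]
          positivity
      · rw [if_neg hmj, if_neg (fun hc => hmj hc.1)]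
        positivity
    have e2 : Nn w k D0 δ x * (P + k ^ 2 * ε) = ∑ m : Fin k, ∑ j : Fin k,
        Nn w k D0 δ x * ((if m ≠ j ∧ E m j then GG F m j / (1 - s) else 0) + ε) := by
      simp only [← Finset.mul_sum, Finset.sum_add_distrib, Finset.sum_const, Finset.card_univ,
        Fintype.card_fin, nsmul_eq_mul]
      rw [hPdef]
      ring
    rw [e2]
    exact Finset.sum_le_sum fun m _ => Finset.sum_le_sum fun j _ => e1 m j

end MPb51559.BG.Q
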