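import Pool.Agent.Work.MP_b51559_nt.BG.Q.Five
import Pool.Agent.Work.MP_b51559_nt.DP.Stmts

set_option autoImplicit false

/-!
# Block BG/Q: a quarter of all pairs of an admissible set are translates of consecutive primes
-/

namespace MPb51559.BG.Q

open Finset Filter Topology MeasureTheory
open scoped Classical

/-- THEOREM Q, final form -/
def QuarterCons : Prop := ∀ ε : ℝ, 0 < ε → ∃ K : ℕ, ∀ V : Finset ℕ, K ≤ V.card →
  (∀ p : ℕ, p.Prime → ∃ v : ℕ, ∀ a ∈ V, ¬ p ∣ v + a) →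
  ∃ x0 : ℕ, ∀ x ≥ x0, (1 / 4 - ε) * (V.card : ℝ) ^ 2 ≤
    (((V ×ˢ V).filter (fun y => R0 x y.1 y.2)).card : ℝ)

theorem prq_Quarter (hF : Five) (hES : DP.D_ES) : QuarterCons := by
  intro ε hε
  obtain ⟨κ, hκ⟩ := hF
  obtain ⟨k0, hk0⟩ := hES κ ε hε
  refine ⟨k0, fun V hV hadm => ?_⟩
  -- one threshold for every choice of the five groups
  have hx : ∀ A : Fin 5 → Finset ℕ, ∃ x0 : ℕ, (∀ i, A i ⊆ V ∧ (A i).card = κ) →
      (∀ i j, i ≠ j → Disjoint (A i) (A j)) → ∀ x ≥ x0,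
        ∃ i j, i ≠ j ∧ ∃ a ∈ A i, ∃ b ∈ A j, R0 x a b := by
    intro A
    by_cases h : (∀ i, A i ⊆ V ∧ (A i).card = κ) ∧ (∀ i j, i ≠ j → Disjoint (A i) (A j))
    · obtain ⟨x0, hx0⟩ := hκ A (fun i => (h.1 i).2) h.2 (fun p hp => by
        obtain ⟨v, hv⟩ := hadm p hp
        exact ⟨v, fun i a ha => hv a ((h.1 i).1 ha)⟩)
      exact ⟨x0, fun _ _ x hx => hx0 x hx⟩
    · exact ⟨0, fun h1 h2 => absurd ⟨h1, h2⟩ h⟩
  choose X hX using hx
  refine ⟨∑ A ∈ Fintype.piFinset (fun _ : Fin 5 => V.powerset), X A, fun x hxx => ?_⟩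
  refine hk0 V hV (R0 x) (fun a b h => R0_symm x h) (fun A hA hdis => ?_)
  have hmem : A ∈ Fintype.piFinset (fun _ : Fin 5 => V.powerset) := by
    rw [Fintype.mem_piFinset]
    exact fun i => mem_powerset.2 (hA i).1
  have hle : X A ≤ ∑ A ∈ Fintype.piFinset (fun _ : Fin 5 => V.powerset), X A :=
    single_le_sum (f := X) (fun _ _ => Nat.zero_le _) hmem
  exact hX A hA hdis x (hle.trans hxx)

end MPb51559.BG.Q
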