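import Pool.Agent.Work.MP_b51559_nt.BG.Q.Defs

set_option autoImplicit false

/-!
# Block BG/Q: the items of the sieve part

Everything of BG/C is available as a theorem: import Pool.Agent.Work.MP_b51559_nt.BG.C.All
(prf_BAS, prf_SUP, prf_INV, all_ONE, all_TOT, all_PERT, all_SUMN, all_APX, all_YM, prf_MG, prf_BVM,
prf_D1, prf_MSU prf_BAS, all_QN, all_S2B hBV, all_S1A, prf_S2A, ..). Every docstring is the complete
proof. Earlier Q items may be assumed as hypotheses (listed under USES).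
-/

namespace MPb51559.BG.Q

open Finset Filter Topology MeasureTheory
open scoped Classical

/-- Q1. The extension in colour j, density a = aF (copy of the proof of C_EXT in BG/C/EXT.lean with
aF for aP and the condition prt j u ≤ Z for nrm u ≤ Z). Put B = ytr aF l. l lives on NoC j, so B does
(C_SUP). For d in NoC j: Le d u iff Le d (dl j u). So lam aF (yex) d = mw (-1) d * mw aF d * sum over
r = dl j u with Le d r of (B r / cps r) * sum over such u with prt j u ≤ Z of 1/mw (aF-1) u, and the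
inner sum is cps r / mw (aF-1) r: total lam aF B d = l d (C_INV, a = aF). cps j Z r ≥ 1 for r in NoC j:
the term u = r (prt j r = 1 ≤ Z), all terms positive; if u is any colouring then dl j u is in NoC j.
Third part: yex u /= 0 gives B (dl j u) /= 0, so dl j u has no colour m (C_SUP), so u has none
(m /= j). -/
def Q1 : Prop := ∀ (S : Finset ℕ) (k : ℕ) (j : Fin k), (∀ p ∈ S, 2 < p) →
  ∀ (l : Co S k → ℝ) (Z : ℝ), 1 ≤ Z → (∀ d, l d ≠ 0 → NoC j d) →
  rst j (lam aF (yex j Z l)) = l ∧ (∀ u, |yex j Z l u| ≤ |ytr aF l (dl j u)|) ∧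
  ∀ m : Fin k, m ≠ j → (∀ d, l d ≠ 0 → NoC m d) → ∀ u, yex j Z l u ≠ 0 → NoC m u

/-- Q2. Lower bound for the normaliser (van Lint, Richert; copy of C_VLR (a), BG/C/VLR.lean). Every n in
SqF S Z is n = l b, l = gcd(n, nrm r), b prime to nrm r, b ≤ Z, 1/phi(n) = 1/phi(l) 1/phi(b); the sum over
l | nrm r of 1/phi(l) is mw (1 + 1/(p-1)) r; 1/phi(b) ≤ prod_{p | b} 1/(p-2) =
mw (aF-1) r / mw (aF-1) u for the colouring u with dl j u = r, prt j u = b. -/
def Q2 : Prop := ∀ (S : Finset ℕ) (k : ℕ) (j : Fin k), (∀ p ∈ S, p.Prime ∧ 2 < p) →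
  ∀ (Z : ℝ), 1 ≤ Z → ∀ r : Co S k, NoC j r →
  1 ≤ cps j Z r ∧ Hs S Z ≤ cps j Z r * mw (fun p => 1 + 1 / ((p : ℝ) - 1)) r

/-- Q3. Removing colour j inside the density a = aF is exact. Insert the definitions: the coefficient of
y u is mw (-1) r * mw (aF-1) r / mw (aF-1) u times the sum over d with Le r d, Le d u, NoC j d, of
mw (-1) d, a product of local factors: (none,none): 1; (none,j): only d = none: 1; (none,i), i /= j:
1 - 1 = 0; (i,i), i /= j: (-1)(-1) = 1; all others 0. So u runs over dl j u = r. (Copy of C_CONV.) Second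
part: rst j l lives on NoC j, C_SUP. -/
def Q3 : Prop := ∀ (S : Finset ℕ) (k : ℕ) (j : Fin k), (∀ p ∈ S, 2 < p) → ∀ (y : Co S k → ℝ)
  (r : Co S k), (NoC j r → ytr aF (rst j (lam aF y)) r =
    ∑ u ∈ univ.filter (fun u : Co S k => dl j u = r),
      y u * (mw (fun p => aF p - 1) r / mw (fun p => aF p - 1) u)) ∧
  (ytr aF (rst j (lam aF y)) r ≠ 0 → NoC j r)

/-- Q4. Supports. F(tv u) /= 0 gives sz u ≤ s, i.e. nrm u ≤ R^s (R > 1; sz = sum of the tv, C_BAS); then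
C_SUP for lam aP, rst m, ytr aF (ym), and once more for lam aF, rst j, ytr aF (BB); NoC m is inherited
by the second part of C_SUP. For yE: prt j u ≤ R^(1-s) and nrm (dl j u) ≤ R^s give nrm u =
nrm (dl j u) * prt j u ≤ R. (BB has no colour j by Q3.) USES: Q1, Q3. -/
def Q4 : Prop := ∀ (S : Finset ℕ) (k : ℕ) (s R : ℝ) (F : (Fin k → ℝ) → ℝ),
  (∀ p ∈ S, p.Prime ∧ 2 < p) → 0 < s → s < 1 → 1 < R → Tst k s F → ∀ m j : Fin k, m ≠ j →
  (∀ r : Co S k, ym R F m r ≠ 0 → NoC m r ∧ (nrm r : ℝ) ≤ R ^ s ∧ sz R r ≤ s) ∧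
  (∀ r : Co S k, BB R F m j r ≠ 0 → NoC m r ∧ NoC j r ∧ (nrm r : ℝ) ≤ R ^ s ∧ sz R r ≤ s) ∧
  (∀ u : Co S k, yE R s F m j u ≠ 0 → NoC m u ∧ (nrm u : ℝ) ≤ R ∧ sz R u ≤ 1)

/-- Q5. One dimensional perturbation. Expand prod_{p | n} (1 + C/(p-2)) - 1 = sum over l | n, l > 1, of
prod_{p | l} C/(p-2), n = l n', drop n' coprime to l: at most (prod_{p in S} (1 + C/((p-1)(p-2))) - 1)
times Hs S (sqrt x) ≤ (exp(sum_{p > D0} 2 C/(p-2)^2) - 1) kl; C_TOT (first part) for Hs ≤ kl. (Or C_PERT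
with k = 1.) Here the sum is over squarefree n composed of primes of Sx D0 x. -/
def Q5 : Prop := ∀ C : ℝ, 0 ≤ C → ∀ ε : ℝ, 0 < ε → Ev fun D0 x =>
  ∑ n ∈ SqF (Sx D0 x) (Real.sqrt x),
    ((∏ p ∈ n.primeFactors, (1 + C / ((p : ℝ) - 2))) - 1) / (n.totient : ℝ) ≤ ε * kl D0 x

/-- Q6. The double diagonal variables (model: the proof of C_YM, BG/C/YM.lean). Let T = (3-s)/2, so
1 < T < 2 and Tst k T F; R = Rx δ x. By Q3, for r in NoC j, BB r = sum over dl j u = r of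
y u * ratio(u), y = ym R F m, ratio = mw (aF-1) r/mw (aF-1) u = (mw aF r/mw aF u) *
prod_{p | prt j u} (1 + 1/(p-2)). C_YM for F: |y u| ≤ C1 lk, support, and for u in NoC m
|y u - lk marg F m (tv u)| ≤ lk C1 (ε1 + (mw (1 + C1/(p-2)) u - 1)). So each term is
lk marg F m (tv u) (mw aF r/mw aF u) up to lk C2 (ε1 + (mw (1 + C2/(p-2)) u - 1)) (mw aF r/mw aF u)
(use (X-1) Y ≤ X Y - 1 for X, Y ≥ 1; marg F m is bounded by C_MG). u = r with the j part b:
mw (1+C2/(p-2)) u - 1 = (P r - 1) + P r (P b - 1); the sum over b ≤ R^T ≤ sqrt x of 1/phi(b) is ≤ kl and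
of (P b - 1)/phi(b) is ≤ ε2 kl (Q5), kl ≤ 8 lk. Error in total ≤ lk^2 C (ε + (P r - 1)). The main sum:
MSU with f n = marg F m (update (tv r) j (log n/log R)) (n ≤ R^T), then D1 (c = 1/(phi(n) lk),
t = log n/log R, T0 = T, Δ = eta log x/lk, ONE): = lk (∫ + small), and the integral over [0,T] is
marg (marg F m) j (tv r) (support of the marginal, C_MG). Bound |BB r| ≤ C lk^2: |y| ≤ C1 lk and the sum
of the ratios is ≤ kl (1 + ε) by Q5 (C = 1). USES: Q3, Q5. -/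
def Q6 : Prop := ∀ (k : ℕ) (s : ℝ) (F : (Fin k → ℝ) → ℝ), 0 < s → s < 1 → Tst k s F → ∀ δ : ℝ,
  0 < δ → δ < 1 / 8 → ∃ C : ℝ, 0 ≤ C ∧ ∀ ε : ℝ, 0 < ε → Ev fun D0 x =>
  ∀ (m j : Fin k), m ≠ j → ∀ (r : Co (Sx D0 x) k),
  |BB (Rx δ x) F m j r| ≤ C * lk D0 δ x ^ 2 ∧
  (NoC m r → NoC j r → |BB (Rx δ x) F m j r - lk D0 δ x ^ 2 * marg (marg F m) j (tv (Rx δ x) r)| ≤
    lk D0 δ x ^ 2 * (C * (ε + (mw (fun p => 1 + C / ((p : ℝ) - 2)) r - 1))))

/-- Q7. The double marginal (m /= j): measurable, bounded, independent of the variables m and j,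
supported on t i ≥ 0 (i /= m, j) and sum over i /= m, j of t i ≤ s, sections of bounded variation.
marg (marg F m) j t = ∫ u, marg F m (update t j u), and marg F m is supported in 0 ≤ t j ≤ s,
so everything follows from C_MG (T = s) and integration over [0, s]: bound M s, variation V s.
Measurability: `MeasureTheory.StronglyMeasurable.integral_prod_right` as in C_MG. -/
def Q7 : Prop := ∀ (k : ℕ) (s : ℝ) (F : (Fin k → ℝ) → ℝ), 0 < s → Tst k s F →
  ∃ (M : ℝ) (V : NNReal), 0 ≤ M ∧ ∀ m j : Fin k, m ≠ j → Measurable (marg (marg F m) j) ∧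
  (∀ t, |marg (marg F m) j t| ≤ M) ∧
  (∀ t u, marg (marg F m) j (Function.update t m u) = marg (marg F m) j t) ∧
  (∀ t u, marg (marg F m) j (Function.update t j u) = marg (marg F m) j t) ∧
  (∀ t, marg (marg F m) j t ≠ 0 → (∀ i, i ≠ m → i ≠ j → 0 ≤ t i) ∧
    ∑ i ∈ (univ.erase m).erase j, t i ≤ s) ∧
  ∀ (t : Fin k → ℝ) (i : Fin k),
    eVariationOn (fun u => marg (marg F m) j (Function.update t i u)) Set.univ ≤ V

/-- Q8. The integrand of the pair bound is of class BVk (T0 = 1). Φ t = G(t)^2 if 0 ≤ t j ≤ 1 - s and 0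
otherwise; cutm m Φ vanishes unless 0 ≤ t m < 1, 0 ≤ t j ≤ 1 - s and (Q7) t i ≥ 0, t i ≤ s for the
others: all in [0,1]. Bounded by M^2. Variation in direction i /= m, j: that of G^2 (C_BVM); in direction
j: G^2 constant times an indicator of an interval: at most 2 M^2; in direction m: at most 2 M^2.
USES: Q7. -/
def Q8 : Prop := ∀ (k : ℕ) (s : ℝ) (F : (Fin k → ℝ) → ℝ), 0 < s → s < 1 → Tst k s F →
  ∃ (M : ℝ) (V : NNReal), 0 ≤ M ∧ ∀ m j : Fin k, m ≠ j →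
  BVk k 1 M V (cutm m (fun t => if 0 ≤ t j ∧ t j ≤ 1 - s then marg (marg F m) j t ^ 2 else 0))

/-- Q9. Its integral. G = marg (marg F m) j does not depend on t m, t j (Q7). By Fubini in the variable
t j (`volume_preserving_piFinSuccAbove` or the map update t j) the integral of (indicator of
0 ≤ t j ≤ 1 - s) g(others) is (1 - s) times the integral of (indicator of 0 ≤ t j < 1) g(others).
USES: Q7. -/
def Q9 : Prop := ∀ (k : ℕ) (s : ℝ) (F : (Fin k → ℝ) → ℝ), 0 < s → s < 1 → Tst k s F →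
  ∀ m j : Fin k, m ≠ j → 0 ≤ GG F m j ∧
  ∫ t, cutm m (fun t => if 0 ≤ t j ∧ t j ≤ 1 - s then marg (marg F m) j t ^ 2 else 0) t =
    (1 - s) * GG F m j

/-- Q10. Pointwise bound of the diagonal variables of the extension. For u with prt j u ≤ Z =
R^(1-s), R = Rx δ x: |yE u| = |BB (dl j u)|/cps ≤ |BB (dl j u)| mw (1+1/(p-1)) (dl j u)/Hs S Z (Q2), and
Hs S Z ≥ (1-s) lk (1 - ε): C_ONE with z = Z (1 ≤ Z ≤ sqrt x), kap log Z = (1-s) lk, η log x ≤ ε (1-s) lk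
as lk ≥ kap log x/8. (dl j u is in NoC j; x large so that Hs > 0.) Square it. For other u yE u = 0.
USES: Q2. -/
def Q10 : Prop := ∀ (k : ℕ) (s : ℝ) (F : (Fin k → ℝ) → ℝ), 0 < s → s < 1 → Tst k s F → ∀ δ : ℝ,
  0 < δ → δ < 1 / 8 → ∀ ε : ℝ, 0 < ε → ε < 1 → Ev fun D0 x => ∀ (m j : Fin k), m ≠ j →
  ∀ u : Co (Sx D0 x) k, yE (Rx δ x) s F m j u ^ 2 ≤
    if (prt j u : ℝ) ≤ Rx δ x ^ (1 - s) then
      BB (Rx δ x) F m j (dl j u) ^ 2 * mw (fun p => 1 + 1 / ((p : ℝ) - 1)) (dl j u) ^ 2 /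
        ((1 - ε) * (1 - s) * lk D0 δ x) ^ 2
    else 0

/-- Q11. The form of the extension. Model: proofs of C_GRA, C_KBQ (BG/C/GRA.lean, KBQ.lean). With
y = yE: QN (a = aF) gives Qf ≤ sum_u y^2/mw (aF-1) u * mw (1 + k/(p-2)) u, only u in NoC m occur
(Q4). By Q10 this is ≤ lk^4/((1-ε1)(1-s) lk)^2 times the sum over u in NoC m of f u/mw aF u, where
f u = (BB (dl j u)/lk^2)^2 [prt j u ≤ R^(1-s)] mw (1+1/(p-1)) (dl j u)^2 mw (1+k/(p-2)) u
mw (1+1/(p-2)) u (as 1/(p-2) = (1/(p-1)) (1 + 1/(p-2))). Φ t = G(t)^2 [0 ≤ t j ≤ 1-s]: since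
tv (dl j u) and tv u differ in the place j only, and prt j u ≤ R^(1-s) iff tv u j ≤ 1 - s, Q6 gives
|f u - Φ (tv u)| ≤ C (ε1 + (mw (1 + C/(p-2)) u - 1)). C_APX (T0 = 1, Q8; the support: Q4, sz u ≤ 1)
and Q9: the sum is ≤ lk^(k-1) ((1-s) GG + ε2). Total lk^(k+1) (GG/(1-s) + ε). (k ≥ 2.)
USES: Q4, Q6, Q7, Q8, Q9, Q10. -/
def Q11 : Prop := ∀ (k : ℕ) (s : ℝ) (F : (Fin k → ℝ) → ℝ), 0 < s → s < 1 → Tst k s F → ∀ δ : ℝ,
  0 < δ → δ < 1 / 8 → ∀ ε : ℝ, 0 < ε → Ev fun D0 x => ∀ (m j : Fin k), m ≠ j →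
  ∀ y : Co (Sx D0 x) k → ℝ, y = yE (Rx δ x) s F m j →
  Qf aF (lam aF y) (lam aF y) ≤ lk D0 δ x ^ (k + 1) * (GG F m j / (1 - s) + ε)

/-- Q12. S2B for variables bounded by C log^2 x: apply S2B (all_S2B) to y/C' with C' = max C 1;
lam a (c • y) = c • lam a y and S2, Qf are bilinear (C_LIN, definitions), the error becomes
C'^2 x/log x. -/
def Q12 : Prop := BVE → ∀ w, Wt w → ∀ (k : ℕ) (h : Fin k → ℕ), Function.Injective h →
  ∀ δ : ℝ, 0 < δ → δ < 1 / 8 → ∀ C : ℝ, 1 ≤ C → ∀ D0 : ℕ, 3 ≤ D0 → (∀ i, h i ≤ D0) →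
  ∃ x0 : ℝ, ∀ x ≥ x0, ∀ v0 : ℕ, (∀ i, (v0 + h i).Coprime (primorial D0)) →
  ∀ (m : Fin k) (y : Co (Sx D0 x) k → ℝ), (∀ r, |y r| ≤ C * Real.log x ^ 2) →
  (∀ r, y r ≠ 0 → NoC m r ∧ sz (Rx δ x) r ≤ 1) →
  |S2 w h D0 v0 x m (lam aF y) (lam aF y) -
    thW w x 1 0 / ((primorial D0).totient : ℝ) * Qf aF (lam aF y) (lam aF y)| ≤
    C ^ 2 * (x / Real.log x)

/-- Q13. The prime side of the extension. y = yE is bounded by |BB (dl j u)| ≤ C lk^2 ≤ C log^2 x (Q1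
second part, Q6; lk ≤ log x as kap ≤ 1), support Q4, so Q12 applies; Qf ≤ lk^(k+1) (A + ε1), A =
GG/(1-s) ≥ 0 (Q11); 0 ≤ thW w x 1 0 ≤ x (∫ w + ε1) (PNTW); lk = kap log R, kap = phi(W)/W, so
x ∫w/phi(W) lk^(k+1) = Nn; and C^2 x/log x ≤ ε1 Nn for x large (D0 fixed: Nn ≥ c x log x).
USES: Q1, Q4, Q6, Q9, Q11, Q12. -/
def Q13 : Prop := BVE → PNTW → ∀ w, Wt w → ∀ (k : ℕ) (h : Fin k → ℕ), Function.Injective h →
  ∀ (s : ℝ) (F : (Fin k → ℝ) → ℝ), 0 < s → s < 1 → Tst k s F → ∀ δ : ℝ, 0 < δ → δ < 1 / 8 →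
  ∀ ε : ℝ, 0 < ε → Ev fun D0 x => ∀ v0 : ℕ, (∀ i, (v0 + h i).Coprime (primorial D0)) →
  ∀ (m j : Fin k), m ≠ j → ∀ y : Co (Sx D0 x) k → ℝ, y = yE (Rx δ x) s F m j →
  S2 w h D0 v0 x m (lam aF y) (lam aF y) ≤ Nn w k D0 δ x * (GG F m j / (1 - s) + ε)

/-- Q14. Restriction to n with both primes. If tm w h x m n /= 0 then n + h m is a prime > 9x/8 and
(x large, depending on h) n > x; so neither n + h m nor, if it is prime, n + h j is divisible by a
prime of Sx D0 x (they are < x) and Vn h l n only sees colourings without m and j (as in C_RS,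
BG/C/RS.lean). Second part: the indicator is at most 1 and tm ≥ 0. -/
def Q14 : Prop := ∀ w, Wt w → ∀ (k : ℕ) (h : Fin k → ℕ), ∃ x0 : ℝ, ∀ x ≥ x0,
  ∀ (D0 v0 : ℕ) (m j : Fin k) (l l' : Co (Sx D0 x) k → ℝ),
  (rst j (rst m l) = rst j (rst m l') → S2P w h D0 v0 x m j l = S2P w h D0 v0 x m j l') ∧
  0 ≤ S2P w h D0 v0 x m j l ∧ S2P w h D0 v0 x m j l ≤ S2 w h D0 v0 x m l l

/-- Q15. The pair bound. l = lam aP (yF R F). rst m l = lam aF (ym R F m) (ym is ytr aF (rst m l);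
C_INV). l2 = rst j (rst m l) lives on NoC j and NoC m; y = yE = yex j (R^(1-s)) l2; l' = lam aF y has
rst j l' = l2 (Q1) and no colour m (Q4 third part and C_SUP), so rst j (rst m l') = l2. By Q14 S2P l =
S2P l' ≤ S2 l' l', and Q13. USES: Q1, Q4, Q13, Q14. -/
def Q15 : Prop := BVE → PNTW → ∀ w, Wt w → ∀ (k : ℕ) (h : Fin k → ℕ), Function.Injective h →
  ∀ (s : ℝ) (F : (Fin k → ℝ) → ℝ), 0 < s → s < 1 → Tst k s F → PairConcl w h s F

/-- Q16. The first moment, from BG/C with the slice data P = (T = (3-s)/2, L = 0, z = 0, Lam = 0):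
P.Ok is trivial, Tst k P.T F. GramConcl, UppConcl, YmConcl, S2Concl exactly as in the proof of
prf_SIEVE (BG/C/All.lean). Jm P F m = JJ F m: P.rho σ = 1 for σ ≤ 2 - T, and marg F m t /= 0 gives
sum of the others ≤ s ≤ 2 - T (C_MG with T = s); set integral = integral of the indicator (cutm). -/
def Q16 : Prop := BVE → PNTW → ∀ w, Wt w → ∀ (k : ℕ) (h : Fin k → ℕ), 0 < k →
  Function.Injective h → ∀ (s : ℝ) (F : (Fin k → ℝ) → ℝ), 0 < s → s < 1 → Tst k s F →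
  LowConcl w h F ∧ S1Concl w h F

/-- Q17. The second moment inequality. Let T n = sum_m tm m n and X n the number of m with n + h m
prime, L = log(2x) (x large: tm m n ≤ L wp n, since n + h m < 15x/8 < 2x where w does not vanish).
The sum over m /= j of tm m n [n + h j prime] is T n (X n - 1) (if tm m n /= 0 then n + h m is prime).
T n ≤ X n L wp n. If T n = 0 there is nothing to prove (wp ≥ 0). If T n > 0 then wp n > 0 and
T (X - 1) ≥ T^2/(L wp) - T ≥ 2 μ T - μ^2 L wp - T. Multiply by (Vn h l n)^2 and sum over n. -/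
def Q17 : Prop := ∀ w, Wt w → ∀ (k : ℕ) (h : Fin k → ℕ), 0 < k → ∃ x0 : ℝ, ∀ x ≥ x0,
  ∀ (D0 v0 : ℕ) (S : Finset ℕ) (l : Co S k → ℝ) (μ : ℝ),
  (2 * μ - 1) * (∑ m, S2 w h D0 v0 x m l l) - μ ^ 2 * (Real.log (2 * x) * S1 w h D0 v0 x l l) ≤
    ∑ m, ∑ j, if m ≠ j then S2P w h D0 v0 x m j l else 0

/-- Q18. A positive pair sum gives n: some n = v0 mod the primorial has tm m n /= 0 and n + h j prime;
w((n + h m)/x) /= 0 gives 9x/8 < n + h m < 15x/8, so x < n and n + h i < 2x for x large. -/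
def Q18 : Prop := ∀ w, Wt w → ∀ (k : ℕ) (h : Fin k → ℕ), ∃ x0 : ℝ, ∀ x ≥ x0,
  ∀ (D0 v0 : ℕ) (S : Finset ℕ) (l : Co S k → ℝ) (m j : Fin k), S2P w h D0 v0 x m j l ≠ 0 →
  ∃ n : ℕ, n ≡ v0 [MOD primorial D0] ∧ x < n ∧ (∀ i, (n + h i : ℝ) < 2 * x) ∧
    (n + h m).Prime ∧ (n + h j).Prime

/-- Q19. Assembly (SEC). If k = 0 both sides of the hypothesis are 4 μ² ∫F² ≥ 0 and 0: impossible.
w from prf_Wex. JJ, GG ≥ 0 (Q9 and JJ is an integral of a nonnegative function), so the hypothesis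
gives μ > 1/2. gap = right minus left > 0. Choose ε small: (2μ-1) k ε + μ² (4/(1-4δ) + ε)(I + ε) - 4 μ² I +
k² ε < gap for δ ≤ δ1(ε), log(2x) ≤ (4/(1-4δ) + ε) log R for x large. If no n as wanted exists then
S2P m j = 0 for all m /= j with not E m j (Q18). Q17, Q16 (LowConcl, S1Concl: log(2x) S1 ≤
(4/(1-4δ) + ε) Nn (I + ε)), Q15 (PairConcl) and Nn > 0 (x large) give a contradiction. The D0 and x
thresholds of the finitely many m, j are uniform in the statements. USES: Q9, Q15, Q16, Q17, Q18. -/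
def Q19 : Prop := SEC

/-- Q20. THEOREM Q from SEC and FUN. K from FUN with η = ε/2 (for ε ≥ 1/4 the claim is trivial; or
k = 0). Fix k ≥ K, h admissible, F. For each of the finitely many relations E on Fin k with
card {(m,j) : m /= j, E m j} < (1/4 - ε) k² the hypothesis of SEC holds (sum ≤ card A/(1-s)), so there are
D0 (the maximum over the E) and x0 (the maximum) and v0 from prf_V0; for x ≥ x0 apply it to the
relation E of the realised pairs: contradiction if its card is < (1/4 - ε) k². (Real x of SEC = the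
natural number x.) USES: SEC, FUN. -/
def Q20 : Prop := BVE → PNTW → SEC → FUN → QuarterPairs

end MPb51559.BG.Q
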